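import Pool.Agent.PSQ.St
import Pool.Agent.Helper71.W4.FFTgl

/-!
# PSQ: the first fundamental theorem in a frame (M18)
-/

set_option autoImplicit false

namespace PSQ

open Matrix Module Pool.Agent.Helper7

section

variable {U : Type} [AddCommGroup U] [Module ℂ U] {τ : Type} [Fintype τ]
  [DecidableEq τ] {p N : ℕ}

/-- products over a matching are of type `PP` -/
lemma fft_pp {A B : Fin N → Prop} (hAB : ∀ r, A r → ¬ B r) [DecidablePred A] [DecidablePred B]
    (ρ : {r // A r} ≃ {r // B r})
    {𝓑 : Set (U →ₗ[ℂ] U →ₗ[ℂ] ℂ)} (β : {r // A r} → (U →ₗ[ℂ] U →ₗ[ℂ] ℂ)) (hβ : ∀ a, β a ∈ 𝓑)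
    (S : Finset {r // A r}) :
    PP 𝓑 (S.image Subtype.val ∪ S.image (fun a => (ρ a).val))
      (fun v => ∏ a ∈ S, β a (v a) (v (ρ a))) := by
  classical
  induction S using Finset.induction_on with
  | empty =>
    simp only [Finset.image_empty, Finset.union_empty, Finset.prod_empty]
    exact PP.nil
  | insert a S ha ih =>
    have h1 : (insert a S).image Subtype.val ∪ (insert a S).image (fun a => (ρ a).val) =
        insert a.val (insert (ρ a).val
          (S.image Subtype.val ∪ S.image (fun a => (ρ a).val))) := by
      rw [Finset.image_insert, Finset.image_insert, Finset.insert_union, Finset.union_insert]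
    rw [h1]
    have h2 : (fun v : Fin N → U => ∏ a ∈ insert a S, β a (v a) (v (ρ a))) =
        fun v => β a (v a) (v (ρ a)) * ∏ a ∈ S, β a (v a) (v (ρ a)) := by
      funext v
      rw [Finset.prod_insert ha]
    rw [h2]
    refine PP.cons a.val (ρ a).val (β a) (hβ a) ih ?_ ?_ ?_
    · rw [Finset.mem_union, not_or]
      constructor
      · intro h
        obtain ⟨b, hb, hba⟩ := Finset.mem_image.mp h
        rw [Subtype.ext hba] at hb
        exact ha hb
      · intro h
        obtain ⟨b, hb, hba⟩ := Finset.mem_image.mp h
        exact hAB a.val a.2 (hba ▸ (ρ b).2)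
    · rw [Finset.mem_union, not_or]
      constructor
      · intro h
        obtain ⟨b, hb, hba⟩ := Finset.mem_image.mp h
        exact hAB b.val b.2 (hba ▸ (ρ a).2)
      · intro h
        obtain ⟨b, hb, hba⟩ := Finset.mem_image.mp h
        have h3 : ρ b = ρ a := Subtype.ext hba
        rw [ρ.injective h3] at hb
        exact ha hb
    · intro h
      exact hAB a.val a.2 (h ▸ (ρ a).2)

/-- expansion in a basis -/
lemma fft_expand {I : Type} [Fintype I] (e : Basis I ℂ U)
    (α : MultilinearMap ℂ (fun _ : Fin N => U) ℂ) (v : Fin N → U) :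
    α v = ∑ l : Fin N → I, (∏ r, e.repr (v r) (l r)) * α (fun r => e (l r)) := by
  classical
  have h1 : v = fun r => ∑ l, e.repr (v r) l • e l := by
    funext r
    exact (e.sum_repr (v r)).symm
  conv_lhs => rw [h1]
  rw [α.map_sum]
  refine Finset.sum_congr rfl fun l _ => ?_
  rw [α.map_smul_univ, smul_eq_mul]

/-- the core: the coefficient function of a slot type -/
lemma fft_core (s : Fin N → Bool)
    (f : (Fin N → Fin p) → ℂ)
    (hf : ∀ (i0 j0 : Fin p) (i : Fin N → Fin p),
      ∑ r, (if s r = true then (if i r = j0 then f (Function.update i r i0) else 0) else 0) =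
      ∑ r, (if s r = true then 0 else (if i r = i0 then f (Function.update i r j0) else 0))) :
    ∃ c : ({r // s r = true} ≃ {r // ¬ s r = true}) → ℂ,
      ∀ i, f i = ∑ ρ, c ρ * ∏ a : {r // s r = true}, (if i a = i (ρ a) then 1 else 0) := by
  classical
  -- merging
  let mg : ({r // s r = true} → Fin p) → ({r // ¬ s r = true} → Fin p) → Fin N → Fin p :=
    fun x y => (Equiv.piEquivPiSubtypeProd (fun r => s r = true) (fun _ => Fin p)).symm (x, y)
  have hmgA : ∀ x y (a : {r // s r = true}), mg x y a = x a := by
    intro x y a
    show (if h : s a.1 = true then x ⟨a.1, h⟩ else y ⟨a.1, h⟩) = x a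
    rw [dif_pos a.2]
  have hmgB : ∀ x y (b : {r // ¬ s r = true}), mg x y b = y b := by
    intro x y b
    show (if h : s b.1 = true then x ⟨b.1, h⟩ else y ⟨b.1, h⟩) = y b
    rw [dif_neg b.2]
  have hmg : ∀ i : Fin N → Fin p, mg (fun a => i a) (fun b => i b) = i := by
    intro i
    exact (Equiv.piEquivPiSubtypeProd (fun r => s r = true) (fun _ => Fin p)).symm_apply_apply i
  have hupA : ∀ x y (a : {r // s r = true}) j, mg (Function.update x a j) y =
      Function.update (mg x y) a j := by
    intro x y a j
    funext r
    by_cases hr : s r = true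
    · have e1 : mg (Function.update x a j) y r = Function.update x a j ⟨r, hr⟩ :=
        hmgA _ _ ⟨r, hr⟩
      have e2 : mg x y r = x ⟨r, hr⟩ := hmgA _ _ ⟨r, hr⟩
      rw [e1]
      by_cases h : r = a.1
      · subst h
        rw [Function.update_self, Function.update_self]
      · rw [Function.update_of_ne h, Function.update_of_ne (fun h' => h (congrArg Subtype.val h')),
          e2]
    · have e1 : mg (Function.update x a j) y r = y ⟨r, hr⟩ := hmgB _ _ ⟨r, hr⟩
      have e2 : mg x y r = y ⟨r, hr⟩ := hmgB _ _ ⟨r, hr⟩
      rw [e1, Function.update_of_ne (fun h : r = a.1 => hr (by rw [h]; exact a.2)), e2]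
  have hupB : ∀ x y (b : {r // ¬ s r = true}) j, mg x (Function.update y b j) =
      Function.update (mg x y) b j := by
    intro x y b j
    funext r
    by_cases hr : s r = true
    · have e1 : mg x (Function.update y b j) r = x ⟨r, hr⟩ := hmgA _ _ ⟨r, hr⟩
      have e2 : mg x y r = x ⟨r, hr⟩ := hmgA _ _ ⟨r, hr⟩
      rw [e1, Function.update_of_ne (fun h : r = b.1 => b.2 (by rw [← h]; exact hr)), e2]
    · have e1 : mg x (Function.update y b j) r = Function.update y b j ⟨r, hr⟩ :=
        hmgB _ _ ⟨r, hr⟩
      have e2 : mg x y r = y ⟨r, hr⟩ := hmgB _ _ ⟨r, hr⟩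
      rw [e1]
      by_cases h : r = b.1
      · subst h
        rw [Function.update_self, Function.update_self]
      · rw [Function.update_of_ne h, Function.update_of_ne (fun h' => h (congrArg Subtype.val h')),
          e2]
  let G : ({r // s r = true} → Fin p) → ({r // ¬ s r = true} → Fin p) → ℂ :=
    fun x y => f (mg x y)
  have hG : ∀ (i0 j0 : Fin p) x y,
      ∑ r, (if x r = j0 then G (Function.update x r i0) y else 0) =
      ∑ r, (if y r = i0 then G x (Function.update y r j0) else 0) := by
    intro i0 j0 x y
    have h1 := hf i0 j0 (mg x y)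
    have h2 : ∑ r, (if s r = true then (if mg x y r = j0 then
        f (Function.update (mg x y) r i0) else 0) else 0) =
        ∑ r : {r // s r = true}, (if x r = j0 then G (Function.update x r i0) y else 0) := by
      rw [← Finset.sum_filter, Finset.sum_subtype (p := fun r => s r = true) _ (by simp)]
      refine Finset.sum_congr rfl fun a _ => ?_
      rw [hmgA, ← hupA]
    have h3 : ∑ r, (if s r = true then 0 else (if mg x y r = i0 then
        f (Function.update (mg x y) r j0) else 0)) =
        ∑ r : {r // ¬ s r = true}, (if y r = i0 then G x (Function.update y r j0) else 0) := by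
      have h4 : ∀ r, (if s r = true then 0 else (if mg x y r = i0 then
        f (Function.update (mg x y) r j0) else 0)) = (if ¬ s r = true then (if mg x y r = i0 then
        f (Function.update (mg x y) r j0) else 0) else 0) := by
        intro r
        by_cases hr : s r = true
        · rw [if_pos hr, if_neg (not_not.mpr hr)]
        · rw [if_neg hr, if_pos hr]
      rw [Finset.sum_congr rfl fun r _ => h4 r, ← Finset.sum_filter,
        Finset.sum_subtype (p := fun r => ¬ s r = true) _ (by simp)]
      refine Finset.sum_congr rfl fun a _ => ?_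
      rw [hmgB, ← hupB]
    rw [← h2, ← h3]
    exact h1
  by_cases hc : Fintype.card {r // s r = true} = Fintype.card {r // ¬ s r = true}
  · -- equal cardinalities
    let m := Fintype.card {r // s r = true}
    let eA : {r // s r = true} ≃ Fin m := Fintype.equivFin _
    let eB : {r // ¬ s r = true} ≃ Fin m := (Fintype.equivFin _).trans (finCongr hc.symm)
    obtain ⟨c, hc'⟩ := fft_gl (m := m) (d := p) (fun x y => G (x ∘ eA) (y ∘ eB)) (by
      intro i j x y
      have h1 := hG i j (x ∘ eA) (y ∘ eB)
      rw [← eA.symm.sum_comp, ← eB.symm.sum_comp] at h1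
      simp only [Function.comp_apply, Equiv.apply_symm_apply] at h1
      simp only [Function.update_comp_equiv]
      exact h1)
    -- transport of the permutations
    let Φ : Equiv.Perm (Fin m) ≃ ({r // s r = true} ≃ {r // ¬ s r = true}) :=
      { toFun := fun π => (eA.trans π).trans eB.symm
        invFun := fun ρ => (eA.symm.trans ρ).trans eB
        left_inv := fun π => by ext x; simp
        right_inv := fun ρ => by ext x; simp }
    refine ⟨fun ρ => c (Φ.symm ρ), fun i => ?_⟩
    have h1 := hc' ((fun a : {r // s r = true} => i a) ∘ eA.symm)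
      ((fun b : {r // ¬ s r = true} => i b) ∘ eB.symm)
    beta_reduce at h1
    have h2 : ((fun a : {r // s r = true} => i a) ∘ eA.symm) ∘ eA =
        fun a : {r // s r = true} => i a := by
      funext r; simp
    have h3 : ((fun b : {r // ¬ s r = true} => i b) ∘ eB.symm) ∘ eB =
        fun b : {r // ¬ s r = true} => i b := by
      funext r; simp
    rw [h2, h3] at h1
    have h4 : G (fun a => i a) (fun b => i b) = f i := by
      show f (mg _ _) = f i
      rw [hmg]
    rw [h4] at h1
    rw [h1]
    refine Fintype.sum_equiv Φ _ _ fun π => ?_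
    beta_reduce
    rw [Equiv.symm_apply_apply Φ π]
    congr 1
    refine (Fintype.prod_equiv eA _ _ fun a => ?_).symm
    simp only [Function.comp_apply, Equiv.symm_apply_apply]
    rfl
  · refine ⟨fun _ => 0, fun i => ?_⟩
    simp only [zero_mul, Finset.sum_const_zero]
    have h1 : ∑ j0 : Fin p, ∑ r, (if s r = true then
        (if i r = j0 then f (Function.update i r j0) else 0) else 0) =
        (Fintype.card {r // s r = true} : ℂ) * f i := by
      rw [Finset.sum_comm]
      have h2 : ∀ r, ∑ j0 : Fin p, (if s r = true then
        (if i r = j0 then f (Function.update i r j0) else 0) else 0) =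
          if s r = true then f i else 0 := by
        intro r
        by_cases hr : s r = true
        · simp only [if_pos hr]
          rw [Finset.sum_ite_eq]
          simp
        · simp only [if_neg hr, Finset.sum_const_zero]
      rw [Finset.sum_congr rfl fun r _ => h2 r, ← Finset.sum_filter, Finset.sum_const,
        nsmul_eq_mul, Fintype.card_subtype]
    have h3 : ∑ j0 : Fin p, ∑ r, (if s r = true then 0 else
        (if i r = j0 then f (Function.update i r j0) else 0)) =
        (Fintype.card {r // ¬ s r = true} : ℂ) * f i := by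
      rw [Finset.sum_comm]
      have h2 : ∀ r, ∑ j0 : Fin p, (if s r = true then 0 else
        (if i r = j0 then f (Function.update i r j0) else 0)) =
          if ¬ s r = true then f i else 0 := by
        intro r
        by_cases hr : s r = true
        · simp only [if_pos hr, Finset.sum_const_zero, if_neg (not_not.mpr hr)]
        · simp only [if_neg hr, if_pos hr]
          rw [Finset.sum_ite_eq]
          simp
      rw [Finset.sum_congr rfl fun r _ => h2 r, ← Finset.sum_filter, Finset.sum_const,
        nsmul_eq_mul, Fintype.card_subtype]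
    have h5 : (Fintype.card {r // s r = true} : ℂ) * f i =
        (Fintype.card {r // ¬ s r = true} : ℂ) * f i := by
      rw [← h1, ← h3]
      exact Finset.sum_congr rfl fun j0 _ => hf j0 j0 i
    have h6 : ((Fintype.card {r // s r = true} : ℂ) -
        (Fintype.card {r // ¬ s r = true} : ℂ)) * f i = 0 := by
      rw [sub_mul, h5, sub_self]
    rcases mul_eq_zero.mp h6 with h | h
    · exfalso
      apply hc
      exact_mod_cast sub_eq_zero.mp h
    · exact h

/-- the theorem -/
theorem thm_Fft : St_Fft := by
  classical
  intro U _ _ τ _ _ p N e α hα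
  -- the relations
  have hrel : ∀ (s : Fin N → Bool) (t : Fin N → τ) (i0 j0 : Fin p) (i : Fin N → Fin p),
      ∑ r, (if s r = true then (if i r = j0 then
        α (fun r' => e (s r', t r', Function.update i r i0 r')) else 0) else 0) =
      ∑ r, (if s r = true then 0 else (if i r = i0 then
        α (fun r' => e (s r', t r', Function.update i r j0 r')) else 0)) := by
    intro s t i0 j0 i
    obtain ⟨y, hy⟩ : ∃ y : Matrix (Fin p) (Fin p) ℂ, y = Matrix.single i0 j0 1 := ⟨_, rfl⟩
    obtain ⟨L, hL⟩ : ∃ L : Module.End ℂ U, L = e.constr ℂ (fun q : Bool × τ × Fin p =>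
        if q.1 = true then ∑ i', y i' q.2.2 • e (true, q.2.1, i')
        else -∑ j', y q.2.2 j' • e (false, q.2.1, j')) := ⟨_, rfl⟩
    have hL1 : ∀ t j, L (e (true, t, j)) = ∑ i', y i' j • e (true, t, i') := by
      intro t j
      rw [hL, Basis.constr_basis]
      exact if_pos rfl
    have hL2 : ∀ t j, L (e (false, t, j)) = -∑ j', y j j' • e (false, t, j') := by
      intro t j
      rw [hL, Basis.constr_basis]
      exact if_neg (by simp)
    have hL1' : ∀ t j, L (e (true, t, j)) = if j = j0 then e (true, t, i0) else 0 := by
      intro t j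
      rw [hL1, hy]
      by_cases hj : j = j0
      · subst hj
        rw [if_pos rfl, Finset.sum_eq_single i0]
        · rw [Matrix.single_apply_same, one_smul]
        · intro b _ hb
          rw [Matrix.single_apply_of_ne, zero_smul]
          rintro ⟨rfl, -⟩
          exact hb rfl
        · intro h
          exact absurd (Finset.mem_univ _) h
      · rw [if_neg hj]
        refine Finset.sum_eq_zero fun b _ => ?_
        rw [Matrix.single_apply_of_ne, zero_smul]
        rintro ⟨-, rfl⟩
        exact hj rfl
    have hL2' : ∀ t j, L (e (false, t, j)) = if j = i0 then -e (false, t, j0) else 0 := by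
      intro t j
      rw [hL2, hy]
      by_cases hj : j = i0
      · subst hj
        rw [if_pos rfl, Finset.sum_eq_single j0]
        · rw [Matrix.single_apply_same, one_smul]
        · intro b _ hb
          rw [Matrix.single_apply_of_ne, zero_smul]
          rintro ⟨-, rfl⟩
          exact hb rfl
        · intro h
          exact absurd (Finset.mem_univ _) h
      · rw [if_neg hj, neg_eq_zero]
        refine Finset.sum_eq_zero fun b _ => ?_
        rw [Matrix.single_apply_of_ne, zero_smul]
        rintro ⟨rfl, -⟩
        exact hj rfl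
    have h1 := congrArg (fun g => g (fun r => e (s r, t r, i r))) (hα y L hL1 hL2)
    simp only [actForm_apply, _root_.zero_apply] at h1
    have hup : ∀ r j, (fun r' => e (s r', t r', Function.update i r j r')) =
        Function.update (fun r' => e (s r', t r', i r')) r (e (s r, t r, j)) := by
      intro r j
      funext r'
      by_cases hr : r' = r
      · subst hr
        rw [Function.update_self, Function.update_self]
      · rw [Function.update_of_ne hr, Function.update_of_ne hr]
    rw [← sub_eq_zero, ← Finset.sum_sub_distrib]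
    refine Eq.trans ?_ h1
    refine Finset.sum_congr rfl fun r _ => ?_
    by_cases hr : s r = true
    · rw [if_pos hr, if_pos hr, sub_zero]
      have h2 : L (e (s r, t r, i r)) = if i r = j0 then e (s r, t r, i0) else 0 := by
        rw [hr]; exact hL1' _ _
      rw [h2]
      by_cases hj : i r = j0
      · rw [if_pos hj, if_pos hj, hup]
      · rw [if_neg hj, if_neg hj]
        exact (α.map_update_zero _ _).symm
    · rw [if_neg hr, if_neg hr, zero_sub]
      have hr' : s r = false := by simpa using hr
      have h2 : L (e (s r, t r, i r)) = if i r = i0 then -e (s r, t r, j0) else 0 := by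
        rw [hr']; exact hL2' _ _
      rw [h2]
      by_cases hj : i r = i0
      · rw [if_pos hj, if_pos hj, hup, ← neg_one_smul ℂ (e (s r, t r, j0)),
          α.map_update_smul, neg_one_smul]
      · rw [if_neg hj, if_neg hj, neg_zero]
        exact (α.map_update_zero _ _).symm
  -- the expansion
  have hexp : (fun v => α v) = ∑ s : Fin N → Bool, ∑ t : Fin N → τ, (fun v : Fin N → U =>
      ∑ i : Fin N → Fin p, (∏ r, e.repr (v r) (s r, t r, i r)) *
        α (fun r => e (s r, t r, i r))) := by
    funext v
    rw [Finset.sum_apply]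
    simp only [Finset.sum_apply]
    rw [fft_expand e α v]
    have h1 : ∀ F : (Fin N → Bool × τ × Fin p) → ℂ, ∑ l, F l =
        ∑ s : Fin N → Bool, ∑ t : Fin N → τ, ∑ i : Fin N → Fin p,
          F (fun r => (s r, t r, i r)) := by
      intro F
      rw [← Fintype.sum_prod_type (f := fun q : (Fin N → Bool) × (Fin N → τ) =>
        ∑ i : Fin N → Fin p, F (fun r => (q.1 r, q.2 r, i r))), ← Fintype.sum_prod_type
        (f := fun q : ((Fin N → Bool) × (Fin N → τ)) × (Fin N → Fin p) =>
          F (fun r => (q.1.1 r, q.1.2 r, q.2 r)))]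
      exact Fintype.sum_equiv
        { toFun := fun l => ((fun r => (l r).1, fun r => (l r).2.1), fun r => (l r).2.2)
          invFun := fun q r => (q.1.1 r, q.1.2 r, q.2 r)
          left_inv := fun l => rfl
          right_inv := fun q => rfl } _ _ fun l => rfl
    exact h1 _
  rw [hexp]
  refine Submodule.sum_mem _ fun s _ => Submodule.sum_mem _ fun t _ => ?_
  obtain ⟨c, hc⟩ := fft_core s (fun i => α (fun r => e (s r, t r, i r))) (hrel s t)
  -- the bilinear forms
  let co : Bool × τ × Fin p → (U →ₗ[ℂ] ℂ) := fun q => e.coord q
  let β : τ → τ → (U →ₗ[ℂ] U →ₗ[ℂ] ℂ) := fun t t' =>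
    ∑ i, (co (true, t, i)).smulRight (co (false, t', i))
  have hβ : ∀ t t' u v, β t t' u v = ∑ i, e.repr u (true, t, i) * e.repr v (false, t', i) := by
    intro t t' u v
    simp only [β, LinearMap.sum_apply, LinearMap.smulRight_apply, LinearMap.smul_apply, co,
      Basis.coord_apply, smul_eq_mul]
  have hfin : (fun v : Fin N → U => ∑ i : Fin N → Fin p, (∏ r, e.repr (v r) (s r, t r, i r)) *
        α (fun r => e (s r, t r, i r))) = ∑ ρ, c ρ • (fun v : Fin N → U =>
          ∏ a : {r // s r = true}, β (t a) (t (ρ a)) (v a) (v (ρ a))) := by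
    funext v
    rw [Finset.sum_apply]
    simp only [Pi.smul_apply, smul_eq_mul]

    simp only [hc, Finset.mul_sum]
    rw [Finset.sum_comm]
    refine Finset.sum_congr rfl fun ρ _ => ?_
    have h1 : ∀ i : Fin N → Fin p, (∏ r, e.repr (v r) (s r, t r, i r)) *
        (c ρ * ∏ a : {r // s r = true}, (if i a = i (ρ a) then (1 : ℂ) else 0)) =
        c ρ * ((∏ r, e.repr (v r) (s r, t r, i r)) *
        ∏ a : {r // s r = true}, (if i a = i (ρ a) then (1 : ℂ) else 0)) := fun i => by ring
    rw [Finset.sum_congr rfl fun i _ => h1 i, ← Finset.mul_sum]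
    congr 1
    -- split the product
    have h2 : ∀ i : Fin N → Fin p, (∏ r, e.repr (v r) (s r, t r, i r)) *
        ∏ a : {r // s r = true}, (if i a = i (ρ a) then (1 : ℂ) else 0) =
        ∏ a : {r // s r = true}, (e.repr (v a) (true, t a, i a) *
          e.repr (v (ρ a)) (false, t (ρ a), i (ρ a)) * if i a = i (ρ a) then (1 : ℂ) else 0) := by
      intro i
      rw [← Fintype.prod_subtype_mul_prod_subtype (fun r => s r = true)
        (fun r => e.repr (v r) (s r, t r, i r)), Finset.prod_mul_distrib,
        Finset.prod_mul_distrib]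
      congr 1
      congr 1
      · refine Finset.prod_congr rfl fun a _ => ?_
        rw [a.2]
      · refine (Fintype.prod_equiv ρ _ _ fun a => ?_).symm
        have h3 : s (ρ a).1 = false := by simpa using (ρ a).2
        rw [h3]
    rw [Finset.sum_congr rfl fun i _ => h2 i]
    rw [← (Equiv.piEquivPiSubtypeProd (fun r => s r = true) (fun _ => Fin p)).symm.sum_comp]
    rw [Fintype.sum_prod_type]
    have hA : ∀ (x : {r // s r = true} → Fin p) (y : {r // ¬ s r = true} → Fin p)
        (a : {r // s r = true}),
        (Equiv.piEquivPiSubtypeProd (fun r => s r = true) (fun _ => Fin p)).symm (x, y) a.1 =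
          x a := by
      intro x y a
      show (if h : s a.1 = true then x ⟨a.1, h⟩ else y ⟨a.1, h⟩) = x a
      rw [dif_pos a.2]
    have hB : ∀ (x : {r // s r = true} → Fin p) (y : {r // ¬ s r = true} → Fin p)
        (a : {r // ¬ s r = true}),
        (Equiv.piEquivPiSubtypeProd (fun r => s r = true) (fun _ => Fin p)).symm (x, y) a.1 =
          y a := by
      intro x y a
      show (if h : s a.1 = true then x ⟨a.1, h⟩ else y ⟨a.1, h⟩) = y a
      rw [dif_neg a.2]
    simp only [hA, hB, hβ]
    -- the sum over y
    rw [Finset.prod_univ_sum, Fintype.piFinset_univ]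
    refine Finset.sum_congr rfl fun x _ => ?_
    rw [Finset.sum_eq_single (x ∘ ρ.symm)]
    · refine Finset.prod_congr rfl fun a _ => ?_
      simp
    · intro y _ hy
      obtain ⟨b, hb⟩ : ∃ b, y b ≠ (x ∘ ρ.symm) b := by
        by_contra hcon
        push Not at hcon
        exact hy (funext hcon)
      refine Finset.prod_eq_zero (Finset.mem_univ (ρ.symm b)) ?_
      rw [Equiv.apply_symm_apply, if_neg (fun h => hb h.symm), mul_zero]
    · intro h
      exact absurd (Finset.mem_univ _) h
  rw [hfin]
  refine Submodule.sum_mem _ fun ρ _ => Submodule.smul_mem _ _ (Submodule.subset_span ?_)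
  have h1 := fft_pp (A := fun r => s r = true) (B := fun r => ¬ s r = true)
    (fun r hr hr' => hr' hr) ρ (𝓑 := {β : U →ₗ[ℂ] U →ₗ[ℂ] ℂ | ∃ t t' : τ, ∀ u v,
    β u v = ∑ i, e.repr u (true, t, i) * e.repr v (false, t', i)})
    (fun a => β (t a) (t (ρ a))) (fun a => ⟨t a, t (ρ a), hβ _ _⟩) Finset.univ
  have h2 : (Finset.univ : Finset {r // s r = true}).image Subtype.val ∪
      (Finset.univ : Finset {r // s r = true}).image (fun a => (ρ a).val) = Finset.univ := by
    apply Finset.eq_univ_of_forall
    intro r
    rw [Finset.mem_union]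
    by_cases hr : s r = true
    · left
      exact Finset.mem_image.mpr ⟨⟨r, hr⟩, Finset.mem_univ _, rfl⟩
    · right
      exact Finset.mem_image.mpr ⟨ρ.symm ⟨r, hr⟩, Finset.mem_univ _, by
        rw [Equiv.apply_symm_apply]⟩
  rw [h2] at h1
  exact h1

end

end PSQ
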