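import Pool.Agent.PSQ.St

/-!
# PSQ, module CYC: a cycle of prime length
-/

set_option autoImplicit false

namespace PSQ

open Matrix Module Pool.Agent.Helper7

/-- The automorphisms which fix `z`. -/
def cyc_G (z : ℂ) : Subgroup (RingAut ℂ) where
  carrier := {σ | (σ : ℂ ≃+* ℂ) z = z}
  mul_mem' := by
    intro σ τ hσ hτ
    show (σ : ℂ ≃+* ℂ) ((τ : ℂ ≃+* ℂ) z) = z
    have h1 : (τ : ℂ ≃+* ℂ) z = z := hτ
    rw [h1]
    exact hσ
  one_mem' := rfl
  inv_mem' := by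
    intro σ hσ
    show (σ : ℂ ≃+* ℂ).symm z = z
    rw [RingEquiv.symm_apply_eq]
    exact hσ.symm

/-- The action on `S`. -/
def cyc_rho (z : ℂ) (S : Finset ℂ) (h : ∀ σ : ℂ ≃+* ℂ, σ z = z → ∀ x ∈ S, σ x ∈ S) :
    cyc_G z →* Equiv.Perm S where
  toFun σ := ⟨fun x => ⟨(σ.1 : ℂ ≃+* ℂ) x.1, h σ.1 σ.2 x.1 x.2⟩,
    fun x => ⟨(σ.1 : ℂ ≃+* ℂ).symm x.1, h _ (σ⁻¹).2 _ x.2⟩,
    fun x => Subtype.ext ((σ.1 : ℂ ≃+* ℂ).symm_apply_apply x.1),
    fun x => Subtype.ext ((σ.1 : ℂ ≃+* ℂ).apply_symm_apply x.1)⟩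
  map_one' := by
    ext x
    rfl
  map_mul' := by
    intro σ τ
    ext x
    rfl

theorem thm_Cyc : St_Cyc := by
  intro p hp z S hcard hstab htrans
  classical
  have hcS : Fintype.card S = p := by
    rw [Fintype.card_coe]
    exact hcard
  have hne : S.Nonempty := by
    rw [← Finset.card_pos, hcard]
    exact hp.out.pos
  obtain ⟨y0, hy0⟩ := hne
  set x0 : S := ⟨y0, hy0⟩ with hx0
  let H : Subgroup (Equiv.Perm S) := (cyc_rho z S hstab).range
  have : MulAction.IsPretransitive H S := by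
    constructor
    intro a b
    obtain ⟨σ, hσz, hσ⟩ := htrans a.1 a.2 b.1 b.2
    refine ⟨⟨cyc_rho z S hstab ⟨σ, hσz⟩, ⟨⟨σ, hσz⟩, rfl⟩⟩, ?_⟩
    apply Subtype.ext
    exact hσ
  have hdvd : p ∣ Nat.card H := by
    have h1 := MulAction.index_stabilizer_of_transitive H x0
    have h2 := Subgroup.index_dvd_card (MulAction.stabilizer H x0)
    rw [h1, Nat.card_eq_fintype_card, hcS] at h2
    exact h2
  obtain ⟨g, hg⟩ := exists_prime_orderOf_dvd_card' p hdvd
  have hg1 : orderOf (g : Equiv.Perm S) = p := by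
    rw [Subgroup.orderOf_coe]
    exact hg
  have hcyc : (g : Equiv.Perm S).IsCycle := by
    apply Equiv.Perm.isCycle_of_prime_order'
    · rw [hg1]
      exact hp.out
    · rw [hg1, hcS]
      have := hp.out.pos
      omega
  have hsup : (g : Equiv.Perm S).support = Finset.univ := by
    rw [← Finset.card_eq_iff_eq_univ, ← hcyc.orderOf, hg1, hcS]
  obtain ⟨⟨σ, hσz⟩, hσ⟩ := g.2
  have hmv : ∀ y : S, (g : Equiv.Perm S) y ≠ y := by
    intro y
    rw [← Equiv.Perm.mem_support, hsup]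
    exact Finset.mem_univ _
  have hinj : Function.Injective (fun i : ZMod p => ((g : Equiv.Perm S) ^ i.val) x0) := by
    intro i j hij
    have h1 : (g : Equiv.Perm S) ^ i.val = (g : Equiv.Perm S) ^ j.val := by
      rw [hcyc.pow_eq_pow_iff]
      exact ⟨x0, hmv x0, hij⟩
    have h2 := pow_injOn_Iio_orderOf (x := (g : Equiv.Perm S))
      (by rw [hg1]; exact ZMod.val_lt i) (by rw [hg1]; exact ZMod.val_lt j) h1
    exact ZMod.val_injective p h2
  have hbij : Function.Bijective (fun i : ZMod p => ((g : Equiv.Perm S) ^ i.val) x0) := by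
    rw [Fintype.bijective_iff_injective_and_card]
    refine ⟨hinj, ?_⟩
    rw [ZMod.card, hcS]
  refine ⟨σ, fun i => (((g : Equiv.Perm S) ^ i.val) x0 : S).1, hσz, ?_, ?_, ?_, ?_⟩
  · intro i j hij
    exact hinj (Subtype.ext hij)
  · intro i
    exact (((g : Equiv.Perm S) ^ i.val) x0).2
  · intro y hy
    obtain ⟨i, hi⟩ := hbij.2 ⟨y, hy⟩
    exact ⟨i, congrArg Subtype.val hi⟩
  · intro i
    have h1 : ∀ y : S, σ y.1 = ((g : Equiv.Perm S) y).1 := by
      intro y
      rw [← hσ]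
      rfl
    show σ (((g : Equiv.Perm S) ^ i.val) x0).1 = (((g : Equiv.Perm S) ^ (i + 1).val) x0).1
    rw [h1]
    have h2 : (g : Equiv.Perm S) ^ (i + 1).val = (g : Equiv.Perm S) ^ (i.val + 1) := by
      have : Fact (1 < p) := ⟨hp.out.one_lt⟩
      rw [ZMod.val_add, ZMod.val_one]
      have h3 := pow_mod_orderOf (g : Equiv.Perm S) (i.val + 1)
      rw [hg1] at h3
      exact h3
    rw [h2, pow_succ']
    rfl

end PSQ
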