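import Pool.Agent.PSQ.St

/-!
# PSQ, module Dia: off-diagonal components
-/

set_option autoImplicit false

namespace PSQ

open Matrix Module Pool.Agent.Helper7

/-! ### the exponents -/

private theorem dia_pow0 (x y x' y' : ℕ) (h1 : x ≤ y) (h2 : x' ≤ y')
    (h : 4 ^ x + 4 ^ y = 4 ^ x' + 4 ^ y') : x = x' ∧ y = y' := by
  have key : ∀ x y x' y' : ℕ, x' ≤ y' → 4 ^ x + 4 ^ y = 4 ^ x' + 4 ^ y' → y ≤ y' := by
    intro x y x' y' h2 h
    have h3 : 4 ^ x' ≤ 4 ^ y' := Nat.pow_le_pow_right (by norm_num) h2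
    have h4 : 0 < 4 ^ x := Nat.pow_pos (by norm_num)
    have h5 : 4 ^ y < 4 ^ (y' + 1) := by
      rw [pow_succ]
      omega
    have h6 := (Nat.pow_lt_pow_iff_right (a := 4) (by norm_num)).1 h5
    omega
  have e : y = y' := le_antisymm (key x y x' y' h2 h) (key x' y' x y h1 h.symm)
  subst e
  exact ⟨Nat.pow_right_injective (by norm_num : 2 ≤ 4) (show 4 ^ x = 4 ^ x' by omega), rfl⟩

private theorem dia_pow (a b c d : ℕ) (h : 4 ^ a + 4 ^ d = 4 ^ c + 4 ^ b) :
    (a = c ∧ d = b) ∨ (a = b ∧ d = c) := by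
  rcases le_total a d with h1 | h1 <;> rcases le_total c b with h2 | h2
  · exact Or.inl (dia_pow0 _ _ _ _ h1 h2 h)
  · right
    exact dia_pow0 _ _ _ _ h1 h2 (by rw [h]; ring)
  · right
    have := dia_pow0 _ _ _ _ h1 h2 (by rw [add_comm, h])
    exact ⟨this.2, this.1⟩
  · left
    have := dia_pow0 _ _ _ _ h1 h2 (by rw [add_comm, h]; ring)
    exact ⟨this.2, this.1⟩

/-- the numbers `q` -/
private noncomputable def dia_q (p : ℕ) [NeZero p] (k : ZMod p) : ℂ :=
  (4 : ℂ) ^ k.val - (∑ l : ZMod p, (4 : ℂ) ^ l.val) / p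

private theorem dia_q_sum (p : ℕ) [NeZero p] : ∑ k : ZMod p, dia_q p k = 0 := by
  have hp : (p : ℂ) ≠ 0 := Nat.cast_ne_zero.2 (NeZero.ne p)
  unfold dia_q
  rw [Finset.sum_sub_distrib, Finset.sum_const, Finset.card_univ, ZMod.card, nsmul_eq_mul,
    mul_div_cancel₀ _ hp, sub_self]

private theorem dia_q_inj (p : ℕ) [NeZero p] (i j a b : ZMod p) (hij : i ≠ j)
    (h : dia_q p a - dia_q p b = dia_q p i - dia_q p j) : a = i ∧ b = j := by
  unfold dia_q at h
  have h1 : (4 : ℂ) ^ a.val + (4 : ℂ) ^ j.val = (4 : ℂ) ^ i.val + (4 : ℂ) ^ b.val := by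
    linear_combination h
  have h2 : 4 ^ a.val + 4 ^ j.val = 4 ^ i.val + 4 ^ b.val := by exact_mod_cast h1
  rcases dia_pow _ _ _ _ h2 with ⟨h3, h4⟩ | ⟨h3, h4⟩
  · exact ⟨ZMod.val_injective p h3, (ZMod.val_injective p h4).symm⟩
  · exact absurd (ZMod.val_injective p h4).symm hij

/-! ### the operator -/

section ad

variable {ι : Type} [Fintype ι] [DecidableEq ι] {ψ : Matrix ι ι ℚ}
  {𝓓 : Set (Matrix ι ι ℚ)} {J : Matrix ι ι ℚ} {d : ℚ} {p : ℕ} [NeZero p]
  {𝔤 : Submodule ℂ (Matrix ι ι ℂ × ℂ)} {z : ℂ} {σ : ℂ ≃+* ℂ} {x : ZMod p → ℂ}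
  {E : Bool → ZMod p → Matrix ι ι ℂ}

/-- the components -/
private def dia_T (E : Bool → ZMod p → Matrix ι ι ℂ) (X : Matrix ι ι ℂ) (a b : ZMod p) :
    Matrix ι ι ℂ := E true a * X * E true b + E false b * X * E false a

/-- the diagonal element -/
private noncomputable def dia_H (E : Bool → ZMod p → Matrix ι ι ℂ) : Matrix ι ι ℂ :=
  ∑ i, dia_q p i • (E true i - E false i)

private theorem dia_H_t (hE : Spl ψ 𝓓 J d p 𝔤 z σ x E) (a : ZMod p) :
    dia_H E * E true a = dia_q p a • E true a ∧ E true a * dia_H E = dia_q p a • E true a := by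
  unfold dia_H
  rw [Finset.sum_mul, Finset.mul_sum]
  constructor
  · rw [Finset.sum_eq_single a]
    · rw [smul_mul_assoc, sub_mul, hE.orth, hE.orth, if_pos ⟨rfl, rfl⟩,
        if_neg (fun h => Bool.noConfusion h.1), sub_zero]
    · intro b _ hb
      rw [smul_mul_assoc, sub_mul, hE.orth, hE.orth, if_neg (fun h => hb h.2),
        if_neg (fun h => Bool.noConfusion h.1), sub_zero, smul_zero]
    · intro h
      exact absurd (Finset.mem_univ a) h
  · rw [Finset.sum_eq_single a]
    · rw [mul_smul_comm, mul_sub, hE.orth, hE.orth, if_pos ⟨rfl, rfl⟩,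
        if_neg (fun h => Bool.noConfusion h.1), sub_zero]
    · intro b _ hb
      rw [mul_smul_comm, mul_sub, hE.orth, hE.orth, if_neg (fun h => hb h.2.symm),
        if_neg (fun h => Bool.noConfusion h.1), sub_zero, smul_zero]
    · intro h
      exact absurd (Finset.mem_univ a) h

private theorem dia_H_f (hE : Spl ψ 𝓓 J d p 𝔤 z σ x E) (a : ZMod p) :
    dia_H E * E false a = -(dia_q p a • E false a) ∧
      E false a * dia_H E = -(dia_q p a • E false a) := by
  unfold dia_H
  rw [Finset.sum_mul, Finset.mul_sum]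
  constructor
  · rw [Finset.sum_eq_single a]
    · rw [smul_mul_assoc, sub_mul, hE.orth, hE.orth, if_neg (fun h => Bool.noConfusion h.1),
        if_pos ⟨rfl, rfl⟩, zero_sub, smul_neg]
    · intro b _ hb
      rw [smul_mul_assoc, sub_mul, hE.orth, hE.orth, if_neg (fun h => Bool.noConfusion h.1),
        if_neg (fun h => hb h.2), sub_zero, smul_zero]
    · intro h
      exact absurd (Finset.mem_univ a) h
  · rw [Finset.sum_eq_single a]
    · rw [mul_smul_comm, mul_sub, hE.orth, hE.orth, if_neg (fun h => Bool.noConfusion h.1),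
        if_pos ⟨rfl, rfl⟩, zero_sub, smul_neg]
    · intro b _ hb
      rw [mul_smul_comm, mul_sub, hE.orth, hE.orth, if_neg (fun h => Bool.noConfusion h.1),
        if_neg (fun h => hb h.2.symm), sub_zero, smul_zero]
    · intro h
      exact absurd (Finset.mem_univ a) h

/-- the components are eigenvectors -/
private theorem dia_ad (hE : Spl ψ 𝓓 J d p 𝔤 z σ x E) (X : Matrix ι ι ℂ) (a b : ZMod p) :
    dia_H E * dia_T E X a b - dia_T E X a b * dia_H E =
      (dia_q p a - dia_q p b) • dia_T E X a b := by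
  have h1 : dia_H E * (E true a * X * E true b) = dia_q p a • (E true a * X * E true b) := by
    rw [← mul_assoc, ← mul_assoc, (dia_H_t hE a).1, smul_mul_assoc, smul_mul_assoc]
  have h2 : (E true a * X * E true b) * dia_H E = dia_q p b • (E true a * X * E true b) := by
    rw [mul_assoc, (dia_H_t hE b).2, mul_smul_comm]
  have h3 : dia_H E * (E false b * X * E false a) =
      -(dia_q p b • (E false b * X * E false a)) := by
    rw [← mul_assoc, ← mul_assoc, (dia_H_f hE b).1, neg_mul, neg_mul, smul_mul_assoc,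
      smul_mul_assoc]
  have h4 : (E false b * X * E false a) * dia_H E =
      -(dia_q p a • (E false b * X * E false a)) := by
    rw [mul_assoc, (dia_H_f hE a).2, mul_neg, mul_smul_comm]
  unfold dia_T
  rw [mul_add, add_mul, h1, h2, h3, h4, smul_add, sub_smul, sub_smul]
  abel

/-- the cross terms vanish -/
private theorem dia_cross (hE : Spl ψ 𝓓 J d p 𝔤 z σ x E) (hJ : J ∈ 𝓓) (hd : 0 < d)
    (X : Matrix ι ι ℂ) (hX : IsC 𝓓 X) (a b : ZMod p) :
    E true a * X * E false b = 0 ∧ E false a * X * E true b = 0 := by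
  have hz : z ≠ 0 := by
    intro h
    have h1 := hE.z2
    rw [h] at h1
    have h2 : (d : ℂ) = 0 := by
      have h3 : (0 : ℂ) ^ 2 = 0 := by norm_num
      rw [h3] at h1
      exact neg_eq_zero.1 h1.symm
    have h4 : d = 0 := by exact_mod_cast h2
    exact hd.ne' h4
  have hz2 : (2 * z : ℂ) ≠ 0 := mul_ne_zero two_ne_zero hz
  have hXJ : X * cc J = cc J * X := hX J hJ
  have hTJ : E true a * cc J = z • E true a := by rw [hE.com true a J hJ, hE.Jt]
  have hFJ : E false a * cc J = (-z) • E false a := by rw [hE.com false a J hJ, hE.Jf]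
  constructor
  · have h1 : z • (E true a * X * E false b) = (-z) • (E true a * X * E false b) := by
      calc z • (E true a * X * E false b) = (z • E true a) * X * E false b := by
            rw [smul_mul_assoc, smul_mul_assoc]
        _ = E true a * cc J * X * E false b := by rw [hTJ]
        _ = E true a * (cc J * X) * E false b := by rw [mul_assoc (E true a)]
        _ = E true a * (X * cc J) * E false b := by rw [hXJ]
        _ = E true a * X * (cc J * E false b) := by simp only [mul_assoc]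
        _ = (-z) • (E true a * X * E false b) := by rw [hE.Jf, mul_smul_comm]
    have h2 : (2 * z) • (E true a * X * E false b) = 0 := by
      rw [two_mul, add_smul]
      nth_rewrite 1 [h1]
      rw [neg_smul, neg_add_cancel]
    exact (smul_eq_zero.1 h2).resolve_left hz2
  · have h1 : (-z) • (E false a * X * E true b) = z • (E false a * X * E true b) := by
      calc (-z) • (E false a * X * E true b) = ((-z) • E false a) * X * E true b := by
            rw [smul_mul_assoc, smul_mul_assoc]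
        _ = E false a * cc J * X * E true b := by rw [hFJ]
        _ = E false a * (cc J * X) * E true b := by rw [mul_assoc (E false a)]
        _ = E false a * (X * cc J) * E true b := by rw [hXJ]
        _ = E false a * X * (cc J * E true b) := by simp only [mul_assoc]
        _ = z • (E false a * X * E true b) := by rw [hE.Jt, mul_smul_comm]
    have h2 : (2 * z) • (E false a * X * E true b) = 0 := by
      rw [two_mul, add_smul]
      nth_rewrite 1 [← h1]
      rw [neg_smul, neg_add_cancel]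
    exact (smul_eq_zero.1 h2).resolve_left hz2

/-- the sum of the components -/
private theorem dia_sum (hE : Spl ψ 𝓓 J d p 𝔤 z σ x E) (hJ : J ∈ 𝓓) (hd : 0 < d)
    (X : Matrix ι ι ℂ) (hX : IsC 𝓓 X) : ∑ a, ∑ b, dia_T E X a b = X := by
  have hsum : (∑ a, E true a) + ∑ a, E false a = 1 := by
    have h := hE.sum
    rw [Fintype.sum_bool] at h
    exact h
  have h1 : ∀ s t, (∑ a, E s a) * X * (∑ b, E t b) = ∑ a, ∑ b, E s a * X * E t b := by
    intro s t
    rw [Finset.sum_mul, Finset.sum_mul]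
    exact Finset.sum_congr rfl fun a _ => Finset.mul_sum _ _ _
  have h2 : (∑ a, E true a) * X * (∑ b, E false b) = 0 := by
    rw [h1]
    exact Finset.sum_eq_zero fun a _ => Finset.sum_eq_zero fun b _ =>
      (dia_cross hE hJ hd X hX a b).1
  have h3 : (∑ a, E false a) * X * (∑ b, E true b) = 0 := by
    rw [h1]
    exact Finset.sum_eq_zero fun a _ => Finset.sum_eq_zero fun b _ =>
      (dia_cross hE hJ hd X hX a b).2
  have h4 : X = (∑ a, E true a) * X * (∑ b, E true b) +
      (∑ a, E false a) * X * (∑ b, E false b) := by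
    calc X = ((∑ a, E true a) + ∑ a, E false a) * X * ((∑ a, E true a) + ∑ a, E false a) := by
          rw [hsum, one_mul, mul_one]
      _ = _ := by
          rw [add_mul, add_mul, mul_add, mul_add, h2, h3, add_zero, zero_add]
  rw [h1, h1] at h4
  rw [Finset.sum_comm (f := fun a b => E false a * X * E false b)] at h4
  rw [← Finset.sum_add_distrib] at h4
  nth_rewrite 2 [h4]
  refine Finset.sum_congr rfl fun a _ => ?_
  rw [← Finset.sum_add_distrib]
  rfl

/-- the powers of the operator -/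
private theorem dia_mem (h𝔤 : GA0 ψ 𝓓 𝔤) (hE : Spl ψ 𝓓 J d p 𝔤 z σ x E) (hJ : J ∈ 𝓓)
    (hd : 0 < d) (hH : (dia_H E, (0 : ℂ)) ∈ 𝔤) (X : Matrix ι ι ℂ × ℂ) (hX : X ∈ 𝔤) (m : ℕ) :
    (∃ c, (∑ a, ∑ b, (dia_q p a - dia_q p b) ^ m • dia_T E X.1 a b, (c : ℂ)) ∈ 𝔤) ∧
      (m ≠ 0 → (∑ a, ∑ b, (dia_q p a - dia_q p b) ^ m • dia_T E X.1 a b, (0 : ℂ)) ∈ 𝔤) := by
  induction m with
  | zero =>
    refine ⟨⟨X.2, ?_⟩, fun h => absurd rfl h⟩
    simp only [pow_zero, one_smul]
    rw [dia_sum hE hJ hd X.1 (h𝔤.comm X hX)]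
    exact hX
  | succ m ih =>
    obtain ⟨⟨c, hc⟩, -⟩ := ih
    have h1 := h𝔤.br _ hH _ hc
    have h2 : dia_H E * (∑ a, ∑ b, (dia_q p a - dia_q p b) ^ m • dia_T E X.1 a b) -
        (∑ a, ∑ b, (dia_q p a - dia_q p b) ^ m • dia_T E X.1 a b) * dia_H E =
        ∑ a, ∑ b, (dia_q p a - dia_q p b) ^ (m + 1) • dia_T E X.1 a b := by
      rw [Finset.mul_sum, Finset.sum_mul, ← Finset.sum_sub_distrib]
      refine Finset.sum_congr rfl fun a _ => ?_
      rw [Finset.mul_sum, Finset.sum_mul, ← Finset.sum_sub_distrib]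
      refine Finset.sum_congr rfl fun b _ => ?_
      rw [mul_smul_comm, smul_mul_assoc, ← smul_sub, dia_ad hE, smul_smul, pow_succ]
    have h3 : (∑ a, ∑ b, (dia_q p a - dia_q p b) ^ (m + 1) • dia_T E X.1 a b, (0 : ℂ)) ∈ 𝔤 := by
      rw [← h2]
      exact h1
    exact ⟨⟨0, h3⟩, fun _ => h3⟩

end ad

private theorem dia_poly (s : Finset ℂ) (w : ℂ) (hw : w ∈ s) :
    ∃ f : Polynomial ℂ, ∀ x ∈ s, f.eval x = if x = w then 1 else 0 := by
  classical
  refine ⟨Lagrange.basis s id w, fun x hx => ?_⟩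
  by_cases h : x = w
  · rw [if_pos h, h]
    exact Lagrange.eval_basis_self (Set.injOn_id _) hw
  · rw [if_neg h]
    exact Lagrange.eval_basis_of_ne (v := id) (Ne.symm h) hx

theorem thm_Dia (hHq : St_Hq) : St_Dia := by
  intro ι _ _ ψ 𝓓 J d p _ 𝔤 z σ x E hDA hGA hE X hX i j hij
  classical
  have hH : (dia_H E, (0 : ℂ)) ∈ 𝔤 := hHq ι ψ 𝓓 J d p 𝔤 z σ x E hGA hE (dia_q p) (dia_q_sum p)
  set s : Finset ℂ := Finset.univ.image fun ab : ZMod p × ZMod p =>
    dia_q p ab.1 - dia_q p ab.2 with hs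
  have hmem : ∀ a b, dia_q p a - dia_q p b ∈ s := fun a b =>
    Finset.mem_image.2 ⟨(a, b), Finset.mem_univ _, rfl⟩
  obtain ⟨f, hf⟩ := dia_poly s _ (hmem i j)
  have hf1 : ∀ a b, f.eval (dia_q p a - dia_q p b) = if a = i ∧ b = j then 1 else 0 := by
    intro a b
    rw [hf _ (hmem a b)]
    by_cases h : a = i ∧ b = j
    · rw [if_pos h, h.1, h.2, if_pos rfl]
    · rw [if_neg h, if_neg]
      intro he
      exact h (dia_q_inj p i j a b hij he)
  have hf0 : f.coeff 0 = 0 := by
    rw [Polynomial.coeff_zero_eq_eval_zero]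
    have h1 := hf1 i i
    rw [sub_self, if_neg (fun h => hij h.2)] at h1
    exact h1
  have hT : dia_T E X.1 i j = ∑ m ∈ Finset.range (f.natDegree + 1), f.coeff m •
      ∑ a, ∑ b, (dia_q p a - dia_q p b) ^ m • dia_T E X.1 a b := by
    have h1 : dia_T E X.1 i j = ∑ a, ∑ b, f.eval (dia_q p a - dia_q p b) •
        dia_T E X.1 a b := by
      rw [Finset.sum_eq_single i]
      · rw [Finset.sum_eq_single j]
        · rw [hf1, if_pos ⟨rfl, rfl⟩, one_smul]
        · intro b _ hb
          rw [hf1, if_neg (fun h => hb h.2), zero_smul]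
        · intro h
          exact absurd (Finset.mem_univ j) h
      · intro a _ ha
        refine Finset.sum_eq_zero fun b _ => ?_
        rw [hf1, if_neg (fun h => ha h.1), zero_smul]
      · intro h
        exact absurd (Finset.mem_univ i) h
    rw [h1]
    simp only [Finset.smul_sum, smul_smul]
    conv_rhs => rw [Finset.sum_comm]
    refine Finset.sum_congr rfl fun a _ => ?_
    conv_rhs => rw [Finset.sum_comm]
    refine Finset.sum_congr rfl fun b _ => ?_
    rw [← Finset.sum_smul, Polynomial.eval_eq_sum_range]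
  have hfin : ((dia_T E X.1 i j, (0 : ℂ)) : Matrix ι ι ℂ × ℂ) =
      ∑ m ∈ Finset.range (f.natDegree + 1), f.coeff m •
        ((∑ a, ∑ b, (dia_q p a - dia_q p b) ^ m • dia_T E X.1 a b, (0 : ℂ)) :
          Matrix ι ι ℂ × ℂ) := by
    refine Prod.ext ?_ ?_
    · rw [Prod.fst_sum]
      exact hT
    · rw [Prod.snd_sum]
      refine (Finset.sum_eq_zero fun m _ => ?_).symm
      show f.coeff m • (0 : ℂ) = 0
      exact smul_zero _
  show (dia_T E X.1 i j, (0 : ℂ)) ∈ 𝔤
  rw [hfin]
  refine Submodule.sum_mem _ fun m _ => ?_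
  by_cases hm : m = 0
  · rw [hm, hf0, zero_smul]
    exact Submodule.zero_mem _
  · exact Submodule.smul_mem _ _
      ((dia_mem hGA.toGA0 hE hDA.JD hDA.dpos hH X hX m).2 hm)

end PSQ
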