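import Pool.Agent.PSQ.St

/-!
# PSQ: a rational element of the Lie algebra outside the centre
-/

set_option autoImplicit false

namespace PSQ

open Matrix Module Pool.Agent.Helper7

section

variable {ι : Type} [Fintype ι] [DecidableEq ι]

private lemma exi_comm (ψ : Matrix ι ι ℚ) (𝓓 : Set (Matrix ι ι ℚ)) (J : Matrix ι ι ℚ)
    (𝔤 : Submodule ℂ (Matrix ι ι ℂ × ℂ)) (hG : GA0 ψ 𝓓 𝔤)
    (h : ∀ Y : Matrix ι ι ℚ, (cc Y, (0 : ℂ)) ∈ 𝔤 →
      ∃ a b : ℚ, Y = a • (1 : Matrix ι ι ℚ) + b • J)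
    (f : Matrix ι ι ℚ) (hf : J * f = f * J) : f ∈ 𝓓 := by
  refine hG.com2 f ?_
  intro A μ hA
  have h1 : (cc (A - (μ / 2) • (1 : Matrix ι ι ℚ)), (0 : ℂ)) ∈ 𝔤 := by
    have h2 := 𝔤.sub_mem hA (𝔤.smul_mem ((μ : ℂ) / 2) hG.one)
    have e : (cc (A - (μ / 2) • (1 : Matrix ι ι ℚ)), (0 : ℂ)) =
        (cc A, (μ : ℂ)) - ((μ : ℂ) / 2) • ((1 : Matrix ι ι ℂ), (2 : ℂ)) := by
      refine Prod.ext ?_ ?_
      · show cc (A - (μ / 2) • (1 : Matrix ι ι ℚ)) = cc A - ((μ : ℂ) / 2) • (1 : Matrix ι ι ℂ)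
        rw [map_sub]
        congr 1
        ext i j
        simp only [cc, RingHom.mapMatrix_apply, Matrix.map_apply, Matrix.smul_apply,
          Matrix.one_apply, smul_eq_mul]
        split_ifs <;> simp
      · show (0 : ℂ) = (μ : ℂ) - ((μ : ℂ) / 2) • (2 : ℂ)
        rw [smul_eq_mul]
        ring
    rw [e]
    exact h2
  obtain ⟨a, b, hab⟩ := h _ h1
  have h3 : A = (a + μ / 2) • (1 : Matrix ι ι ℚ) + b • J := by
    rw [add_smul]
    have := sub_eq_iff_eq_add.1 hab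
    rw [this]
    abel
  rw [h3]
  simp only [add_mul, mul_add, Matrix.smul_mul, Matrix.mul_smul, one_mul, mul_one, hf]

private lemma exi_f (J : Matrix ι ι ℚ) (d : ℚ) (hJ : J * J = -(d • (1 : Matrix ι ι ℚ)))
    (hd : 0 < d) (hc : 3 ≤ Fintype.card ι) :
    ∃ f : Matrix ι ι ℚ, J * f = f * J ∧ f ≠ 0 ∧ f.det = 0 := by
  have hne : Nonempty ι := Fintype.card_pos_iff.1 (by omega)
  obtain ⟨i0⟩ := hne
  set v : ι → ℚ := Pi.single i0 1 with hv
  refine ⟨vecMulVec (J *ᵥ v) v + vecMulVec v (v ᵥ* J), ?_, ?_, ?_⟩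
  · rw [mul_add, add_mul, Matrix.mul_vecMulVec, Matrix.mul_vecMulVec, Matrix.vecMulVec_mul,
      Matrix.vecMulVec_mul, Matrix.mulVec_mulVec, Matrix.vecMul_vecMul, hJ]
    rw [Matrix.neg_mulVec, Matrix.vecMul_neg, Matrix.smul_mulVec, Matrix.vecMul_smul,
      Matrix.one_mulVec, Matrix.vecMul_one]
    ext i j
    simp only [Matrix.add_apply, Matrix.vecMulVec_apply, Pi.neg_apply, Pi.smul_apply, smul_eq_mul]
    ring
  · intro h0
    have h1 : (vecMulVec (J *ᵥ v) v + vecMulVec v (v ᵥ* J)) *ᵥ v = 0 := by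
      rw [h0, Matrix.zero_mulVec]
    have hJi : ∀ i, (J *ᵥ v) i = J i i0 := by
      intro i
      simp [hv]
    have hvJ : ∀ i, (v ᵥ* J) i = J i0 i := by
      intro i
      simp [hv]
    have h2 : ∀ i, J i i0 = -(J i0 i0) * v i := by
      intro i
      have h3 := congrFun (congrFun h0 i) i0
      simp only [Matrix.add_apply, Matrix.vecMulVec_apply, hJi, hvJ, Matrix.zero_apply] at h3
      have h4 : v i0 = 1 := by simp [hv]
      rw [h4] at h3
      linarith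
    have h5 := congrFun (congrFun hJ i0) i0
    rw [Matrix.mul_apply] at h5
    have h6 : ∑ j, J i0 j * J j i0 = -(J i0 i0) * J i0 i0 := by
      have : ∀ j, J i0 j * J j i0 = if j = i0 then -(J i0 i0) * J i0 i0 else 0 := by
        intro j
        rw [h2 j]
        by_cases hj : j = i0
        · subst hj
          simp [hv]
        · simp [hv, hj]
      rw [Finset.sum_congr rfl (fun j _ => this j)]
      simp
    have h7 := h2 i0
    have h8 : v i0 = 1 := by simp [hv]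
    rw [h8] at h7
    have h9 : J i0 i0 = 0 := by linarith
    rw [h6, h9] at h5
    simp at h5
    linarith
  · by_contra hdet
    have h1 : IsUnit (vecMulVec (J *ᵥ v) v + vecMulVec v (v ᵥ* J)) := by
      rw [Matrix.isUnit_iff_isUnit_det]
      exact isUnit_iff_ne_zero.2 hdet
    have h2 := Matrix.rank_of_isUnit _ h1
    have h3 : vecMulVec (J *ᵥ v) v + vecMulVec v (v ᵥ* J) =
        (Matrix.of fun (i : ι) (s : Fin 2) => if s = 0 then (J *ᵥ v) i else v i) *
        (Matrix.of fun (s : Fin 2) (j : ι) => if s = 0 then v j else (v ᵥ* J) j) := by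
      ext i j
      simp [Matrix.mul_apply, Fin.sum_univ_two, Matrix.vecMulVec_apply]
    rw [h3] at h2
    have h4 := (Matrix.rank_mul_le_left
      (Matrix.of fun (i : ι) (s : Fin 2) => if s = 0 then (J *ᵥ v) i else v i)
      (Matrix.of fun (s : Fin 2) (j : ι) => if s = 0 then v j else (v ᵥ* J) j)).trans
      (Matrix.rank_le_card_width _)
    simp at h4
    omega

end

/-- M9. -/
theorem thm_Exi : St_Exi := by
  intro ι _ _ ψ 𝓓 J d p 𝔤 hD hG
  by_contra hcon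
  have h : ∀ Y : Matrix ι ι ℚ, (cc Y, (0 : ℂ)) ∈ 𝔤 →
      ∃ a b : ℚ, Y = a • (1 : Matrix ι ι ℚ) + b • J := by
    intro Y hY
    by_contra h
    exact hcon ⟨Y, hY, h⟩
  have hc : 3 ≤ Fintype.card ι := by
    rw [hD.card]
    have := hD.prime.two_le
    nlinarith
  obtain ⟨f, h1, h2, h3⟩ := exi_f J d hD.J2 hD.dpos hc
  exact hD.div f (exi_comm ψ 𝓓 J 𝔤 hG h f h1) h2 h3

end PSQ
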