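import Pool.Agent.PSQ.M.Off

/-!
# PSQ, M16: the frame
-/

set_option autoImplicit false

namespace PSQ

open Matrix Module Pool.Agent.Helper7

section

variable {ι : Type} [Fintype ι] [DecidableEq ι]

/-- a basis of the range of an idempotent and its dual vectors -/
theorem frm_f (M : Matrix ι ι ℂ) (p : ℕ) (h : M * M = M) (ht : M.trace = p) :
    ∃ f r : Fin p → ι → ℂ, (∀ μ, M *ᵥ f μ = f μ) ∧
      ∀ μ ν, f μ ⬝ᵥ r ν = if μ = ν then 1 else 0 := by
  have h1 : IsIdempotentElem (toLin' M) := by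
    show toLin' M * toLin' M = toLin' M
    rw [Module.End.mul_eq_comp, ← toLin'_mul, h]
  have h2 := (LinearMap.isProj_range_iff_isIdempotentElem _).mpr h1
  have h3 : finrank ℂ (LinearMap.range (toLin' M)) = p := by
    have h4 := h2.trace
    rw [Matrix.trace_toLin'_eq, ht] at h4
    exact_mod_cast h4.symm
  obtain ⟨b, hb⟩ : ∃ b : Basis (Fin p) ℂ (LinearMap.range (toLin' M)), b = b :=
    ⟨finBasisOfFinrankEq ℂ _ h3, rfl⟩
  have hf : ∀ μ, M *ᵥ (b μ : ι → ℂ) = b μ := by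
    intro μ
    have h5 := h2.map_id (b μ) (b μ).2
    rwa [toLin'_apply] at h5
  refine ⟨fun μ => (b μ : ι → ℂ),
    fun ν i => b.coord ν ((toLin' M).rangeRestrict (Pi.single i 1)), hf, fun μ ν => ?_⟩
  have h4 : (b μ : ι → ℂ) ⬝ᵥ (fun i => b.coord ν ((toLin' M).rangeRestrict (Pi.single i 1))) =
      b.coord ν ((toLin' M).rangeRestrict (b μ : ι → ℂ)) := by
    conv_rhs => rw [pi_eq_sum_univ' (b μ : ι → ℂ)]
    rw [map_sum, map_sum]
    simp only [map_smul, smul_eq_mul, dotProduct]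
  rw [h4]
  have h5 : (toLin' M).rangeRestrict (b μ : ι → ℂ) = b μ := by
    apply Subtype.ext
    show (toLin' M) (b μ : ι → ℂ) = b μ
    rw [toLin'_apply]
    exact hf μ
  rw [h5, Basis.coord_apply, Basis.repr_self, Finsupp.single_apply]

omit [DecidableEq ι] in
theorem frm_T (M A B : Matrix ι ι ℂ) (r : ι → ℂ) :
    (M * Aᵀ) *ᵥ (Bᵀ *ᵥ r) = M *ᵥ ((B * A)ᵀ *ᵥ r) := by
  rw [Matrix.transpose_mul, ← mulVec_mulVec, mulVec_mulVec _ Aᵀ Bᵀ]

/-- antisymmetry -/
theorem frm_alt {ψ : Matrix ι ι ℚ} (h : ψᵀ = -ψ) (u w : ι → ℂ) :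
    u ⬝ᵥ cc ψ *ᵥ w = -(w ⬝ᵥ cc ψ *ᵥ u) := by
  have h1 : (cc ψ)ᵀ = -cc ψ := by
    have h2 : (cc ψ)ᵀ = cc (ψᵀ) := by
      ext i j
      simp [cc]
    rw [h2, h, map_neg]
  rw [dotProduct_mulVec, ← mulVec_transpose, h1, neg_mulVec, neg_dotProduct, dotProduct_comm]

theorem frm_det {ψ : Matrix ι ι ℚ} (h : ψ.det ≠ 0) : IsUnit (cc ψ).det := by
  have h7 : (cc ψ).det = ((ψ.det : ℚ) : ℂ) := by
    have := RingHom.map_det (algebraMap ℚ ℂ) ψ
    simpa [cc] using this.symm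
  rw [h7]
  exact isUnit_iff_ne_zero.mpr (Rat.cast_ne_zero.mpr h)

/-- the pairing through the transposed matrix -/
theorem frm_pair {ψ : Matrix ι ι ℚ} (h : ψ.det ≠ 0) (A B : Matrix ι ι ℂ) (f r : ι → ℂ) :
    (A *ᵥ f) ⬝ᵥ cc ψ *ᵥ ((cc ψ)⁻¹ *ᵥ (Bᵀ *ᵥ r)) = ((B * A) *ᵥ f) ⬝ᵥ r := by
  rw [mulVec_mulVec, Matrix.mul_nonsing_inv _ (frm_det h), one_mulVec, dotProduct_mulVec,
    vecMul_transpose, mulVec_mulVec]

/-- the eigenspaces of `J` are isotropic -/
theorem frm_iso {ψ J : Matrix ι ι ℚ} (hJ : Jᵀ * ψ = -(ψ * J)) {z : ℂ} (hz : z ≠ 0)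
    (u w : ι → ℂ) (hu : cc J *ᵥ u = z • u) (hw : cc J *ᵥ w = z • w) :
    u ⬝ᵥ cc ψ *ᵥ w = 0 := by
  have h1 : (cc J)ᵀ * cc ψ = -(cc ψ * cc J) := by
    have h2 : (cc J)ᵀ = cc (Jᵀ) := by
      ext i j
      simp [cc]
    rw [h2, ← map_mul, hJ, map_neg, map_mul]
  have h3 : (cc J *ᵥ u) ⬝ᵥ cc ψ *ᵥ w = -(u ⬝ᵥ cc ψ *ᵥ (cc J *ᵥ w)) := by
    have h4 : (cc J *ᵥ u) ⬝ᵥ cc ψ *ᵥ w = u ⬝ᵥ (cc J)ᵀ *ᵥ (cc ψ *ᵥ w) := by
      rw [dotProduct_mulVec u, vecMul_transpose]
    rw [h4, mulVec_mulVec, h1, neg_mulVec, dotProduct_neg, mulVec_mulVec]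
  rw [hu, hw, smul_dotProduct, mulVec_smul, dotProduct_smul, smul_eq_mul] at h3
  have h5 : (2 * z) * (u ⬝ᵥ cc ψ *ᵥ w) = 0 := by linear_combination h3
  exact (mul_eq_zero.mp h5).resolve_left (mul_ne_zero two_ne_zero hz)

/-- a family with the symplectic relations is linearly independent -/
theorem frm_li {ψ : Matrix ι ι ℚ} (h : ψᵀ = -ψ) {p : ℕ} (e : Bool × Fin p × Fin p → ι → ℂ)
    (hp : ∀ i μ j ν, e (true, i, μ) ⬝ᵥ cc ψ *ᵥ e (false, j, ν) =
      if i = j ∧ μ = ν then 1 else 0)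
    (hi : ∀ s i μ j ν, e (s, i, μ) ⬝ᵥ cc ψ *ᵥ e (s, j, ν) = 0) : LinearIndependent ℂ e := by
  rw [Fintype.linearIndependent_iff]
  intro g hg
  have hex : ∀ w : ι → ℂ, ∑ t, g t * (e t ⬝ᵥ cc ψ *ᵥ w) = 0 := by
    intro w
    have h1 : (∑ t, g t • e t) ⬝ᵥ cc ψ *ᵥ w = 0 := by rw [hg, zero_dotProduct]
    rw [sum_dotProduct] at h1
    simpa only [smul_dotProduct, smul_eq_mul] using h1
  rintro ⟨s, j, ν⟩
  cases s with
  | true =>
    have h1 := hex (e (false, j, ν))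
    rw [Finset.sum_eq_single (true, j, ν), hp, if_pos ⟨rfl, rfl⟩, mul_one] at h1
    · exact h1
    · rintro ⟨s, i, μ⟩ _ hne
      cases s with
      | true =>
        rw [hp, if_neg, mul_zero]
        rintro ⟨rfl, rfl⟩
        exact hne rfl
      | false => rw [hi, mul_zero]
    · intro h2
      exact absurd (Finset.mem_univ _) h2
  | false =>
    have h1 := hex (e (true, j, ν))
    rw [Finset.sum_eq_single (false, j, ν), frm_alt h, hp, if_pos ⟨rfl, rfl⟩] at h1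
    · linear_combination -h1
    · rintro ⟨s, i, μ⟩ _ hne
      cases s with
      | true => rw [hi, mul_zero]
      | false =>
        rw [frm_alt h, hp, if_neg, neg_zero, mul_zero]
        rintro ⟨rfl, rfl⟩
        exact hne rfl
    · intro h2
      exact absurd (Finset.mem_univ _) h2

end

theorem thm_Frm (hHq : St_Hq) (hHom : St_Hom) (hOff : St_Off) : St_Frm := by
  intro ι _ _ ψ 𝓓 J d p _ 𝔤 z σ x E hD hG hS
  obtain ⟨hO1, hO2⟩ := hOff ι ψ 𝓓 J d p 𝔤 z σ x E hD hG hS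
  choose a ha ha0 ha1 ha2 using fun i => hO1 i 0
  have hhom := fun i => hHom ι ψ 𝓓 J d p 𝔤 z σ x E hD hS i 0 (a i) (ha i) (ha0 i) (ha1 i) (ha2 i)
  choose a' hb hb1 hb2 hb3 hb4 using fun i => (hhom i).1
  have hline := fun i => (hhom i).2
  have hz := off_z hD hS
  have hidem : ∀ i, E true i * E true i = E true i := fun i => by
    rw [hS.orth, if_pos ⟨rfl, rfl⟩]
  have hor : ∀ i j, i ≠ j → E true i * E true j = 0 := fun i j hij => by
    rw [hS.orth, if_neg (fun h => hij h.2)]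
  have haa : ∀ i j, a' j * a i = if i = j then E true 0 else 0 := by
    intro i j
    split_ifs with h
    · rw [h, hb4]
    · rw [← hb2 j, ← ha1 i, mul_assoc, ← mul_assoc (E true j), hor j i (Ne.symm h), zero_mul,
        mul_zero]
  obtain ⟨f, r, hf, hr⟩ := frm_f (E true 0) p (hidem 0) (hS.tr _ _)
  obtain ⟨ε, -⟩ : ∃ ε : Fin p ≃ ZMod p, ε = ε := ⟨(ZMod.finEquiv p).toEquiv, rfl⟩
  obtain ⟨e0, he0⟩ : ∃ e0 : Bool × Fin p × Fin p → ι → ℂ, e0 = fun t =>
      bif t.1 then a (ε t.2.1) *ᵥ f t.2.2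
      else (cc ψ)⁻¹ *ᵥ ((a' (ε t.2.1))ᵀ *ᵥ r t.2.2) := ⟨_, rfl⟩
  have het : ∀ i μ, e0 (true, i, μ) = a (ε i) *ᵥ f μ := fun i μ => by rw [he0]; rfl
  have hef : ∀ i μ, e0 (false, i, μ) = (cc ψ)⁻¹ *ᵥ ((a' (ε i))ᵀ *ᵥ r μ) :=
    fun i μ => by rw [he0]; rfl
  have hdet := frm_det hD.nd
  have hJt : ∀ i μ, cc J *ᵥ e0 (true, i, μ) = z • e0 (true, i, μ) := by
    intro i μ
    rw [het, mulVec_mulVec, ← ha1 (ε i), ← mul_assoc, hS.Jt, smul_mul_assoc, smul_mulVec]
  have hJa : ∀ i, a' i * cc J = z • a' i := by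
    intro i
    rw [← hb2 i, mul_assoc, hS.com true i J hD.JD, hS.Jt, mul_smul_comm]
  have hJpsi : cc J * (cc ψ)⁻¹ = -((cc ψ)⁻¹ * (cc J)ᵀ) := by
    have h1 : (cc J)ᵀ * cc ψ = -(cc ψ * cc J) := by
      have h2 : (cc J)ᵀ = cc (Jᵀ) := by
        ext i j
        simp [cc]
      rw [h2, ← map_mul, hD.Jpsi, map_neg, map_mul]
    have h3 : (cc ψ)⁻¹ * ((cc J)ᵀ * cc ψ) * (cc ψ)⁻¹ =
        (cc ψ)⁻¹ * (-(cc ψ * cc J)) * (cc ψ)⁻¹ := by rw [h1]
    rw [mul_assoc, mul_assoc, Matrix.mul_nonsing_inv _ hdet, mul_one, mul_neg, neg_mul,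
      ← mul_assoc (cc ψ)⁻¹ (cc ψ), Matrix.nonsing_inv_mul _ hdet, one_mul] at h3
    rw [h3, neg_neg]
  have hJf : ∀ i μ, cc J *ᵥ e0 (false, i, μ) = (-z) • e0 (false, i, μ) := by
    intro i μ
    rw [hef, mulVec_mulVec, hJpsi, neg_mulVec, frm_T, hJa, Matrix.transpose_smul, smul_mulVec,
      mulVec_smul, neg_smul]
  have hpair : ∀ i μ j ν, e0 (true, i, μ) ⬝ᵥ cc ψ *ᵥ e0 (false, j, ν) =
      if i = j ∧ μ = ν then 1 else 0 := by
    intro i μ j ν
    rw [het, hef, frm_pair hD.nd, haa]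
    by_cases h : i = j
    · rw [if_pos (congrArg ε h), hf, hr]
      simp [h]
    · rw [if_neg (fun h' => h (ε.injective h')), zero_mulVec, zero_dotProduct, if_neg]
      exact fun h' => h h'.1
  have hiso : ∀ s i μ j ν, e0 (s, i, μ) ⬝ᵥ cc ψ *ᵥ e0 (s, j, ν) = 0 := by
    intro s i μ j ν
    cases s with
    | true => exact frm_iso hD.Jpsi hz _ _ (hJt i μ) (hJt j ν)
    | false => exact frm_iso hD.Jpsi (neg_ne_zero.mpr hz) _ _ (hJf i μ) (hJf j ν)
  have hli := frm_li hG.alt e0 hpair hiso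
  have hp0 : 0 < p := hD.prime.pos
  have : Nonempty (Bool × Fin p × Fin p) := ⟨(true, ⟨0, hp0⟩, ⟨0, hp0⟩)⟩
  have hcard : Fintype.card (Bool × Fin p × Fin p) = finrank ℂ (ι → ℂ) := by
    rw [Module.finrank_pi, hD.card, Fintype.card_prod, Fintype.card_prod, Fintype.card_bool,
      Fintype.card_fin, sq]
  obtain ⟨e, he⟩ : ∃ e : Basis (Bool × Fin p × Fin p) ℂ (ι → ℂ), ⇑e = e0 :=
    ⟨basisOfLinearIndependentOfCardEqFinrank hli hcard,
      coe_basisOfLinearIndependentOfCardEqFinrank hli hcard⟩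
  refine ⟨e, ⟨hS.z2, ?_, ?_, ?_, ?_, ?_, ?_⟩⟩
  · rw [he]
    exact hJt
  · rw [he]
    exact hJf
  · rw [he]
    exact hpair
  · rw [he]
    exact hiso
  · rw [he]
    intro X hX
    have hXC := hG.comm X hX
    have hyx : ∀ i j : Fin p, ∃ c : ℂ, E true (ε i) * X.1 * a (ε j) = c • a (ε i) := by
      intro i j
      refine hline (ε i) _ (off_mul (off_mul (hS.com _ _) hXC) (ha _)) ?_ ?_
      · rw [← mul_assoc, ← mul_assoc, hidem]
      · rw [mul_assoc, ha2]
    choose y hy using hyx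
    have h1 : ∀ j, X.1 * a (ε j) = ∑ i, y i j • a (ε i) := by
      intro j
      calc X.1 * a (ε j) = X.1 * E true (ε j) * a (ε j) := by rw [mul_assoc, ha1]
        _ = ∑ i, E true i * X.1 * E true (ε j) * a (ε j) := by
          rw [off_left hD hS hXC, Finset.sum_mul]
        _ = ∑ i, E true (ε i) * X.1 * E true (ε j) * a (ε j) :=
          (Equiv.sum_comp ε fun i => E true i * X.1 * E true (ε j) * a (ε j)).symm
        _ = ∑ i, y i j • a (ε i) := by
          refine Finset.sum_congr rfl fun i _ => ?_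
          rw [mul_assoc _ (E true (ε j)), ha1, hy]
    have h2 : ∀ i, a' (ε i) * X.1 = ∑ j, y i j • a' (ε j) := by
      intro i
      calc a' (ε i) * X.1 = a' (ε i) * (E true (ε i) * X.1) := by rw [← mul_assoc, hb2]
        _ = ∑ j, a' (ε i) * (E true (ε i) * X.1 * E true j) := by
          rw [← Finset.mul_sum, ← off_right hD hS hXC]
        _ = ∑ j, a' (ε i) * (E true (ε i) * X.1 * E true (ε j)) :=
          (Equiv.sum_comp ε fun j => a' (ε i) * (E true (ε i) * X.1 * E true j)).symm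
        _ = ∑ j, y i j • a' (ε j) := by
          refine Finset.sum_congr rfl fun j _ => ?_
          rw [← hb3 (ε j), ← mul_assoc (E true (ε i) * X.1), hy, smul_mul_assoc, mul_smul_comm,
            ← mul_assoc, hb4, hb1]
    refine ⟨Matrix.of y, fun j μ => ?_, fun i μ => ?_⟩
    · rw [het, mulVec_mulVec, h1, sum_mulVec]
      refine Finset.sum_congr rfl fun i _ => ?_
      rw [het, smul_mulVec, Matrix.of_apply]
    · have h3 : X.1 * (cc ψ)⁻¹ = X.2 • (cc ψ)⁻¹ - (cc ψ)⁻¹ * X.1ᵀ := by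
        have h4 : cc ψ * X.1 = X.2 • cc ψ - X.1ᵀ * cc ψ := by
          rw [← hG.pol X hX, add_sub_cancel_left]
        have h5 : (cc ψ)⁻¹ * (cc ψ * X.1) * (cc ψ)⁻¹ =
            (cc ψ)⁻¹ * (X.2 • cc ψ - X.1ᵀ * cc ψ) * (cc ψ)⁻¹ := by rw [h4]
        rw [← mul_assoc, Matrix.nonsing_inv_mul _ hdet, one_mul, mul_sub, sub_mul,
          mul_smul_comm, Matrix.nonsing_inv_mul _ hdet, smul_mul_assoc, one_mul, mul_assoc,
          mul_assoc, Matrix.mul_nonsing_inv _ hdet, mul_one] at h5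
        exact h5
      rw [hef, mulVec_mulVec, h3, sub_mulVec, smul_mulVec, frm_T, h2, Matrix.transpose_sum,
        sum_mulVec, mulVec_sum]
      congr 1
      refine Finset.sum_congr rfl fun j _ => ?_
      rw [hef, Matrix.transpose_smul, smul_mulVec, mulVec_smul, Matrix.of_apply]
  · rw [he]
    intro y hy
    -- the diagonal part
    have hdia := hHq ι ψ 𝓓 J d p 𝔤 z σ x E hG hS (fun i => y (ε.symm i) (ε.symm i)) (by
      rw [← hy, Matrix.trace]
      exact Equiv.sum_comp ε.symm fun i => y i i)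
    have hoff : ∀ i j : Fin p, ∃ X ∈ 𝔤, X.2 = 0 ∧ (i ≠ j → ∀ k : Fin p,
        X.1 * a (ε k) = if k = j then y i j • a (ε i) else 0) := by
      intro i j
      by_cases hij : i = j
      · exact ⟨0, 𝔤.zero_mem, rfl, fun h => absurd hij h⟩
      · have h1 : ε i ≠ ε j := fun h => hij (ε.injective h)
        obtain ⟨X, hX, hX0, hX1⟩ := hO2 (ε i) (ε j) (y i j • (a (ε i) * a' (ε j))) h1 (by
            intro g hg
            rw [smul_mul_assoc, mul_smul_comm, off_mul (ha _) (hb _) g hg])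
          (by rw [mul_smul_comm, ← mul_assoc, ha1])
          (by rw [smul_mul_assoc, mul_assoc, hb2])
        refine ⟨X, hX, hX0, fun _ k => ?_⟩
        rw [← ha1 (ε k), ← mul_assoc, hX1]
        by_cases hk : k = j
        · rw [if_pos (congrArg ε hk), if_pos hk, smul_mul_assoc, mul_assoc, hk, hb4, ha2]
        · rw [if_neg (fun h => hk (ε.injective h)), if_neg hk, zero_mul]
    choose X hX hX0 hX1 using hoff
    refine ⟨(∑ i, (fun i => y (ε.symm i) (ε.symm i)) i • (E true i - E false i), (0 : ℂ)) +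
      ∑ i, ∑ j, if i = j then 0 else X i j,
      𝔤.add_mem hdia (𝔤.sum_mem fun i _ => 𝔤.sum_mem fun j _ => ?_), ?_, fun j μ => ?_⟩
    · split_ifs
      · exact 𝔤.zero_mem
      · exact hX i j
    · rw [Prod.snd_add, Prod.snd_sum]
      have h1 : ∀ i ∈ Finset.univ, (∑ j, if i = j then (0 : Matrix ι ι ℂ × ℂ) else X i j).2 = 0 := by
        intro i _
        rw [Prod.snd_sum]
        refine Finset.sum_eq_zero fun j _ => ?_
        split_ifs
        · rfl
        · exact hX0 i j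
      rw [Finset.sum_eq_zero h1, add_zero]
    · have h1 : (∑ i, ∑ k, if i = k then (0 : Matrix ι ι ℂ × ℂ) else X i k).1 * a (ε j) =
          ∑ i, if i = j then 0 else y i j • a (ε i) := by
        rw [Prod.fst_sum, Finset.sum_mul]
        refine Finset.sum_congr rfl fun i _ => ?_
        rw [Prod.fst_sum, Finset.sum_mul, Finset.sum_eq_single j]
        · split_ifs with h
          · exact zero_mul _
          · rw [hX1 i j h, if_pos rfl]
        · intro k _ hk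
          split_ifs with h
          · exact zero_mul _
          · rw [hX1 i k h, if_neg (Ne.symm hk)]
        · intro h
          exact absurd (Finset.mem_univ _) h
      have h2 : (∑ i, (fun i => y (ε.symm i) (ε.symm i)) i • (E true i - E false i)) *
          a (ε j) = y j j • a (ε j) := by
        rw [Finset.sum_mul, Finset.sum_eq_single (ε j)]
        · rw [smul_mul_assoc, ← ha1 (ε j), ← mul_assoc, sub_mul, hS.orth, hS.orth]
          simp
        · intro k _ hk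
          rw [smul_mul_assoc, ← ha1 (ε j), ← mul_assoc, sub_mul, hS.orth, hS.orth]
          simp [hk]
        · intro h
          exact absurd (Finset.mem_univ _) h
      rw [het, mulVec_mulVec, Prod.fst_add, add_mul, h1, h2]
      have h3 : y j j • a (ε j) + ∑ i, (if i = j then 0 else y i j • a (ε i)) =
          ∑ i, y i j • a (ε i) := by
        rw [← Finset.add_sum_erase _ _ (Finset.mem_univ j),
          ← Finset.add_sum_erase (Finset.univ) (fun i => y i j • a (ε i)) (Finset.mem_univ j),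
          if_pos rfl, zero_add]
        congr 1
        refine Finset.sum_congr rfl fun i hi => ?_
        rw [if_neg (Finset.ne_of_mem_erase hi)]
      rw [h3, sum_mulVec]
      refine Finset.sum_congr rfl fun i _ => ?_
      rw [het, smul_mulVec]

end PSQ
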