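import Pool.Agent.PSQ.St

/-!
# PSQ, module Gl: from the traceless part to everything
-/

set_option autoImplicit false

namespace PSQ

open Matrix Module

theorem gl_trace {ι : Type} [Fintype ι] [DecidableEq ι] {ψ J : Matrix ι ι ℚ} {d : ℚ} {p : ℕ}
    {𝔤 : Submodule ℂ (Matrix ι ι ℂ × ℂ)} {z : ℂ} {e : Basis (Bool × Fin p × Fin p) ℂ (ι → ℂ)}
    (hF : Fr ψ J d p 𝔤 z e) {X : Matrix ι ι ℂ × ℂ} {y : Matrix (Fin p) (Fin p) ℂ}
    (h1 : ∀ j μ, X.1 *ᵥ e (true, j, μ) = ∑ i, y i j • e (true, i, μ))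
    (h2 : ∀ i μ, X.1 *ᵥ e (false, i, μ) = X.2 • e (false, i, μ) - ∑ j, y i j • e (false, j, μ)) :
    (X.1 * cc J).trace = z * p * (2 * y.trace - p * X.2) := by
  have e1 : (X.1 * cc J).trace =
      ∑ k : Bool × Fin p × Fin p, e.repr ((X.1 * cc J) *ᵥ e k) k := by
    rw [← Matrix.trace_toLin'_eq, LinearMap.trace_eq_matrix_trace ℂ e, Matrix.trace]
    apply Finset.sum_congr rfl
    intro k _
    rw [Matrix.diag_apply, LinearMap.toMatrix_apply, Matrix.toLin'_apply]
  have et : ∀ j μ, e.repr ((X.1 * cc J) *ᵥ e (true, j, μ)) (true, j, μ) = z * y j j := by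
    intro j μ
    rw [← Matrix.mulVec_mulVec, hF.Jt, Matrix.mulVec_smul, h1, map_smul, map_sum]
    simp only [map_smul, Finsupp.smul_apply, Finsupp.coe_finsetSum, Finset.sum_apply,
      Basis.repr_self, smul_eq_mul]
    rw [Finset.sum_eq_single j]
    · simp
    · intro b _ hb
      rw [Finsupp.single_apply, if_neg (fun h => hb (by simpa using h)), mul_zero]
    · intro h; exact absurd (Finset.mem_univ _) h
  have ef : ∀ i μ, e.repr ((X.1 * cc J) *ᵥ e (false, i, μ)) (false, i, μ) =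
      (-z) * (X.2 - y i i) := by
    intro i μ
    rw [← Matrix.mulVec_mulVec, hF.Jf, Matrix.mulVec_smul, h2, map_smul, map_sub, map_smul,
      map_sum]
    simp only [map_smul, Finsupp.smul_apply, Finsupp.sub_apply, Finsupp.coe_finsetSum,
      Finset.sum_apply, Basis.repr_self, smul_eq_mul]
    rw [Finset.sum_eq_single i]
    · simp
    · intro b _ hb
      rw [Finsupp.single_apply, if_neg (fun h => hb (by simpa using h)), mul_zero]
    · intro h; exact absurd (Finset.mem_univ _) h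
  rw [e1, Fintype.sum_prod_type, Fintype.sum_bool, Fintype.sum_prod_type, Fintype.sum_prod_type]
  simp only [et, ef]
  simp only [Finset.sum_const, Finset.card_univ, Fintype.card_fin, nsmul_eq_mul]
  rw [← Finset.mul_sum, ← Finset.mul_sum, ← Finset.mul_sum, ← Finset.mul_sum,
    Finset.sum_sub_distrib]
  simp only [Finset.sum_const, Finset.card_univ, Fintype.card_fin, nsmul_eq_mul]
  unfold Matrix.trace
  simp only [Matrix.diag_apply]
  ring

theorem thm_Gl : St_Gl := by
  intro ι _ _ ψ 𝓓 J d p _ 𝔤 z e hG hF hX y1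
  obtain ⟨X, hX, htr⟩ := hX
  obtain ⟨y, hy1, hy2⟩ := hF.act X hX
  have ht := gl_trace hF hy1 hy2
  have hne : 2 * y.trace - p * X.2 ≠ 0 := by
    intro h
    rw [h, mul_zero] at ht
    exact htr ht
  obtain ⟨y0, hy0⟩ : ∃ y0, y0 = y - (X.2 / 2) • (1 : Matrix (Fin p) (Fin p) ℂ) := ⟨_, rfl⟩
  have hy0t : y0.trace = (2 * y.trace - p * X.2) / 2 := by
    rw [hy0, Matrix.trace_sub, Matrix.trace_smul, Matrix.trace_one, Fintype.card_fin, smul_eq_mul]
    ring
  have hy0n : y0.trace ≠ 0 := by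
    rw [hy0t]
    exact div_ne_zero hne two_ne_zero
  obtain ⟨X', hX', hX'2, hX'1⟩ := hF.sl (y1 - (y1.trace / y0.trace) • y0) (by
    rw [Matrix.trace_sub, Matrix.trace_smul, smul_eq_mul, div_mul_cancel₀ _ hy0n, sub_self])
  refine ⟨(y1.trace / y0.trace) • (X - (X.2 / 2) • ((1 : Matrix ι ι ℂ), (2 : ℂ))) + X', ?_, ?_, ?_⟩
  · exact 𝔤.add_mem (𝔤.smul_mem _ (𝔤.sub_mem hX (𝔤.smul_mem _ hG.one))) hX'
  · show (y1.trace / y0.trace) * (X.2 - (X.2 / 2) * 2) + X'.2 = 0
    rw [hX'2]; ring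
  · intro j μ
    show ((y1.trace / y0.trace) • (X.1 - (X.2 / 2) • (1 : Matrix ι ι ℂ)) + X'.1) *ᵥ
      e (true, j, μ) = _
    rw [Matrix.add_mulVec, Matrix.smul_mulVec, Matrix.sub_mulVec, Matrix.smul_mulVec,
      Matrix.one_mulVec, hX'1, hy1]
    have h3 : ∑ i, y i j • e (true, i, μ) - (X.2 / 2) • e (true, j, μ) =
        ∑ i, y0 i j • e (true, i, μ) := by
      rw [hy0]
      simp only [Matrix.sub_apply, Matrix.smul_apply, sub_smul, Finset.sum_sub_distrib]
      congr 1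
      rw [Finset.sum_eq_single j]
      · rw [Matrix.one_apply_eq, smul_eq_mul, mul_one]
      · intro b _ hb
        rw [Matrix.one_apply_ne hb, smul_zero, zero_smul]
      · intro h; exact absurd (Finset.mem_univ _) h
    rw [h3, Finset.smul_sum, ← Finset.sum_add_distrib]
    apply Finset.sum_congr rfl
    intro i _
    rw [smul_smul, ← add_smul]
    congr 1
    simp only [Matrix.sub_apply, Matrix.smul_apply, smul_eq_mul]
    ring

end PSQ
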