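import Pool.Agent.PSQ.St

/-!
# PSQ, module Hom: linear maps between the eigenspaces
-/

set_option autoImplicit false

namespace PSQ

open Matrix Module

theorem hom_isC_mul {ι : Type} [Fintype ι] [DecidableEq ι] {𝓓 : Set (Matrix ι ι ℚ)}
    {X Y : Matrix ι ι ℂ} (hX : IsC 𝓓 X) (hY : IsC 𝓓 Y) : IsC 𝓓 (X * Y) := by
  intro f hf
  rw [Matrix.mul_assoc, hY f hf, ← Matrix.mul_assoc, hX f hf, Matrix.mul_assoc]

theorem hom_isC_smul {ι : Type} [Fintype ι] [DecidableEq ι] {𝓓 : Set (Matrix ι ι ℚ)}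
    {X : Matrix ι ι ℂ} (c : ℂ) (hX : IsC 𝓓 X) : IsC 𝓓 (c • X) := by
  intro f hf
  rw [Matrix.smul_mul, Matrix.mul_smul, hX f hf]

/-- an element of the corner which commutes with `𝓓` is a scalar -/
theorem hom_scalar {ι : Type} [Fintype ι] [DecidableEq ι] {ψ : Matrix ι ι ℚ}
    {𝓓 : Set (Matrix ι ι ℚ)} {J : Matrix ι ι ℚ} {d : ℚ} {p : ℕ} [Fact p.Prime]
    {𝔤 : Submodule ℂ (Matrix ι ι ℂ × ℂ)} {z : ℂ} {σ : ℂ ≃+* ℂ} {x : ZMod p → ℂ}
    {E : Bool → ZMod p → Matrix ι ι ℂ} (hS : Spl ψ 𝓓 J d p 𝔤 z σ x E) (i : ZMod p)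
    {Z : Matrix ι ι ℂ} (hZ : IsC 𝓓 Z) (h1 : E true i * Z = Z) (h2 : Z * E true i = Z) :
    ∃ c : ℂ, Z = c • E true i := by
  have h : ∀ s k, Z * E s k = E s k * Z := by
    intro s k
    have e1 : Z * E s k = Z * (E true i * E s k) := by rw [← Matrix.mul_assoc, h2]
    have e2 : E s k * Z = (E s k * E true i) * Z := by rw [Matrix.mul_assoc, h1]
    by_cases h : s = true ∧ k = i
    · obtain ⟨rfl, rfl⟩ := h
      rw [h1, h2]
    · rw [e1, e2, hS.orth, hS.orth, if_neg (fun h' => h ⟨h'.1.symm, h'.2.symm⟩), if_neg h,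
        Matrix.mul_zero, Matrix.zero_mul]
  obtain ⟨c, hc⟩ := hS.cent Z hZ h true i
  exact ⟨c, by rw [← hc, h2]⟩

theorem thm_Hom (hTrc : St_Trc) : St_Hom := by
  intro ι _ _ ψ 𝓓 J d p _ 𝔤 z σ x E hD hS i j a haC ha0 hia haj
  obtain ⟨Z', hZ', htr⟩ := (hTrc ι ψ 𝓓 J d p hD).2 a haC ha0
  have hii : E true i * E true i = E true i := by rw [hS.orth, if_pos ⟨rfl, rfl⟩]
  have hjj : E true j * E true j = E true j := by rw [hS.orth, if_pos ⟨rfl, rfl⟩]
  obtain ⟨b, hb⟩ : ∃ b, b = E true j * Z' * E true i := ⟨_, rfl⟩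
  have hbC : IsC 𝓓 b := by
    rw [hb]; exact hom_isC_mul (hom_isC_mul (hS.com _ _) hZ') (hS.com _ _)
  have hjb : E true j * b = b := by
    rw [hb, Matrix.mul_assoc, ← Matrix.mul_assoc (E true j) (E true j), hjj]
  have hbi : b * E true i = b := by
    rw [hb, Matrix.mul_assoc, hii]
  have htab : (a * b).trace = (a * Z').trace := by
    have e1 : a * b = (a * Z') * E true i := by
      rw [hb, Matrix.mul_assoc (E true j), ← Matrix.mul_assoc a, haj, Matrix.mul_assoc]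
    rw [e1, Matrix.trace_mul_comm, ← Matrix.mul_assoc, hia]
  have hp : (p : ℂ) ≠ 0 := by
    have := (Fact.out : p.Prime).ne_zero
    exact_mod_cast this
  obtain ⟨c, hc⟩ := hom_scalar hS i (hom_isC_mul haC hbC) (by rw [← Matrix.mul_assoc, hia])
    (by rw [Matrix.mul_assoc, hbi])
  obtain ⟨c', hc'⟩ := hom_scalar hS j (hom_isC_mul hbC haC) (by rw [← Matrix.mul_assoc, hjb])
    (by rw [Matrix.mul_assoc, haj])
  have ht1 : (a * b).trace = c * p := by rw [hc, Matrix.trace_smul, hS.tr, smul_eq_mul]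
  have ht2 : (b * a).trace = c' * p := by rw [hc', Matrix.trace_smul, hS.tr, smul_eq_mul]
  have hcc : c' = c := by
    have : c' * p = c * p := by rw [← ht1, ← ht2, Matrix.trace_mul_comm]
    exact mul_right_cancel₀ hp this
  have hc0 : c ≠ 0 := by
    rintro rfl
    rw [zero_mul, htab] at ht1
    exact htr ht1
  rw [hcc] at hc'
  have hab : a * (c⁻¹ • b) = E true i := by
    rw [Matrix.mul_smul, hc, smul_smul, inv_mul_cancel₀ hc0, one_smul]
  have hba : (c⁻¹ • b) * a = E true j := by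
    rw [Matrix.smul_mul, hc', smul_smul, inv_mul_cancel₀ hc0, one_smul]
  refine ⟨⟨c⁻¹ • b, hom_isC_smul _ hbC, by rw [Matrix.mul_smul, hjb], by rw [Matrix.smul_mul, hbi],
    hab, hba⟩, ?_⟩
  intro b' hb'C hib' hb'j
  obtain ⟨c2, hc2⟩ := hom_scalar hS i (hom_isC_mul hb'C (hom_isC_smul c⁻¹ hbC))
    (by rw [← Matrix.mul_assoc, hib']) (by rw [Matrix.mul_assoc, Matrix.smul_mul, hbi])
  refine ⟨c2, ?_⟩
  calc b' = b' * E true j := hb'j.symm
    _ = b' * (c⁻¹ • b) * a := by rw [Matrix.mul_assoc, hba]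
    _ = c2 • a := by rw [hc2, Matrix.smul_mul, hia]

end PSQ
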