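import Pool.Agent.PSQ.St

/-!
# PSQ, module HQ: the traceless diagonal elements
-/

set_option autoImplicit false

namespace PSQ

open Matrix Module Pool.Agent.Helper7

theorem hq_ext {V W : Type*} [AddCommGroup V] [Module ℚ V] [AddCommGroup W] [Module ℚ W]
    (L : V →ₗ[ℚ] ℂ) (f : V →ₗ[ℚ] W) (h : LinearMap.ker L ≤ LinearMap.ker f) :
    ∃ φ : ℂ →ₗ[ℚ] W, ∀ v, φ (L v) = f v := by
  obtain ⟨φ, hφ⟩ := LinearMap.exists_extend
    (((LinearMap.ker L).liftQ f h) ∘ₗ (L.quotKerEquivRange.symm : LinearMap.range L →ₗ[ℚ] _))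
  refine ⟨φ, fun v => ?_⟩
  have h1 := LinearMap.congr_fun hφ ⟨L v, LinearMap.mem_range_self L v⟩
  rw [LinearMap.comp_apply, Submodule.subtype_apply] at h1
  rw [h1, LinearMap.comp_apply]
  have h2 : (L.quotKerEquivRange.symm : LinearMap.range L →ₗ[ℚ] _)
      ⟨L v, LinearMap.mem_range_self L v⟩ = (LinearMap.ker L).mkQ v := by
    show L.quotKerEquivRange.symm ⟨L v, LinearMap.mem_range_self L v⟩ = _
    rw [LinearEquiv.symm_apply_eq]
    rfl
  rw [h2]
  simp

theorem hq_rat (hShf : St_Shf) {ι : Type} [Fintype ι] [DecidableEq ι] {ψ : Matrix ι ι ℚ}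
    {𝓓 : Set (Matrix ι ι ℚ)} {J : Matrix ι ι ℚ} {d : ℚ} {p : ℕ} [Fact p.Prime]
    {𝔤 : Submodule ℂ (Matrix ι ι ℂ × ℂ)} {z : ℂ} {σ : ℂ ≃+* ℂ} {x : ZMod p → ℂ}
    {E : Bool → ZMod p → Matrix ι ι ℂ} (hG : GA ψ 𝓓 𝔤) (hS : Spl ψ 𝓓 J d p 𝔤 z σ x E)
    (q : ZMod p → ℚ) (hq : ∑ i, q i = 0) :
    (∑ i, (q i : ℂ) • (E true i - E false i), (0 : ℂ)) ∈ 𝔤 := by
  classical
  set L := Fintype.linearCombination ℚ x with hL
  have hLa : ∀ a, L a = ∑ i, a i • x i := fun a => by
    rw [hL, Fintype.linearCombination_apply]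
  have hshift : ∀ a ∈ LinearMap.ker L, (fun i => a (i - 1)) ∈ LinearMap.ker L := by
    intro a ha
    rw [LinearMap.mem_ker, hLa] at ha ⊢
    have h1 : ∑ i, a (i - 1) • x i = ∑ i, a i • x (i + 1) := by
      rw [← Equiv.sum_comp (Equiv.addRight (1 : ZMod p))]
      refine Finset.sum_congr rfl fun i _ => ?_
      rw [Equiv.coe_addRight, add_sub_cancel_right]
    rw [h1]
    have h2 : ∑ i, a i • x (i + 1) = σ (∑ i, a i • x i) := by
      rw [map_sum]
      refine Finset.sum_congr rfl fun i _ => ?_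
      rw [← hS.sx, Algebra.smul_def, Algebra.smul_def, map_mul]
      congr 1
      simp
    rw [h2, ha, map_zero]
  have hconst : ∀ a ∈ LinearMap.ker L, ∀ i j, a i = a j := by
    intro a ha i j
    by_contra hij
    have h1 := hShf p (LinearMap.ker L) hshift a ha ⟨i, j, hij⟩
    rw [LinearMap.mem_ker, map_sub, hL, Fintype.linearCombination_apply_single,
      Fintype.linearCombination_apply_single, one_smul, one_smul, sub_eq_zero] at h1
    exact zero_ne_one (hS.inj h1)
  obtain ⟨φ, hφ⟩ := hq_ext L (Fintype.linearCombination ℚ (fun i => (q i : ℂ))) (by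
    intro a ha
    have h1 := hconst a ha
    rw [LinearMap.mem_ker, Fintype.linearCombination_apply]
    have h2 : ∀ i, a i • (q i : ℂ) = a 0 • (q i : ℂ) := fun i => by rw [h1 i 0]
    rw [Finset.sum_congr rfl fun i _ => h2 i, ← Finset.smul_sum]
    have h3 : ∑ i, (q i : ℂ) = 0 := by
      exact_mod_cast hq
    rw [h3, smul_zero])
  have hφx : ∀ i, φ (x i) = q i := by
    intro i
    have h1 := hφ (Pi.single i 1)
    rw [hL, Fintype.linearCombination_apply_single, Fintype.linearCombination_apply_single,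
      one_smul, one_smul] at h1
    exact h1
  have h1 := hG.rep (Bool × ZMod p) (fun a => E a.1 a.2)
    (fun a => if a.1 then x a.2 else - x a.2) φ ?_ ?_ ?_
  · have h2 : ∑ a : Bool × ZMod p, φ (if a.1 then x a.2 else - x a.2) • E a.1 a.2 =
        ∑ i, (q i : ℂ) • (E true i - E false i) := by
      rw [Fintype.sum_prod_type, Fintype.sum_bool, ← Finset.sum_add_distrib]
      refine Finset.sum_congr rfl fun i _ => ?_
      simp only [if_true, Bool.false_eq_true, if_false, map_neg, hφx]
      rw [smul_sub, neg_smul, ← sub_eq_add_neg]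
    rw [h2] at h1
    exact h1
  · intro a b
    rw [hS.orth]
    by_cases hab : a = b
    · subst hab
      simp
    · rw [if_neg hab, if_neg]
      intro h
      exact hab (Prod.ext h.1 h.2)
  · rw [Fintype.sum_prod_type, ← hS.sum]
  · have h2 : ∑ a : Bool × ZMod p, (if a.1 then x a.2 else - x a.2) • E a.1 a.2 =
        ∑ i, x i • (E true i - E false i) := by
      rw [Fintype.sum_prod_type, Fintype.sum_bool, ← Finset.sum_add_distrib]
      refine Finset.sum_congr rfl fun i _ => ?_
      simp only [if_true, Bool.false_eq_true, if_false]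
      rw [smul_sub, neg_smul, ← sub_eq_add_neg]
    rw [h2]
    exact hS.Yg

theorem thm_Hq (hShf : St_Shf) : St_Hq := by
  intro ι _ _ ψ 𝓓 J d p hp 𝔤 z σ x E hG hS q hq
  classical
  have h1 : ∀ i : ZMod p, ((E true i - E false i) - (E true 0 - E false 0), (0 : ℂ)) ∈ 𝔤 := by
    intro i
    have h2 := hq_rat hShf hG hS (Pi.single i 1 - Pi.single 0 1) (by
      simp only [Pi.sub_apply, Finset.sum_sub_distrib, Finset.sum_pi_single', Finset.mem_univ,
        if_true, sub_self])
    have h3 : ∑ k, (((Pi.single i 1 - Pi.single 0 1 : ZMod p → ℚ) k : ℚ) : ℂ) •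
        (E true k - E false k) = (E true i - E false i) - (E true 0 - E false 0) := by
      have h4 : ∀ k, (((Pi.single i 1 - Pi.single 0 1 : ZMod p → ℚ) k : ℚ) : ℂ) =
          (if k = i then 1 else 0) - (if k = 0 then 1 else 0) := by
        intro k
        simp only [Pi.sub_apply, Rat.cast_sub, Pi.single_apply]
        split_ifs <;> simp
      simp only [h4, sub_smul, ite_smul, one_smul, zero_smul, Finset.sum_sub_distrib,
        Finset.sum_ite_eq', Finset.mem_univ, if_true]
    rw [h3] at h2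
    exact h2
  have h2 : (∑ i, q i • (E true i - E false i), (0 : ℂ)) =
      ∑ i, q i • (((E true i - E false i) - (E true 0 - E false 0), (0 : ℂ)) :
        Matrix ι ι ℂ × ℂ) := by
    apply Prod.ext
    · rw [Prod.fst_sum]
      simp only [Prod.smul_fst, smul_sub, Finset.sum_sub_distrib, ← Finset.sum_smul, hq, zero_smul,
        sub_zero]
    · rw [Prod.snd_sum]
      simp
  rw [h2]
  exact Submodule.sum_mem _ fun i _ => Submodule.smul_mem _ _ (h1 i)

end PSQ
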