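import Pool.Agent.PSQ.St

/-!
# PSQ, module Inv: first properties of the Lie algebra of symmetries
-/

set_option autoImplicit false

namespace PSQ

open Matrix Module Pool.Agent.Helper7

section inv

variable {κ : Type} [Fintype κ] [DecidableEq κ] {ϖ : ℂ} (P : PData κ ϖ) [DecidableEq P.ι]

private theorem inv_tl_bB (M : Matrix P.ι P.ι ℂ) (j : P.ι) :
    tl P M (P.bB j) = ∑ i, M i j • P.bB i := by
  unfold tl
  rw [Matrix.toLin_self]

private theorem inv_tl_inj {M N : Matrix P.ι P.ι ℂ} (h : tl P M = tl P N) : M = N :=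
  (Matrix.toLin P.bB P.bB).injective h

private theorem inv_tl_mul (M N : Matrix P.ι P.ι ℂ) : tl P (M * N) = tl P M * tl P N := by
  unfold tl
  exact Matrix.toLin_mul P.bB P.bB P.bB M N

private theorem inv_tl_one : tl P 1 = 1 := Matrix.toLin_one P.bB

private theorem inv_tl_sub (M N : Matrix P.ι P.ι ℂ) : tl P (M - N) = tl P M - tl P N :=
  map_sub (Matrix.toLin P.bB P.bB) M N

private theorem inv_cc_apply {ι : Type} [Fintype ι] [DecidableEq ι] (M : Matrix ι ι ℚ)
    (i j : ι) : cc M i j = (M i j : ℂ) := rfl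

private theorem inv_cc_inj {ι : Type} [Fintype ι] [DecidableEq ι] {M N : Matrix ι ι ℚ}
    (h : cc M = cc N) : M = N := by
  ext i j
  have := congrFun (congrFun h i) j
  rw [inv_cc_apply, inv_cc_apply] at this
  exact_mod_cast this

/-- rational endomorphisms are rational matrices -/
private theorem inv_exists_mat {f : Module.End ℂ (κ → ℂ)} (hf : ∀ v ∈ P.Q, f v ∈ P.Q) :
    ∃ M : Matrix P.ι P.ι ℚ, tl P (cc M) = f := by
  choose M hM using fun i j => P.repr_rat _ (hf _ (P.basis_mem j)) i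
  refine ⟨Matrix.of M, ?_⟩
  apply P.bB.ext
  intro j
  rw [inv_tl_bB, ← P.bB.sum_repr (f (P.bB j))]
  refine Finset.sum_congr rfl fun i _ => ?_
  rw [hM, inv_cc_apply]
  rfl

/-- rational matrices preserve rational vectors -/
private theorem inv_rat (M : Matrix P.ι P.ι ℚ) (v : κ → ℂ) (hv : v ∈ P.Q) :
    tl P (cc M) v ∈ P.Q := by
  unfold PData.Q at hv
  induction hv using Submodule.span_induction with
  | mem x hx =>
    obtain ⟨q, rfl⟩ := hx
    rw [inv_tl_bB]
    exact Submodule.sum_mem _ fun p _ => P.rat_smul_mem _ _ (P.basis_mem p)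
  | zero => rw [map_zero]; exact Submodule.zero_mem _
  | add x y _ _ hx hy => rw [map_add]; exact Submodule.add_mem _ hx hy
  | smul a x _ hx =>
    have h1 : a • x = (a : ℂ) • x := by
      rw [← algebraMap_smul ℂ a x]; rfl
    rw [h1, map_smul]
    exact P.rat_smul_mem _ _ hx

variable (n k : ℕ) (α : MultilinearMap ℂ (fun _ : Fin (2 * k) => W κ n) ℂ)

/-- a rational symmetry is a rational matrix -/
private theorem inv_ratl (Y : GG (fun _ : Unit => κ))
    (hY : IsInv (fun _ : Unit => n) (fun _ => P) α Y) (hr : IsRatl (fun _ : Unit => P) Y) :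
    ∃ (A : Matrix P.ι P.ι ℚ) (μ : ℚ), Y = (fun _ => tl P (cc A), (μ : ℂ)) ∧
      (cc A, (μ : ℂ)) ∈ gM P n k α := by
  obtain ⟨h1, μ, hμ⟩ := hr
  obtain ⟨A, hA⟩ := inv_exists_mat P (f := Y.1 ()) (h1 ())
  have e : Y = (fun _ => tl P (cc A), (μ : ℂ)) := by
    refine Prod.ext ?_ hμ
    funext u
    exact hA.symm
  refine ⟨A, μ, e, ?_⟩
  rw [mem_gM]
  show IsInv _ _ _ _
  rw [← e]
  exact hY

/-- the matrix of a symmetry -/
private noncomputable def inv_L : GG (fun _ : Unit => κ) →ₗ[ℂ] Matrix P.ι P.ι ℂ × ℂ :=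
  LinearMap.prodMap ((LinearMap.toMatrix P.bB P.bB).toLinearMap.comp
    (LinearMap.proj (φ := fun _ : Unit => Module.End ℂ (κ → ℂ)) ())) LinearMap.id

private theorem inv_L_apply (M : Matrix P.ι P.ι ℂ) (c : ℂ) :
    inv_L P (fun _ => tl P M, c) = (M, c) := by
  refine Prod.ext ?_ rfl
  exact LinearMap.toMatrix_toLin P.bB P.bB M

end inv

theorem thm_Inv : St_Inv := by
  intro κ _ _ ϖ P _ n k α ψ hϖ hψ0 hB hA
  have hψ : ∀ i j, P.ψ (P.bB i) (P.bB j) = ϖ * (ψ i j : ℂ) := hψ0
  refine {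
    alt := ?_
    nd := ?_
    one := ?_
    br := ?_
    comm := ?_
    pol := ?_
    rat := ?_
    com2 := ?_ }
  · ext i j
    have h1 := hψ i j
    have h2 := hψ j i
    rw [P.hψalt, h2] at h1
    have h3 : (ψ j i : ℂ) = -(ψ i j : ℂ) := by
      apply mul_left_cancel₀ hϖ
      linear_combination -h1
    rw [Matrix.transpose_apply, Matrix.neg_apply]
    exact_mod_cast h3
  · intro hdet
    obtain ⟨v, hv0, hv⟩ := Matrix.exists_mulVec_eq_zero_iff.mpr hdet
    apply hv0
    have h1 : ∑ j, (v j : ℂ) • P.bB j = 0 := by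
      apply P.hψnd
      intro u
      rw [P.hψalt, neg_eq_zero, ← P.bB.sum_repr u, map_sum P.ψ, LinearMap.sum_apply]
      refine Finset.sum_eq_zero fun i _ => ?_
      rw [map_smul, LinearMap.smul_apply, map_sum]
      have h2 : ∑ j, P.ψ (P.bB i) ((v j : ℂ) • P.bB j) = ϖ * (((ψ *ᵥ v) i : ℚ) : ℂ) := by
        simp only [map_smul, smul_eq_mul, hψ i, Matrix.mulVec, dotProduct]
        push_cast
        rw [Finset.mul_sum]
        exact Finset.sum_congr rfl fun j _ => by ring
      rw [h2, hv]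
      simp
    have h2 := Fintype.linearIndependent_iff.mp P.bB.linearIndependent (fun j => (v j : ℂ)) h1
    funext j
    have h3 := h2 j
    show v j = 0
    exact_mod_cast h3
  · rw [mem_gM]
    refine ⟨fun i j f _ v => ?_, fun i u v => ?_, ?_⟩
    · show tl P 1 (f v) = f (tl P 1 v)
      rw [inv_tl_one]
      rfl
    · show P.ψ (tl P 1 u) v + P.ψ u (tl P 1 v) = 2 * P.ψ u v
      rw [inv_tl_one]
      show P.ψ u v + P.ψ u v = 2 * P.ψ u v
      ring
    · show actForm (lift _ (fun _ : Unit => tl P 1)) α = ((k : ℂ) * 2) • α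
      apply MultilinearMap.ext
      intro v
      rw [actForm_apply, inv_tl_one]
      have h1 : ∀ r, Function.update v r ((lift (fun _ : Unit => n)
          (fun _ : Unit => (1 : Module.End ℂ (κ → ℂ)))) (v r)) = v := by
        intro r
        exact Function.update_eq_self r v
      simp only [h1]
      rw [Finset.sum_const, Finset.card_univ, Fintype.card_fin, nsmul_eq_mul,
        _root_.smul_apply, smul_eq_mul]
      push_cast
      ring
  · intro X hX Y hY
    have h := IsInv.bracket _ _ _ hX hY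
    have e : ((fun _ : Unit => tl P (X.1 * Y.1 - Y.1 * X.1), (0 : ℂ)) :
        GG (fun _ : Unit => κ)) =
        ((fun _ => tl P X.1, X.2) : GG (fun _ : Unit => κ)) * (fun _ => tl P Y.1, Y.2) -
          (fun _ => tl P Y.1, Y.2) * (fun _ => tl P X.1, X.2) := by
      refine Prod.ext ?_ ?_
      · funext u
        show tl P (X.1 * Y.1 - Y.1 * X.1) = tl P X.1 * tl P Y.1 - tl P Y.1 * tl P X.1
        rw [inv_tl_sub, inv_tl_mul, inv_tl_mul]
      · show (0 : ℂ) = X.2 * Y.2 - Y.2 * X.2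
        ring
    rw [mem_gM]
    show IsInv _ _ _ _
    rw [e]
    exact h
  · intro X hX f hf
    rw [mem_gM] at hX
    apply inv_tl_inj P
    rw [inv_tl_mul, inv_tl_mul]
    exact LinearMap.ext fun v => hX.comm () () (tl P (cc f)) hf v
  · intro X hX
    rw [mem_gM] at hX
    ext i j
    have h1 := hX.pol () (P.bB i) (P.bB j)
    have h2 : P.ψ (tl P X.1 (P.bB i)) (P.bB j) + P.ψ (P.bB i) (tl P X.1 (P.bB j)) =
        X.2 * P.ψ (P.bB i) (P.bB j) := h1
    rw [inv_tl_bB, inv_tl_bB, map_sum P.ψ, LinearMap.sum_apply, map_sum, hψ] at h2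
    simp only [map_smul, LinearMap.smul_apply, smul_eq_mul, hψ] at h2
    apply mul_left_cancel₀ hϖ
    rw [Matrix.add_apply, Matrix.mul_apply, Matrix.mul_apply, Matrix.smul_apply, smul_eq_mul,
      mul_add, Finset.mul_sum, Finset.mul_sum]
    simp only [Matrix.transpose_apply, inv_cc_apply]
    calc ∑ x, ϖ * (X.1 x i * (ψ x j : ℂ)) + ∑ x, ϖ * ((ψ i x : ℂ) * X.1 x j)
        = ∑ x, X.1 x i * (ϖ * (ψ x j : ℂ)) + ∑ x, X.1 x j * (ϖ * (ψ i x : ℂ)) := by
          congr 1 <;> exact Finset.sum_congr rfl fun x _ => by ring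
      _ = X.2 * (ϖ * (ψ i j : ℂ)) := h2
      _ = ϖ * (X.2 * (ψ i j : ℂ)) := by ring
  · intro X hX
    rw [mem_gM] at hX
    have h1 := mem_span_of_isInv (fun _ : Unit => n) (fun _ => P) α hϖ hB _ hX
    have h2 : inv_L P (fun _ => tl P X.1, X.2) ∈ (Submodule.span ℂ
        {Y | IsInv (fun _ : Unit => n) (fun _ => P) α Y ∧ IsRatl (fun _ : Unit => P) Y}).map
        (inv_L P) := Submodule.mem_map_of_mem h1
    rw [inv_L_apply, Submodule.map_span] at h2
    refine Submodule.span_mono ?_ h2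
    rintro _ ⟨Y, ⟨hY, hr⟩, rfl⟩
    obtain ⟨A, μ, e, hAμ⟩ := inv_ratl P n k α Y hY hr
    rw [e, inv_L_apply]
    exact ⟨hAμ, A, μ, rfl⟩
  · intro f hf
    show IsDRB P P (tl P (cc f))
    refine isDRB_of_rat_comm (fun _ : Unit => n) (fun _ => P) α hϖ hB hA () () (tl P (cc f))
      (fun v hv => inv_rat P f v hv) fun Y hY hr v => ?_
    obtain ⟨A, μ, e, hAμ⟩ := inv_ratl P n k α Y hY hr
    have h1 := hf A μ hAμ
    have h2 : tl P (cc A) * tl P (cc f) = tl P (cc f) * tl P (cc A) := by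
      rw [← inv_tl_mul, ← inv_tl_mul, ← map_mul, ← map_mul, h1]
    rw [e]
    exact LinearMap.congr_fun h2 v

end PSQ
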