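import Pool.Agent.PSQ.St

/-!
# PSQ: replicas
-/

set_option autoImplicit false

namespace PSQ

open Matrix Module Pool.Agent.Helper7

section abstr

variable {τ : Type} [Fintype τ] [DecidableEq τ] {V : Type*} [AddCommGroup V] [Module ℂ V]
  {e : τ → Module.End ℂ V}

omit [Fintype τ] in
private lemma rep_ee (h : ∀ a b, e a * e b = if a = b then e a else 0) (a b : τ) (w : V) :
    e a (e b w) = if a = b then e b w else 0 := by
  have h1 := LinearMap.congr_fun (h a b) w
  rw [Module.End.mul_apply] at h1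
  rw [h1]
  split_ifs with h2
  · rw [h2]
  · rfl

private lemma rep_X (h : ∀ a b, e a * e b = if a = b then e a else 0) (y : τ → ℂ) (b : τ)
    (w : V) : (∑ a, y a • e a) (e b w) = y b • e b w := by
  rw [LinearMap.sum_apply, Finset.sum_eq_single b]
  · rw [LinearMap.smul_apply, rep_ee h, if_pos rfl]
  · intro a _ hab
    rw [LinearMap.smul_apply, rep_ee h, if_neg hab, smul_zero]
  · intro hb
    exact absurd (Finset.mem_univ b) hb

private lemma rep_X2 (h : ∀ a b, e a * e b = if a = b then e a else 0) (y : τ → ℂ) (a : τ)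
    (w : V) : e a ((∑ b, y b • e b) w) = y a • e a w := by
  rw [LinearMap.sum_apply, map_sum, Finset.sum_eq_single a]
  · rw [LinearMap.smul_apply, map_smul, rep_ee h, if_pos rfl]
  · intro b _ hab
    rw [LinearMap.smul_apply, map_smul, rep_ee h, if_neg (Ne.symm hab), smul_zero]
  · intro hb
    exact absurd (Finset.mem_univ a) hb

omit [DecidableEq τ] in
private lemma rep_sum (hs : ∑ a, e a = 1) (w : V) : ∑ a, e a w = w := by
  have h1 := LinearMap.congr_fun hs w
  rwa [LinearMap.sum_apply, Module.End.one_apply] at h1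

private lemma rep_comm (h : ∀ a b, e a * e b = if a = b then e a else 0) (hs : ∑ a, e a = 1)
    (x : τ → ℂ) (φ : ℂ →ₗ[ℚ] ℂ) (f : V →ₗ[ℂ] V)
    (hf : ∀ v, (∑ a, x a • e a) (f v) = f ((∑ a, x a • e a) v)) (v : V) :
    (∑ a, φ (x a) • e a) (f v) = f ((∑ a, φ (x a) • e a) v) := by
  have key : ∀ b, (∑ a, φ (x a) • e a) (f (e b v)) = f ((∑ a, φ (x a) • e a) (e b v)) := by
    intro b
    rw [rep_X h (fun a => φ (x a)) b v, map_smul]
    have h2 : ∀ a, φ (x a) • e a (f (e b v)) = φ (x b) • e a (f (e b v)) := by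
      intro a
      by_cases hab : x a = x b
      · rw [hab]
      · have h3 := congrArg (e a) (hf (e b v))
        rw [rep_X h x b v, rep_X2 h x a, map_smul, map_smul] at h3
        have h4 : (x a - x b) • e a (f (e b v)) = 0 := by
          rw [sub_smul, h3, sub_self]
        rcases smul_eq_zero.1 h4 with h5 | h5
        · exact absurd (sub_eq_zero.1 h5) hab
        · rw [h5, smul_zero, smul_zero]
    rw [LinearMap.sum_apply]
    have h6 : ∀ a ∈ Finset.univ, (φ (x a) • e a) (f (e b v)) = φ (x b) • e a (f (e b v)) := by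
      intro a _
      rw [LinearMap.smul_apply, h2 a]
    rw [Finset.sum_congr rfl h6, ← Finset.smul_sum, rep_sum hs]
  have h7 : ∑ b, (∑ a, φ (x a) • e a) (f (e b v)) =
      ∑ b, f ((∑ a, φ (x a) • e a) (e b v)) := Finset.sum_congr rfl fun b _ => key b
  rw [← map_sum, ← map_sum, ← map_sum, ← map_sum, rep_sum hs] at h7
  exact h7

private lemma rep_pol (h : ∀ a b, e a * e b = if a = b then e a else 0) (hs : ∑ a, e a = 1)
    (x : τ → ℂ) (φ : ℂ →ₗ[ℚ] ℂ) (β : V →ₗ[ℂ] V →ₗ[ℂ] ℂ)
    (hβ : ∀ u v, β ((∑ a, x a • e a) u) v + β u ((∑ a, x a • e a) v) = 0) (u v : V) :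
    β ((∑ a, φ (x a) • e a) u) v + β u ((∑ a, φ (x a) • e a) v) = 0 := by
  have key : ∀ a b, β ((∑ a, φ (x a) • e a) (e a u)) (e b v) +
      β (e a u) ((∑ a, φ (x a) • e a) (e b v)) = 0 := by
    intro a b
    have h1 := hβ (e a u) (e b v)
    rw [rep_X h x, rep_X h x, map_smul, LinearMap.smul_apply, map_smul, ← add_smul] at h1
    rw [rep_X h (fun a => φ (x a)), rep_X h (fun a => φ (x a)), map_smul, LinearMap.smul_apply,
      map_smul, ← add_smul, ← map_add]
    rcases smul_eq_zero.1 h1 with h2 | h2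
    · rw [h2, map_zero, zero_smul]
    · rw [h2, smul_zero]
  have h3 : ∑ a, ∑ b, (β ((∑ a, φ (x a) • e a) (e a u)) (e b v) +
      β (e a u) ((∑ a, φ (x a) • e a) (e b v))) = 0 :=
    Finset.sum_eq_zero fun a _ => Finset.sum_eq_zero fun b _ => key a b
  have h4 : ∀ a, ∑ b, (β ((∑ a, φ (x a) • e a) (e a u)) (e b v) +
      β (e a u) ((∑ a, φ (x a) • e a) (e b v))) =
      β ((∑ a, φ (x a) • e a) (e a u)) v + β (e a u) ((∑ a, φ (x a) • e a) v) := by
    intro a
    rw [Finset.sum_add_distrib, ← map_sum, ← map_sum, ← map_sum, rep_sum hs]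
  rw [Finset.sum_congr rfl fun a _ => h4 a, Finset.sum_add_distrib] at h3
  have h5 : ∑ a, β ((∑ a, φ (x a) • e a) (e a u)) v = β ((∑ a, φ (x a) • e a) u) v := by
    generalize (∑ a, φ (x a) • e a) = X
    rw [← LinearMap.sum_apply, ← map_sum, ← map_sum, rep_sum hs]
  have h6 : ∑ a, β (e a u) ((∑ a, φ (x a) • e a) v) = β u ((∑ a, φ (x a) • e a) v) := by
    generalize (∑ a, φ (x a) • e a) v = w
    rw [← LinearMap.sum_apply, ← map_sum, rep_sum hs]
  rwa [h5, h6] at h3

private lemma rep_act (h : ∀ a b, e a * e b = if a = b then e a else 0) {N : ℕ}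
    (α : MultilinearMap ℂ (fun _ : Fin N => V) ℂ) (y : τ → ℂ) (v : Fin N → V) (t : Fin N → τ) :
    actForm (∑ a, y a • e a) α (fun r => e (t r) (v r)) =
      (∑ r, y (t r)) • α (fun r => e (t r) (v r)) := by
  rw [actForm_apply, Finset.sum_smul]
  refine Finset.sum_congr rfl fun r _ => ?_
  rw [rep_X h, MultilinearMap.map_update_smul]
  congr 2
  exact Function.update_eq_self r _

private lemma rep_form (h : ∀ a b, e a * e b = if a = b then e a else 0) (hs : ∑ a, e a = 1)
    (x : τ → ℂ) (φ : ℂ →ₗ[ℚ] ℂ) {N : ℕ} (α : MultilinearMap ℂ (fun _ : Fin N => V) ℂ)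
    (hα : actForm (∑ a, x a • e a) α = 0) : actForm (∑ a, φ (x a) • e a) α = 0 := by
  ext v
  have h1 : ∀ t : Fin N → τ,
      actForm (∑ a, φ (x a) • e a) α (fun r => e (t r) (v r)) = 0 := by
    intro t
    have h2 := rep_act h α x v t
    rw [hα] at h2
    rw [rep_act h α (fun a => φ (x a)) v t, ← map_sum]
    have h3 : (∑ r, x (t r)) • α (fun r => e (t r) (v r)) = 0 := h2.symm
    rcases smul_eq_zero.1 h3 with h4 | h4
    · rw [h4, map_zero, zero_smul]
    · rw [h4, smul_zero]
  have h5 : v = fun r => ∑ a, e a (v r) := by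
    funext r
    exact (rep_sum hs (v r)).symm
  have h6 := MultilinearMap.map_sum (actForm (∑ a, φ (x a) • e a) α) (fun r (a : τ) => e a (v r))
  rw [← h5] at h6
  rw [h6]
  exact Finset.sum_eq_zero fun t _ => h1 t

end abstr

/-- M2. -/
theorem thm_Rep : St_Rep := by
  intro κ _ _ ϖ P _ n k α τ _ _ E x φ hE hs hX
  have h1 : ∀ a b, tl P (E a) * tl P (E b) = if a = b then tl P (E a) else 0 := by
    intro a b
    have h2 : tl P (E a * E b) = tl P (E a) * tl P (E b) := Matrix.toLin_mul P.bB P.bB P.bB _ _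
    rw [← h2, hE]
    split_ifs
    · rfl
    · exact map_zero (Matrix.toLin P.bB P.bB)
  have h2 : ∑ a, tl P (E a) = 1 := by
    have h3 : ∑ a, tl P (E a) = tl P (∑ a, E a) := (map_sum (Matrix.toLin P.bB P.bB) _ _).symm
    rw [h3, hs]
    exact Matrix.toLin_one P.bB
  have h3 : ∀ y : τ → ℂ, tl P (∑ a, y a • E a) = ∑ a, y a • tl P (E a) := by
    intro y
    show Matrix.toLin P.bB P.bB _ = _
    rw [map_sum]
    exact Finset.sum_congr rfl fun a _ => map_smul (Matrix.toLin P.bB P.bB) _ _
  have key : ∀ y : τ → ℂ,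
      IsInv (fun _ : Unit => n) (fun _ => P) α (fun _ => tl P (∑ a, y a • E a), 0) ↔
      IsInv (fun _ : Unit => n) (fun _ => P) α (fun _ => ∑ a, y a • tl P (E a), 0) := by
    intro y
    have e : (fun _ : Unit => tl P (∑ a, y a • E a)) = fun _ => ∑ a, y a • tl P (E a) :=
      funext fun _ => h3 y
    exact iff_of_eq (congrArg
      (fun F : ((i : Unit) → Module.End ℂ ((fun _ : Unit => κ) i → ℂ)) =>
        IsInv (fun _ : Unit => n) (fun _ => P) α (F, 0)) e)
  have hX' : IsInv (fun _ : Unit => n) (fun _ => P) α (fun _ => ∑ a, x a • tl P (E a), 0) :=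
    (key x).1 hX
  refine (key fun a => φ (x a)).2 ?_
  have h4 : ∀ a b, lift (fun _ : Unit => n) (fun _ => tl P (E a)) *
      lift (fun _ : Unit => n) (fun _ => tl P (E b)) =
      if a = b then lift (fun _ : Unit => n) (fun _ => tl P (E a)) else 0 := by
    intro a b
    have h5 : lift (fun _ : Unit => n) (fun _ => tl P (E a)) *
        lift (fun _ : Unit => n) (fun _ => tl P (E b)) =
        lift (fun _ : Unit => n) (fun _ => tl P (E a) * tl P (E b)) := rfl
    rw [h5]
    split_ifs with hab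
    · have : (fun _ : Unit => tl P (E a) * tl P (E b)) = fun _ => tl P (E a) := by
        funext u
        rw [h1, if_pos hab]
      rw [this]
    · have : (fun _ : Unit => tl P (E a) * tl P (E b)) = 0 := by
        funext u
        rw [h1, if_neg hab]
        rfl
      rw [this]
      exact lift_zero _
  have h5 : ∀ y : τ → ℂ, lift (fun _ : Unit => n) (fun _ => ∑ a, y a • tl P (E a)) =
      ∑ a, y a • lift (fun _ : Unit => n) (fun _ => tl P (E a)) := by
    intro y
    refine LinearMap.ext fun v => ?_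
    funext i m
    rw [lift_apply, LinearMap.sum_apply, LinearMap.sum_apply, Finset.sum_apply, Finset.sum_apply]
    rfl
  have h6 : ∑ a, lift (fun _ : Unit => n) (fun _ => tl P (E a)) = 1 := by
    refine LinearMap.ext fun v => ?_
    funext i m
    rw [LinearMap.sum_apply, Finset.sum_apply, Finset.sum_apply]
    exact rep_sum h2 (v i m)
  refine ⟨?_, ?_, ?_⟩
  · intro i j f hf v
    exact rep_comm h1 h2 x φ f (fun v => hX'.comm i j f hf v) v
  · intro i u v
    have h7 := rep_pol h1 h2 x φ (P.ψ) (fun u v => by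
      have := hX'.pol i u v
      simpa using this) u v
    simpa using h7
  · have h8 := hX'.form
    have h9 : actForm (∑ a, x a • lift (fun _ : Unit => n) (fun _ => tl P (E a))) α = 0 := by
      rw [← h5]
      rw [h8]
      simp
    have h10 := rep_form h4 h6 x φ α h9
    rw [← h5 (fun a => φ (x a))] at h10
    show actForm (lift (fun _ : Unit => n) (fun _ => ∑ a, φ (x a) • tl P (E a))) α = _
    rw [h10]
    simp

end PSQ
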