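import Pool.Agent.PSQ.St

/-!
# PSQ: shift invariant subspaces
-/

set_option autoImplicit false

namespace PSQ

open Matrix Module Pool.Agent.Helper7

/-- the shift -/
noncomputable def shf_T (p : ℕ) : (ZMod p → ℚ) →ₗ[ℚ] (ZMod p → ℚ) :=
  LinearMap.funLeft ℚ ℚ (fun i => i - 1)

lemma shf_T_apply (p : ℕ) (v : ZMod p → ℚ) (i : ZMod p) : shf_T p v i = v (i - 1) := rfl

lemma shf_single (p : ℕ) (j : ZMod p) :
    shf_T p (Pi.single j 1) = Pi.single (j + 1) 1 := by
  funext k
  rw [shf_T_apply, Pi.single_apply, Pi.single_apply]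
  simp only [sub_eq_iff_eq_add]

lemma shf_pow (p : ℕ) (i : ℕ) :
    (shf_T p ^ i) (Pi.single 0 1) = Pi.single (i : ZMod p) 1 := by
  induction i with
  | zero => simp
  | succ n ih =>
    rw [pow_succ', Module.End.mul_apply, ih, shf_single]
    push_cast
    rfl

lemma shf_stab (p : ℕ) (R : Submodule ℚ (ZMod p → ℚ)) (hR : ∀ a ∈ R, shf_T p a ∈ R)
    (q : Polynomial ℚ) (v : ZMod p → ℚ) (hv : v ∈ R) : Polynomial.aeval (shf_T p) q v ∈ R := by
  have hpow : ∀ n : ℕ, (shf_T p ^ n) v ∈ R := by
    intro n
    induction n with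
    | zero => simpa using hv
    | succ n ih =>
      rw [pow_succ', Module.End.mul_apply]
      exact hR _ ih
  rw [Polynomial.aeval_eq_sum_range, LinearMap.sum_apply]
  exact Submodule.sum_mem _ fun n _ => Submodule.smul_mem _ _ (hpow n)

theorem thm_Shf : St_Shf := by
  rintro p _ R hR a ha ⟨i₀, j₀, hne⟩
  have hp : p.Prime := Fact.out
  have hT : ∀ b ∈ R, shf_T p b ∈ R := hR
  let δ : ZMod p → ℚ := Pi.single 0 1
  let A : Polynomial ℚ :=
    ∑ i ∈ Finset.range p, Polynomial.C (a (i : ZMod p)) * Polynomial.X ^ i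
  have hA : Polynomial.aeval (shf_T p) A δ = a := by
    have h1 : ∀ i : ℕ, Polynomial.aeval (shf_T p)
        (Polynomial.C (a (i : ZMod p)) * Polynomial.X ^ i) δ =
        a (i : ZMod p) • (Pi.single (i : ZMod p) 1 : ZMod p → ℚ) := by
      intro i
      rw [map_mul, Polynomial.aeval_C, map_pow, Polynomial.aeval_X, Module.End.mul_apply,
        shf_pow, Module.algebraMap_end_apply]
    show Polynomial.aeval (shf_T p)
      (∑ i ∈ Finset.range p, Polynomial.C (a (i : ZMod p)) * Polynomial.X ^ i) δ = a
    rw [map_sum, LinearMap.sum_apply, Finset.sum_congr rfl fun i _ => h1 i]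
    funext k
    rw [Finset.sum_apply, Finset.sum_eq_single k.val]
    · rw [ZMod.natCast_zmod_val, Pi.smul_apply, Pi.single_eq_same, smul_eq_mul, mul_one]
    · intro i hi hik
      rw [Pi.smul_apply, Pi.single_eq_of_ne, smul_zero]
      intro h
      apply hik
      rw [h, ZMod.val_cast_of_lt (Finset.mem_range.1 hi)]
    · intro h
      exact absurd (Finset.mem_range.2 (ZMod.val_lt k)) h
  let e : ZMod p → ℚ := Pi.single 0 1 - Pi.single 1 1
  have he : e = Polynomial.aeval (shf_T p) ((1 : Polynomial ℚ) - Polynomial.X) δ := by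
    rw [map_sub, map_one, Polynomial.aeval_X, LinearMap.sub_apply, Module.End.one_apply]
    show (Pi.single 0 1 - Pi.single 1 1 : ZMod p → ℚ) = Pi.single 0 1 - shf_T p (Pi.single 0 1)
    rw [shf_single, zero_add]
  have hb : Polynomial.aeval (shf_T p) A e = a - shf_T p a := by
    have h1 : Polynomial.aeval (shf_T p) A e =
        Polynomial.aeval (shf_T p) ((1 : Polynomial ℚ) - Polynomial.X) (Polynomial.aeval (shf_T p) A δ) := by
      rw [he, ← Module.End.mul_apply, ← Module.End.mul_apply, ← map_mul, ← map_mul, mul_comm]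
    rw [h1, hA, map_sub, map_one, Polynomial.aeval_X, LinearMap.sub_apply, Module.End.one_apply]
  have hbR : Polynomial.aeval (shf_T p) A e ∈ R := by
    rw [hb]
    exact R.sub_mem ha (hT a ha)
  have hb0 : Polynomial.aeval (shf_T p) A e ≠ 0 := by
    rw [hb]
    intro h
    apply hne
    have h1 : ∀ i, a i = a (i - 1) := by
      intro i
      have := congrFun h i
      rw [Pi.sub_apply, Pi.zero_apply, shf_T_apply] at this
      linarith
    have h2 : ∀ n : ℕ, a (n : ZMod p) = a 0 := by
      intro n
      induction n with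
      | zero => simp
      | succ n ih =>
        rw [h1, ← ih]
        congr 1
        push_cast
        ring
    have h3 : ∀ i : ZMod p, a i = a 0 := by
      intro i
      have := h2 i.val
      rwa [ZMod.natCast_zmod_val] at this
    rw [h3 i₀, h3 j₀]
  have hΦ : Polynomial.aeval (shf_T p) (Polynomial.cyclotomic p ℚ) e = 0 := by
    rw [he, ← Module.End.mul_apply, ← map_mul, Polynomial.cyclotomic_prime]
    have h1 : (∑ i ∈ Finset.range p, (Polynomial.X : Polynomial ℚ) ^ i) * (1 - Polynomial.X) =
        1 - Polynomial.X ^ p := by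
      have := geom_sum_mul (Polynomial.X : Polynomial ℚ) p
      linear_combination -this
    rw [h1, map_sub, map_one, map_pow, Polynomial.aeval_X, LinearMap.sub_apply,
      Module.End.one_apply, shf_pow, ZMod.natCast_self]
    exact sub_self _
  have hirr : Irreducible (Polynomial.cyclotomic p ℚ) :=
    Polynomial.cyclotomic.irreducible_rat hp.pos
  have hnd : ¬ Polynomial.cyclotomic p ℚ ∣ A := by
    rintro ⟨Q, hQ⟩
    apply hb0
    rw [hQ, mul_comm, map_mul, Module.End.mul_apply, hΦ, map_zero]
  obtain ⟨U, W, hUW⟩ := hirr.coprime_iff_not_dvd.2 hnd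
  have h1 : e = Polynomial.aeval (shf_T p) W (Polynomial.aeval (shf_T p) A e) := by
    have h2 : Polynomial.aeval (shf_T p) (U * Polynomial.cyclotomic p ℚ + W * A) e = e := by
      rw [hUW, map_one, Module.End.one_apply]
    rw [map_add, LinearMap.add_apply, map_mul, Module.End.mul_apply, hΦ, map_zero, zero_add,
      map_mul, Module.End.mul_apply] at h2
    exact h2.symm
  show e ∈ R
  rw [h1]
  exact shf_stab p R hT W _ hbR

end PSQ
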