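import Pool.Agent.PSQ.St

set_option autoImplicit false

/-!
# PSQ: spectral decomposition of a rational element of the commutant
-/

namespace PSQ

open Matrix Module Polynomial

section

variable {ι : Type} [Fintype ι] [DecidableEq ι]

/-- polynomials in a matrix commute with everything which commutes with the matrix -/
theorem spc_comm {K : Type} [Field K] {M W : Matrix ι ι K} (h : W * M = M * W) (p : K[X]) :
    W * aeval M p = aeval M p * W := by
  have h1 : M ∈ Subalgebra.centralizer K {W} := by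
    rw [Subalgebra.mem_centralizer_iff]
    intro g hg
    rw [Set.mem_singleton_iff] at hg
    rw [hg]; exact h
  have h2 : aeval M p ∈ Subalgebra.centralizer K {W} :=
    Algebra.adjoin_le (Set.singleton_subset_iff.mpr h1) (aeval_mem_adjoin_singleton K M)
  exact (Subalgebra.mem_centralizer_iff K).mp h2 W rfl

/-- the minimal polynomial of an element of a division algebra is irreducible -/
theorem spc_irr {𝓓 : Set (Matrix ι ι ℚ)}
    (hdiv : ∀ Z : Matrix ι ι ℚ, (∀ f ∈ 𝓓, Z * f = f * Z) → Z ≠ 0 → Z.det ≠ 0) (hne : Nonempty ι)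
    {Z : Matrix ι ι ℚ} (hZ : ∀ f ∈ 𝓓, Z * f = f * Z) : Irreducible (minpoly ℚ Z) := by
  have hx : IsIntegral ℚ Z := Algebra.IsIntegral.isIntegral Z
  have hcom : ∀ q : ℚ[X], ∀ f ∈ 𝓓, aeval Z q * f = f * aeval Z q := fun q f hf =>
    (spc_comm (hZ f hf).symm q).symm
  refine (irreducible_of_monic (minpoly.monic hx) (minpoly.ne_one ℚ Z)).2 fun f g hf hg he => ?_
  rw [← hf.isUnit_iff, ← hg.isUnit_iff]
  by_contra! h
  have heval : aeval Z f * aeval Z g = 0 := by
    rw [← map_mul, he, minpoly.aeval]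
  have hfz : aeval Z f ≠ 0 :=
    minpoly.aeval_ne_zero_of_dvdNotUnit_minpoly hx hf ⟨hf.ne_zero, g, h.2, he.symm⟩
  have hgz : aeval Z g ≠ 0 :=
    minpoly.aeval_ne_zero_of_dvdNotUnit_minpoly hx hg ⟨hg.ne_zero, f, h.1, by rw [mul_comm, he]⟩
  have h1 := hdiv _ (hcom f) hfz
  have h2 := hdiv _ (hcom g) hgz
  have h3 := congrArg Matrix.det heval
  rw [Matrix.det_mul, Matrix.det_zero] at h3
  exact (mul_ne_zero h1 h2) h3

/-- spectral projectors of a complex matrix killed by a product of distinct linear factors -/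
theorem spc_proj (M : Matrix ι ι ℂ) (R : Finset ℂ) (hR : R.Nonempty)
    (hM : aeval M (∏ r ∈ R, (X - C r)) = 0) :
    ∃ e : ℂ → Matrix ι ι ℂ, (∑ r ∈ R, e r = 1) ∧ (∀ r ∈ R, M * e r = r • e r) ∧
      (∀ r, ∃ q : ℂ[X], e r = aeval M q) ∧
      (∀ r ∈ R, ∀ (t : ℂ), t ∈ R → ∀ N : Matrix ι ι ℂ, M * N = t • N →
        e r * N = if r = t then N else 0) := by
  have hinj : Set.InjOn (id : ℂ → ℂ) (R : Set ℂ) := fun _ _ _ _ h => h
  refine ⟨fun r => aeval M (Lagrange.basis R id r), ?_, ?_, fun r => ⟨_, rfl⟩, ?_⟩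
  · rw [← map_sum, Lagrange.sum_basis hinj hR, map_one]
  · intro r hr
    have h1 : (X - C r) * Lagrange.basis R id r =
        (∏ j ∈ R.erase r, C ((r - j)⁻¹)) * ∏ j ∈ R, (X - C j) := by
      unfold Lagrange.basis Lagrange.basisDivisor
      rw [← Finset.mul_prod_erase R (fun j => X - C j) hr, Finset.prod_mul_distrib]
      simp only [id]
      ring
    have h2 := congrArg (aeval M) h1
    rw [map_mul, map_mul, hM, mul_zero, map_sub, aeval_X, aeval_C, sub_mul, sub_eq_zero] at h2
    rw [h2, Algebra.smul_def]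
  · intro r hr t ht N hN
    have h1 : ∀ q : ℂ[X], aeval M q * N = (q.eval t) • N := by
      intro q
      induction q using Polynomial.induction_on' with
      | add p q hp hq => rw [map_add, add_mul, hp, hq, eval_add, add_smul]
      | monomial n c =>
        rw [aeval_monomial, eval_monomial]
        have h2 : M ^ n * N = t ^ n • N := by
          induction n with
          | zero => rw [pow_zero, pow_zero, one_mul, one_smul]
          | succ n ih =>
            rw [pow_succ, mul_assoc, hN, mul_smul_comm, ih, smul_smul, pow_succ, mul_comm]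
        rw [mul_assoc, h2, ← Algebra.smul_def, smul_smul]
    rw [h1]
    split_ifs with h
    · rw [h]
      have := Lagrange.eval_basis_self hinj ht
      simp only [id] at this
      rw [this, one_smul]
    · have := Lagrange.eval_basis_of_ne (v := (id : ℂ → ℂ)) h ht
      simp only [id] at this
      rw [this, zero_smul]

end

theorem thm_Spc (hTrc : St_Trc) : St_Spc := by
  classical
  intro ι _ _ ψ 𝓓 J d p z Z hD hz hZ
  have hdiv := (hTrc ι ψ 𝓓 J d p hD).1
  have hne : Nonempty ι := by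
    rw [← Fintype.card_pos_iff, hD.card]
    have := hD.prime.pos
    positivity
  have hirr := spc_irr hdiv hne hZ
  have hx : IsIntegral ℚ Z := Algebra.IsIntegral.isIntegral Z
  have hmon := minpoly.monic hx
  obtain ⟨m, hm⟩ : ∃ m, m = (minpoly ℚ Z).map (algebraMap ℚ ℂ) := ⟨_, rfl⟩
  have hmm : m.Monic := by rw [hm]; exact hmon.map _
  have hnd : m.roots.Nodup := by
    rw [hm]
    exact nodup_roots hirr.separable.map
  obtain ⟨R, hR⟩ : ∃ R, R = m.roots.toFinset := ⟨_, rfl⟩
  have hprod : ∏ r ∈ R, (X - C r) = m := by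
    have h1 := (IsAlgClosed.splits m).eq_prod_roots_of_monic hmm
    rw [hR]
    conv_rhs => rw [h1]
    rw [Finset.prod_multiset_map_count]
    apply Finset.prod_congr rfl
    intro r hr
    rw [Multiset.count_eq_one_of_mem hnd (Multiset.mem_toFinset.mp hr), pow_one]
  have hMz : aeval (cc Z) m = 0 := by
    have h0 : (algebraMap ℂ (Matrix ι ι ℂ)).comp (algebraMap ℚ ℂ) =
        (cc : Matrix ι ι ℚ →+* Matrix ι ι ℂ).comp (algebraMap ℚ (Matrix ι ι ℚ)) :=
      Subsingleton.elim _ _
    rw [hm, ← map_aeval_eq_aeval_map h0, minpoly.aeval, map_zero]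
  have hRne : R.Nonempty := by
    rw [Finset.nonempty_iff_ne_empty]
    intro h
    rw [h, Finset.prod_empty] at hprod
    rw [← hprod, map_one] at hMz
    exact one_ne_zero hMz
  obtain ⟨e, he1, he2, he3, he4⟩ := spc_proj (cc Z) R hRne (by rw [hprod]; exact hMz)
  -- the projector to the `z`-eigenspace of `J`
  obtain ⟨Pr, hPr⟩ : ∃ Pr : Matrix ι ι ℂ, Pr = (1 / 2 : ℂ) • (1 + z⁻¹ • cc J) := ⟨_, rfl⟩
  have hz0 : z ≠ 0 := by
    intro h
    rw [h] at hz
    have h1 : (d : ℂ) = 0 := by
      have : (0 : ℂ) ^ 2 = 0 := by norm_num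
      rw [this] at hz
      exact neg_eq_zero.mp hz.symm
    have h2 : d = 0 := by exact_mod_cast h1
    exact absurd h2 hD.dpos.ne'
  have hJ2 : cc J * cc J = (z ^ 2) • (1 : Matrix ι ι ℂ) := by
    rw [← map_mul, hD.J2, map_neg, hz, neg_smul]
    congr 1
    ext i j
    show algebraMap ℚ ℂ ((d • (1 : Matrix ι ι ℚ)) i j) = _
    rw [Matrix.smul_apply, Matrix.smul_apply, smul_eq_mul, map_mul, smul_eq_mul]
    congr 1
    rw [Matrix.one_apply, Matrix.one_apply]
    split_ifs
    · exact map_one _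
    · exact map_zero _
  have hJP : cc J * Pr = z • Pr := by
    have a1 : (1 / 2 * (z⁻¹ * z ^ 2) : ℂ) = z * (1 / 2) := by field_simp
    have a2 : (z * (1 / 2) * z⁻¹ : ℂ) = 1 / 2 := by field_simp
    rw [hPr, mul_smul_comm, mul_add, mul_one, mul_smul_comm, hJ2, smul_smul, smul_smul, smul_add,
      smul_smul, smul_add, smul_smul, a1, a2, add_comm]
  have hPP : Pr * Pr = Pr := by
    have h1 : Pr * Pr = (1 / 2 : ℂ) • ((1 + z⁻¹ • cc J) * Pr) := by
      conv_lhs => rw [hPr]
      rw [smul_mul_assoc, ← hPr]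
    rw [h1, add_mul, one_mul, smul_mul_assoc, hJP, smul_smul, inv_mul_cancel₀ hz0, one_smul,
      smul_add, ← add_smul]
    norm_num
  have hJZ : cc J * cc Z = cc Z * cc J := by
    rw [← map_mul, ← map_mul, hZ J hD.JD]
  have hPrW : ∀ W : Matrix ι ι ℂ, W * cc J = cc J * W → W * Pr = Pr * W := by
    intro W hW
    rw [hPr, mul_smul_comm, smul_mul_assoc, mul_add, add_mul, mul_one, one_mul, mul_smul_comm,
      smul_mul_assoc, hW]
  have hZP : cc Z * Pr = Pr * cc Z := hPrW _ hJZ.symm
  have heP : ∀ r, e r * Pr = Pr * e r := by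
    intro r
    obtain ⟨q, hq⟩ := he3 r
    rw [hq]
    exact (spc_comm hZP.symm q).symm
  obtain ⟨F, hF⟩ : ∃ F : ℂ → Matrix ι ι ℂ, F = fun r => Pr * e r := ⟨_, rfl⟩
  have hFe : ∀ r, F r = Pr * e r := fun r => by rw [hF]
  obtain ⟨S, hS⟩ : ∃ S, S = R.filter (fun r => F r ≠ 0) := ⟨_, rfl⟩
  have hSR : ∀ r ∈ S, r ∈ R := fun r hr => by
    rw [hS] at hr
    exact (Finset.mem_filter.mp hr).1
  have horth : ∀ x ∈ R, ∀ y ∈ R, F x * F y = if x = y then F x else 0 := by
    intro x hx y hy
    have h1 : F x * F y = Pr * Pr * (e x * e y) := by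
      rw [hFe, hFe, mul_assoc, ← mul_assoc (e x), heP, mul_assoc Pr (e x), ← mul_assoc]
    rw [h1, hPP, he4 x hx y hy (e y) (he2 y hy)]
    split_ifs with h
    · rw [hFe, h]
    · rw [mul_zero]
  have hσm : ∀ σ : ℂ ≃+* ℂ, ∀ r ∈ R, σ r ∈ R := by
    intro σ r hr
    rw [hR, Multiset.mem_toFinset, mem_roots hmm.ne_zero, IsRoot.def] at hr ⊢
    have h1 : m.map (σ : ℂ →+* ℂ) = m := by
      rw [hm, Polynomial.map_map]
      congr 1
      exact Subsingleton.elim _ _
    have h2 : m.eval (σ r) = σ (m.eval r) := by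
      conv_lhs => rw [← h1]
      rw [eval_map]
      exact eval₂_at_apply (σ : ℂ →+* ℂ) r
    rw [h2, hr, map_zero]
  have hσe : ∀ σ : ℂ ≃+* ℂ, ∀ r ∈ R, (e r).map σ = e (σ r) := by
    intro σ r hr
    have hcc : (cc Z).map σ = cc Z := by
      ext i j
      show σ (algebraMap ℚ ℂ (Z i j)) = algebraMap ℚ ℂ (Z i j)
      exact map_ratCast σ (Z i j)
    have h1 : ∀ y ∈ R, cc Z * (e y).map σ = σ y • (e y).map σ := by
      intro y hy
      have h2 := congrArg (fun A => (RingHom.mapMatrix (σ : ℂ →+* ℂ)) A) (he2 y hy)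
      simp only [map_mul] at h2
      have h3 : (RingHom.mapMatrix (σ : ℂ →+* ℂ)) (y • e y) = σ y • (e y).map σ := by
        ext i j
        exact map_mul σ y (e y i j)
      have h4 : (RingHom.mapMatrix (σ : ℂ →+* ℂ)) (cc Z) = cc Z := hcc
      rw [h3, h4] at h2
      exact h2
    have h3 : ∑ y ∈ R, (e y).map σ = 1 := by
      have h4 := congrArg (fun A => (RingHom.mapMatrix (σ : ℂ →+* ℂ)) A) he1
      simp only [map_sum, map_one] at h4
      exact h4
    calc (e r).map σ = ∑ y ∈ R, (if σ r = σ y then (e y).map σ else 0) := by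
          rw [Finset.sum_eq_single r]
          · rw [if_pos rfl]
          · intro y _ hyr
            rw [if_neg]
            intro h
            exact hyr (σ.injective h).symm
          · intro h
            exact absurd hr h
      _ = ∑ y ∈ R, e (σ r) * (e y).map σ := by
          apply Finset.sum_congr rfl
          intro y hy
          rw [he4 (σ r) (hσm σ r hr) (σ y) (hσm σ y hy) _ (h1 y hy)]
      _ = e (σ r) := by rw [← Finset.mul_sum, h3, mul_one]
  refine ⟨S, F, ?_, ?_, ?_, ?_, ?_, ?_, ?_⟩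
  · intro x hx
    rw [hS] at hx
    exact (Finset.mem_filter.mp hx).2
  · intro x hx
    rw [hFe, ← mul_assoc, hZP, mul_assoc, he2 x (hSR x hx), mul_smul_comm]
  · intro x hx
    rw [hFe, ← mul_assoc, hJP, smul_mul_assoc]
  · intro x hx y hy
    exact horth x (hSR x hx) y (hSR y hy)
  · rw [hS, Finset.sum_filter_ne_zero, ← hPr]
    simp only [hFe]
    rw [← Finset.mul_sum, he1, mul_one]
  · intro W hWZ hWJ x hx
    obtain ⟨q, hq⟩ := he3 x
    rw [hFe, ← mul_assoc, hPrW W hWJ, mul_assoc, mul_assoc, hq, spc_comm hWZ q]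
  · intro σ hσ x hx
    have h1 : (F x).map σ = F (σ x) := by
      rw [hFe, hFe]
      have h2 : (Pr * e x).map σ = Pr.map σ * (e x).map σ :=
        map_mul (RingHom.mapMatrix (σ : ℂ →+* ℂ)) Pr (e x)
      rw [h2, hσe σ x (hSR x hx)]
      congr 1
      rw [hPr]
      ext i j
      show σ ((1 / 2 : ℂ) * ((1 : Matrix ι ι ℂ) i j + z⁻¹ * ((J i j : ℚ) : ℂ))) =
        (1 / 2 : ℂ) * ((1 : Matrix ι ι ℂ) i j + z⁻¹ * ((J i j : ℚ) : ℂ))
      rw [map_mul, map_add, map_mul, map_inv₀, hσ, map_ratCast, Matrix.one_apply]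
      have h5 : σ (1 / 2 : ℂ) = 1 / 2 := by
        rw [map_div₀, map_one, map_ofNat]
      rw [h5]
      split_ifs
      · rw [map_one]
      · rw [map_zero]
    refine ⟨?_, h1⟩
    rw [hS, Finset.mem_filter]
    refine ⟨hσm σ x (hSR x hx), ?_⟩
    rw [← h1]
    intro h
    have hx2 : F x ≠ 0 := by
      rw [hS] at hx
      exact (Finset.mem_filter.mp hx).2
    apply hx2
    ext i j
    have h3 := congrFun (congrFun h i) j
    have h4 : σ (F x i j) = 0 := h3
    exact (map_eq_zero σ).mp h4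

end PSQ
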