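import Pool.Agent.PSQ.St

/-!
# PSQ, module SPL: the splitting
-/

set_option autoImplicit false

namespace PSQ

open Matrix Module Pool.Agent.Helper7

section dagger

variable {ι : Type} [Fintype ι] [DecidableEq ι] {K : Type} [Field K]

/-- The adjoint with respect to the form `P`. -/
noncomputable def spl_dg (P M : Matrix ι ι K) : Matrix ι ι K := P⁻¹ * Mᵀ * P

variable {P : Matrix ι ι K}

theorem spl_dg_mul (hP : P.det ≠ 0) (M N : Matrix ι ι K) :
    spl_dg P (M * N) = spl_dg P N * spl_dg P M := by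
  unfold spl_dg
  have h1 : P * P⁻¹ = 1 := Matrix.mul_nonsing_inv P (isUnit_iff_ne_zero.mpr hP)
  calc P⁻¹ * (M * N)ᵀ * P = P⁻¹ * Nᵀ * 1 * Mᵀ * P := by
        rw [Matrix.transpose_mul, Matrix.mul_one, Matrix.mul_assoc P⁻¹ Nᵀ Mᵀ]
    _ = P⁻¹ * Nᵀ * (P * P⁻¹) * Mᵀ * P := by rw [h1]
    _ = P⁻¹ * Nᵀ * P * (P⁻¹ * Mᵀ * P) := by simp only [Matrix.mul_assoc]

theorem spl_dg_dg (hP : P.det ≠ 0) (hT : Pᵀ = -P) (M : Matrix ι ι K) :
    spl_dg P (spl_dg P M) = M := by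
  unfold spl_dg
  have h1 : P⁻¹ * P = 1 := Matrix.nonsing_inv_mul P (isUnit_iff_ne_zero.mpr hP)
  have h2 : (P⁻¹)ᵀ * P = -1 := by
    have h3 : Pᵀ * (P⁻¹)ᵀ = 1 := by rw [← Matrix.transpose_mul, h1, Matrix.transpose_one]
    rw [hT, Matrix.neg_mul] at h3
    have h4 : P * (P⁻¹)ᵀ = -1 := by rw [← h3, neg_neg]
    have h5 : P * (-(P⁻¹)ᵀ) = 1 := by rw [Matrix.mul_neg, h4, neg_neg]
    have h6 : (-(P⁻¹)ᵀ) * P = 1 := mul_eq_one_comm.mp h5
    rw [Matrix.neg_mul] at h6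
    rw [← h6, neg_neg]
  calc P⁻¹ * (P⁻¹ * Mᵀ * P)ᵀ * P = P⁻¹ * (Pᵀ * M * (P⁻¹)ᵀ) * P := by
        rw [Matrix.transpose_mul, Matrix.transpose_mul, Matrix.transpose_transpose,
          Matrix.mul_assoc Pᵀ]
    _ = (P⁻¹ * Pᵀ) * M * ((P⁻¹)ᵀ * P) := by simp only [Matrix.mul_assoc]
    _ = M := by rw [hT, Matrix.mul_neg, h1, h2]; simp

theorem spl_dg_add (M N : Matrix ι ι K) : spl_dg P (M + N) = spl_dg P M + spl_dg P N := by
  unfold spl_dg
  rw [Matrix.transpose_add, Matrix.mul_add, Matrix.add_mul]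

theorem spl_dg_smul (c : K) (M : Matrix ι ι K) : spl_dg P (c • M) = c • spl_dg P M := by
  unfold spl_dg
  rw [Matrix.transpose_smul, Matrix.mul_smul, Matrix.smul_mul]

theorem spl_dg_zero : spl_dg P (0 : Matrix ι ι K) = 0 := by
  unfold spl_dg
  rw [Matrix.transpose_zero, Matrix.mul_zero, Matrix.zero_mul]

theorem spl_dg_neg (M : Matrix ι ι K) : spl_dg P (-M) = -spl_dg P M := by
  unfold spl_dg
  rw [Matrix.transpose_neg, Matrix.mul_neg, Matrix.neg_mul]

theorem spl_dg_one (hP : P.det ≠ 0) : spl_dg P (1 : Matrix ι ι K) = 1 := by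
  unfold spl_dg
  rw [Matrix.transpose_one, Matrix.mul_one,
    Matrix.nonsing_inv_mul P (isUnit_iff_ne_zero.mpr hP)]

theorem spl_dg_sum {τ : Type} (s : Finset τ) (M : τ → Matrix ι ι K) :
    spl_dg P (∑ i ∈ s, M i) = ∑ i ∈ s, spl_dg P (M i) := by
  classical
  induction s using Finset.induction_on with
  | empty => rw [Finset.sum_empty, Finset.sum_empty, spl_dg_zero]
  | insert a s ha ih => rw [Finset.sum_insert ha, Finset.sum_insert ha, spl_dg_add, ih]

theorem spl_dg_trace (hP : P.det ≠ 0) (M : Matrix ι ι K) : (spl_dg P M).trace = M.trace := by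
  unfold spl_dg
  rw [Matrix.trace_mul_comm, ← Matrix.mul_assoc,
    Matrix.mul_nonsing_inv P (isUnit_iff_ne_zero.mpr hP), Matrix.one_mul, Matrix.trace_transpose]

theorem spl_dual (hP : P.det ≠ 0) (M : Matrix ι ι K) : Mᵀ * P = P * spl_dg P M := by
  unfold spl_dg
  rw [← Matrix.mul_assoc, ← Matrix.mul_assoc,
    Matrix.mul_nonsing_inv P (isUnit_iff_ne_zero.mpr hP), Matrix.one_mul]

theorem spl_dg_of (hP : P.det ≠ 0) {M : Matrix ι ι K} {c : K} (h : Mᵀ * P + P * M = c • P) :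
    spl_dg P M = c • (1 : Matrix ι ι K) - M := by
  have h1 : Mᵀ * P = P * (c • (1 : Matrix ι ι K) - M) := by
    rw [Matrix.mul_sub, Matrix.mul_smul, Matrix.mul_one, ← h, add_sub_cancel_right]
  unfold spl_dg
  rw [Matrix.mul_assoc, h1, ← Matrix.mul_assoc,
    Matrix.nonsing_inv_mul P (isUnit_iff_ne_zero.mpr hP), Matrix.one_mul]

end dagger

section rational

variable {ι : Type} [Fintype ι] [DecidableEq ι]

theorem spl_cc_inj : Function.Injective (cc : Matrix ι ι ℚ →+* Matrix ι ι ℂ) :=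
  Matrix.map_injective (algebraMap ℚ ℂ).injective

theorem spl_cc_det {P : Matrix ι ι ℚ} (hP : P.det ≠ 0) : (cc P).det ≠ 0 := by
  have h : (cc P).det = algebraMap ℚ ℂ P.det := ((algebraMap ℚ ℂ).map_det P).symm
  rw [h]
  exact fun h0 => hP ((algebraMap ℚ ℂ).injective (by rw [h0, map_zero]))

theorem spl_cc_dg {P : Matrix ι ι ℚ} (hP : P.det ≠ 0) (M : Matrix ι ι ℚ) :
    cc (spl_dg P M) = spl_dg (cc P) (cc M) := by
  unfold spl_dg
  have h1 : (cc P)⁻¹ = cc P⁻¹ := by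
    apply Matrix.inv_eq_left_inv
    rw [← map_mul, Matrix.nonsing_inv_mul P (isUnit_iff_ne_zero.mpr hP), map_one]
  rw [map_mul, map_mul, h1]
  rfl

theorem spl_map_dg {P : Matrix ι ι ℚ} (hP : P.det ≠ 0) (σ : ℂ ≃+* ℂ) (M : Matrix ι ι ℂ) :
    (spl_dg (cc P) M).map σ = spl_dg (cc P) (M.map σ) := by
  have h0 : ∀ N : Matrix ι ι ℚ, (cc N).map σ = cc N := by
    intro N
    ext i j
    show σ ((N i j : ℚ) : ℂ) = ((N i j : ℚ) : ℂ)
    exact map_ratCast σ (N i j)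
  have h1 : (cc P)⁻¹ = cc P⁻¹ := by
    apply Matrix.inv_eq_left_inv
    rw [← map_mul, Matrix.nonsing_inv_mul P (isUnit_iff_ne_zero.mpr hP), map_one]
  unfold spl_dg
  rw [h1, Matrix.map_mul, Matrix.map_mul, h0, h0]
  rfl

variable {ψ : Matrix ι ι ℚ} {𝓓 : Set (Matrix ι ι ℚ)} {𝔤 : Submodule ℂ (Matrix ι ι ℂ × ℂ)}

/-- `𝓓` is stable under the adjoint. -/
theorem spl_D (hG : GA0 ψ 𝓓 𝔤) {f : Matrix ι ι ℚ} (hf : f ∈ 𝓓) : spl_dg ψ f ∈ 𝓓 := by
  apply hG.com2
  intro A μ hA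
  have h1 : A * f = f * A := by
    apply spl_cc_inj
    rw [map_mul, map_mul]
    exact hG.comm _ hA f hf
  have h2 : Aᵀ * ψ + ψ * A = μ • ψ := by
    apply spl_cc_inj
    have h3 := hG.pol _ hA
    rw [map_add, map_mul, map_mul]
    have h4 : cc (μ • ψ) = (μ : ℂ) • cc ψ := by
      ext i j
      show ((μ * ψ i j : ℚ) : ℂ) = (μ : ℂ) * ((ψ i j : ℚ) : ℂ)
      push_cast
      rfl
    rw [h4]
    exact h3
  have h5 := spl_dg_of hG.nd h2
  have h6 : A = μ • (1 : Matrix ι ι ℚ) - spl_dg ψ A := by rw [h5, sub_sub_cancel]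
  have h7 : spl_dg ψ A * spl_dg ψ f = spl_dg ψ f * spl_dg ψ A := by
    rw [← spl_dg_mul hG.nd, ← spl_dg_mul hG.nd, h1]
  rw [h6, Matrix.sub_mul, Matrix.mul_sub, h7, Matrix.smul_mul, Matrix.mul_smul, Matrix.one_mul,
    Matrix.mul_one]

theorem spl_IsC (hG : GA0 ψ 𝓓 𝔤) {M : Matrix ι ι ℂ} (hM : IsC 𝓓 M) :
    IsC 𝓓 (spl_dg (cc ψ) M) := by
  intro f hf
  have hd := spl_cc_det hG.nd
  have hT : (cc ψ)ᵀ = -cc ψ := by
    have h : (cc ψ)ᵀ = cc ψᵀ := rfl
    rw [h, hG.alt, map_neg]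
  have h1 := hM _ (spl_D hG hf)
  have h2 : spl_dg (cc ψ) (cc (spl_dg ψ f)) = cc f := by
    rw [spl_cc_dg hG.nd, spl_dg_dg hd hT]
  have h3 := congrArg (spl_dg (cc ψ)) h1
  rw [spl_dg_mul hd, spl_dg_mul hd, h2] at h3
  exact h3.symm

end rational

theorem thm_Spl (hSpc : St_Spc) (hTrn : St_Trn) (hCyc : St_Cyc) (hEig : St_Eig) (hCen : St_Cen)
    (hExi : St_Exi) : St_Spl := by
  intro ι _ _ ψ 𝓓 J d p hp 𝔤 z hDA hG hz
  classical
  obtain ⟨Y, hYg, hYn⟩ := hExi ι ψ 𝓓 J d p 𝔤 hDA hG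
  have hYD : ∀ f ∈ 𝓓, Y * f = f * Y := by
    intro f hf
    apply spl_cc_inj
    rw [map_mul, map_mul]
    exact hG.comm _ hYg f hf
  obtain ⟨S, F, hSp⟩ := hSpc ι ψ 𝓓 J d p z Y hDA hz hYD
  obtain ⟨hcard, htr⟩ := hEig ι ψ 𝓓 J d p z Y S F hDA hz hYD hYn hSp
  obtain ⟨σ, x, hσz, hxi, hxS, hxs, hσx⟩ := hCyc p z S hcard
    (fun σ hσ x hx => (hSp.gal σ hσ x hx).1) (hTrn ι ψ 𝓓 J d p z Y S F hDA hz hYD hSp)
  have hz0 : z ≠ 0 := by
    rintro rfl
    have h1 : (d : ℂ) = 0 := by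
      have h2 : (0 : ℂ) ^ 2 = -(d : ℂ) := hz
      rw [zero_pow two_ne_zero] at h2
      rw [← neg_eq_zero, ← h2]
    have h3 : d = 0 := by exact_mod_cast h1
    exact hDA.dpos.ne' h3
  have hd := spl_cc_det hG.nd
  have hT : (cc ψ)ᵀ = -cc ψ := by
    have h : (cc ψ)ᵀ = cc ψᵀ := rfl
    rw [h, hG.alt, map_neg]
  have hJdg : spl_dg (cc ψ) (cc J) = -cc J := by
    have h1 : (cc J)ᵀ * cc ψ + cc ψ * cc J = (0 : ℂ) • cc ψ := by
      have h2 : (cc J)ᵀ = cc Jᵀ := rfl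
      rw [h2, ← map_mul, hDA.Jpsi, map_neg, map_mul, zero_smul, neg_add_cancel]
    rw [spl_dg_of hd h1, zero_smul, zero_sub]
  have hYdg : spl_dg (cc ψ) (cc Y) = -cc Y := by
    have h1 := hG.pol _ hYg
    rw [spl_dg_of hd h1, zero_smul, zero_sub]
  have hYJ : cc Y * cc J = cc J * cc Y := by
    rw [← map_mul, hYD J hDA.JD, map_mul]
  -- the true part
  have hJF : ∀ i, cc J * F (x i) = z • F (x i) := fun i => hSp.JF _ (hxS i)
  have hFJ : ∀ i, F (x i) * cc J = z • F (x i) := by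
    intro i
    rw [← hSp.com (cc J) hYJ.symm rfl _ (hxS i), hJF]
  have hYF : ∀ i, cc Y * F (x i) = x i • F (x i) := fun i => hSp.ZF _ (hxS i)
  have hFY : ∀ i, F (x i) * cc Y = x i • F (x i) := by
    intro i
    rw [← hSp.com (cc Y) rfl hYJ _ (hxS i), hYF]
  set D : Matrix ι ι ℂ → Matrix ι ι ℂ := spl_dg (cc ψ) with hD
  have hDm : ∀ M N, D (M * N) = D N * D M := spl_dg_mul hd
  have hDD : ∀ M, D (D M) = M := spl_dg_dg hd hT
  have hJD : ∀ i, cc J * D (F (x i)) = (-z) • D (F (x i)) := by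
    intro i
    have h1 := congrArg D (hFJ i)
    rw [hDm, hJdg, Matrix.neg_mul, hD, spl_dg_smul] at h1
    rw [neg_smul, ← h1, neg_neg]
  have hDJ : ∀ i, D (F (x i)) * cc J = (-z) • D (F (x i)) := by
    intro i
    have h1 := congrArg D (hJF i)
    rw [hDm, hJdg, Matrix.mul_neg, hD, spl_dg_smul] at h1
    rw [neg_smul, ← h1, neg_neg]
  have hYDF : ∀ i, cc Y * D (F (x i)) = (-x i) • D (F (x i)) := by
    intro i
    have h1 := congrArg D (hFY i)
    rw [hDm, hYdg, Matrix.neg_mul, hD, spl_dg_smul] at h1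
    rw [neg_smul, ← h1, neg_neg]
  have hz2 : z + z ≠ 0 := by
    rw [← two_mul]
    exact mul_ne_zero two_ne_zero hz0
  have hFD : ∀ i j, F (x i) * D (F (x j)) = 0 := by
    intro i j
    have h1 : F (x i) * cc J * D (F (x j)) = F (x i) * (cc J * D (F (x j))) :=
      Matrix.mul_assoc _ _ _
    rw [hFJ, hJD, Matrix.smul_mul, Matrix.mul_smul, neg_smul, eq_neg_iff_add_eq_zero,
      ← add_smul] at h1
    exact (smul_eq_zero.mp h1).resolve_left hz2
  have hDF : ∀ i j, D (F (x i)) * F (x j) = 0 := by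
    intro i j
    have h1 : D (F (x i)) * cc J * F (x j) = D (F (x i)) * (cc J * F (x j)) :=
      Matrix.mul_assoc _ _ _
    rw [hDJ, hJF, Matrix.smul_mul, Matrix.mul_smul, neg_smul, neg_eq_iff_add_eq_zero,
      ← add_smul] at h1
    exact (smul_eq_zero.mp h1).resolve_left hz2
  have hFF : ∀ i j, F (x i) * F (x j) = if i = j then F (x i) else 0 := by
    intro i j
    rw [hSp.orth _ (hxS i) _ (hxS j)]
    by_cases h : i = j
    · rw [if_pos h, if_pos (congrArg x h)]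
    · rw [if_neg h, if_neg fun h' => h (hxi h')]
  have hsum : ∑ i, F (x i) = (1 / 2 : ℂ) • (1 + z⁻¹ • cc J) := by
    rw [← hSp.sum]
    refine Finset.sum_bij (fun i _ => x i) (fun i _ => hxS i) (fun i _ j _ h => hxi h) ?_
      (fun i _ => rfl)
    intro y hy
    obtain ⟨i, hi⟩ := hxs y hy
    exact ⟨i, Finset.mem_univ _, hi⟩
  have hsumD : ∑ i, D (F (x i)) = (1 / 2 : ℂ) • (1 - z⁻¹ • cc J) := by
    rw [hD, ← spl_dg_sum, hsum, spl_dg_smul, spl_dg_add, spl_dg_one hd, spl_dg_smul, ← hD, hJdg,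
      smul_neg, ← sub_eq_add_neg]
  have hone : ∑ i, F (x i) + ∑ i, D (F (x i)) = 1 := by
    rw [hsum, hsumD, ← smul_add, add_add_sub_cancel, ← two_smul ℂ (1 : Matrix ι ι ℂ), smul_smul]
    norm_num
  have hCF : ∀ i, IsC 𝓓 (F (x i)) := by
    intro i f hf
    refine (hSp.com (cc f) ?_ ?_ _ (hxS i)).symm
    · rw [← map_mul, ← hYD f hf, map_mul]
    · rw [← map_mul, hDA.Jc f hf, map_mul]
  have hYsum : cc Y = ∑ i, x i • (F (x i) - D (F (x i))) := by
    have h1 : cc Y = cc Y * (∑ i, F (x i) + ∑ i, D (F (x i))) := by rw [hone, Matrix.mul_one]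
    rw [h1, Matrix.mul_add, Finset.mul_sum, Finset.mul_sum, ← Finset.sum_add_distrib]
    refine Finset.sum_congr rfl fun i _ => ?_
    rw [hYF, hYDF, smul_sub, neg_smul, ← sub_eq_add_neg]
  have hcent : ∀ Z : Matrix ι ι ℂ, IsC 𝓓 Z → (∀ i, Z * F (x i) = F (x i) * Z) →
      (∀ i, Z * D (F (x i)) = D (F (x i)) * Z) → ∀ i, ∃ c : ℂ, Z * F (x i) = c • F (x i) := by
    intro Z hZ h1 h2 i
    refine hCen ι ψ 𝓓 J d p z Y S F hDA hz hYD hYn hSp Z hZ ?_ (x i) (hxS i)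
    rw [hYsum, Finset.mul_sum, Finset.sum_mul]
    refine Finset.sum_congr rfl fun j _ => ?_
    rw [Matrix.mul_smul, Matrix.smul_mul, Matrix.mul_sub, Matrix.sub_mul, h1, h2]
  refine ⟨σ, x, fun s i => if s then F (x i) else D (F (x i)), ?_⟩
  constructor
  · exact hz
  · exact hσz
  · exact hxi
  · exact hσx
  · intro s i t j
    cases s <;> cases t
    · show D (F (x i)) * D (F (x j)) = if false = false ∧ i = j then D (F (x i)) else 0
      rw [← hDm, hFF]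
      by_cases h : i = j
      · subst h
        simp
      · rw [if_neg (Ne.symm h), if_neg fun h' => h h'.2, hD, spl_dg_zero]
    · show D (F (x i)) * F (x j) = if false = true ∧ i = j then D (F (x i)) else 0
      rw [hDF, if_neg]
      intro h
      exact Bool.false_ne_true h.1
    · show F (x i) * D (F (x j)) = if true = false ∧ i = j then F (x i) else 0
      rw [hFD, if_neg]
      intro h
      exact Bool.false_ne_true h.1.symm
    · show F (x i) * F (x j) = if true = true ∧ i = j then F (x i) else 0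
      rw [hFF]
      simp
  · rw [Fintype.sum_bool]
    exact hone
  · intro s i
    cases s
    · exact spl_IsC hG (hCF i)
    · exact hCF i
  · exact hJF
  · exact hJD
  · intro i
    exact spl_dual hd _
  · intro s i
    cases s
    · show (D (F (x i))).trace = p
      rw [hD, spl_dg_trace hd]
      exact htr _ (hxS i)
    · exact htr _ (hxS i)
  · intro s i
    cases s
    · show (D (F (x i))).map σ = D (F (x (i + 1)))
      rw [hD, spl_map_dg hG.nd, (hSp.gal σ hσz _ (hxS i)).2, hσx]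
    · show (F (x i)).map σ = F (x (i + 1))
      rw [(hSp.gal σ hσz _ (hxS i)).2, hσx]
  · intro Z hZ hcom s i
    cases s
    · have h1 : ∀ i, D Z * F (x i) = F (x i) * D Z := by
        intro i
        have h2 := congrArg D (hcom false i)
        have h3 : D (Z * D (F (x i))) = D (D (F (x i)) * Z) := h2
        rw [hDm, hDm, hDD] at h3
        exact h3.symm
      have h2 : ∀ i, D Z * D (F (x i)) = D (F (x i)) * D Z := by
        intro i
        have h3 : D (Z * F (x i)) = D (F (x i) * Z) := congrArg D (hcom true i)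
        rw [hDm, hDm] at h3
        exact h3.symm
      obtain ⟨c, hc⟩ := hcent (D Z) (spl_IsC hG hZ) h1 h2 i
      refine ⟨c, ?_⟩
      show Z * D (F (x i)) = c • D (F (x i))
      have h4 := congrArg D hc
      rw [hDm, hDD, hD, spl_dg_smul] at h4
      rw [← h4]
      exact hcom false i
    · exact hcent Z hZ (fun i => hcom true i) (fun i => hcom false i) i
  · have h1 : (∑ i, x i • (F (x i) - D (F (x i))), (0 : ℂ)) ∈ 𝔤 := by
      rw [← hYsum]
      exact hYg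
    exact h1
  · exact ⟨Y, hYsum⟩

end PSQ
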