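import Pool.Agent.PSQ.St

/-!
# PSQ: the commutant is a division algebra and its trace form is nondegenerate (M3)
-/

set_option autoImplicit false

namespace PSQ

open Matrix Module Pool.Agent.Helper7

private theorem trc_indep {m : ℕ} (c : Fin m → ℂ) (hc : LinearIndependent ℚ c) (q : Fin m → ℚ)
    (h : ∑ l, c l * (q l : ℂ) = 0) (l : Fin m) : q l = 0 := by
  rw [Fintype.linearIndependent_iff] at hc
  apply hc q
  rw [← h]
  refine Finset.sum_congr rfl fun i _ => ?_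
  rw [Algebra.smul_def, mul_comm]
  rfl

private theorem trc_det {ι : Type} [Fintype ι] [DecidableEq ι] {ψ : Matrix ι ι ℚ}
    {𝓓 : Set (Matrix ι ι ℚ)} {J : Matrix ι ι ℚ} {d : ℚ} {p : ℕ} (h : DA ψ 𝓓 J d p)
    (Z : Matrix ι ι ℚ) (hZ : ∀ f ∈ 𝓓, Z * f = f * Z) (h0 : Z ≠ 0) : Z.det ≠ 0 := by
  intro hdet
  obtain ⟨v, hv, hZv⟩ := Matrix.exists_mulVec_eq_zero_iff.2 hdet
  apply h0
  have hw : ∀ w : ι → ℚ, Z *ᵥ w = 0 := by
    intro w
    obtain ⟨f, hf, rfl⟩ := h.trans v w hv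
    rw [Matrix.mulVec_mulVec, hZ f hf, ← Matrix.mulVec_mulVec, hZv, Matrix.mulVec_zero]
  ext i j
  have h1 := congrFun (hw (Pi.single j 1)) i
  rw [Matrix.mulVec_single_one] at h1
  exact h1

private theorem trc_cc_apply {ι : Type} [Fintype ι] [DecidableEq ι] (A : Matrix ι ι ℚ) (i j : ι) :
    cc A i j = (A i j : ℂ) := rfl

theorem thm_Trc : St_Trc := by
  intro ι _ _ ψ 𝓓 J d p h
  refine ⟨fun Z hZ h0 => trc_det h Z hZ h0, ?_⟩
  intro Z hZ h0
  obtain ⟨m, c, y, hc, hy⟩ := exists_rat_decomp (X := ι × ι) fun t => Z t.1 t.2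
  let A : Fin m → Matrix ι ι ℚ := fun l => Matrix.of fun i j => y l (i, j)
  have hsum : Z = ∑ l, c l • cc (A l) := by
    ext i j
    rw [Matrix.sum_apply]
    exact hy (i, j)
  have hcomm : ∀ l, ∀ f ∈ 𝓓, A l * f = f * A l := by
    intro l f hf
    ext i j
    have h1 := congrFun (congrFun (hZ f hf) i) j
    have h2 : ∑ l, c l * ((((A l * f) i j - (f * A l) i j : ℚ)) : ℂ) = 0 := by
      rw [hsum, Finset.sum_mul, Finset.mul_sum, Matrix.sum_apply, Matrix.sum_apply,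
        ← sub_eq_zero, ← Finset.sum_sub_distrib] at h1
      rw [← h1]
      refine Finset.sum_congr rfl fun k _ => ?_
      rw [Matrix.smul_mul, Matrix.mul_smul, Matrix.smul_apply, Matrix.smul_apply, ← map_mul,
        ← map_mul, trc_cc_apply, trc_cc_apply, smul_eq_mul, smul_eq_mul, Rat.cast_sub, mul_sub]
    exact sub_eq_zero.1 (trc_indep c hc _ h2 l)
  by_contra hcon
  push Not at hcon
  have hl : ∃ l, A l ≠ 0 := by
    by_contra hA
    push Not at hA
    apply h0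
    rw [hsum]
    exact Finset.sum_eq_zero fun l _ => by rw [hA l, map_zero, smul_zero]
  obtain ⟨l, hl⟩ := hl
  have hdet := trc_det h (A l) (hcomm l) hl
  have hu : IsUnit (A l).det := isUnit_iff_ne_zero.2 hdet
  have hB : ∀ f ∈ 𝓓, (A l)⁻¹ * f = f * (A l)⁻¹ := by
    intro f hf
    have h1 := hcomm l f hf
    calc (A l)⁻¹ * f = (A l)⁻¹ * (f * A l) * (A l)⁻¹ := by
          rw [Matrix.mul_assoc, Matrix.mul_assoc, Matrix.mul_nonsing_inv _ hu, Matrix.mul_one]
      _ = f * (A l)⁻¹ := by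
          rw [← h1, ← Matrix.mul_assoc, Matrix.nonsing_inv_mul _ hu, Matrix.one_mul]
  have hIs : IsC 𝓓 (cc (A l)⁻¹) := by
    intro f hf
    rw [← map_mul, ← map_mul, hB f hf]
  have h3 := hcon _ hIs
  have h4 : ∑ k, c k * (((A k * (A l)⁻¹).trace : ℚ) : ℂ) = 0 := by
    rw [← h3, hsum, Finset.sum_mul, Matrix.trace_sum]
    refine Finset.sum_congr rfl fun k _ => ?_
    rw [Matrix.smul_mul, Matrix.trace_smul, ← map_mul, smul_eq_mul]
    congr 1
    rw [Matrix.trace, Matrix.trace, Rat.cast_sum]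
    rfl
  have h5 := trc_indep c hc _ h4 l
  rw [Matrix.mul_nonsing_inv _ hu, Matrix.trace_one, h.card] at h5
  have h6 : 0 < p := h.prime.pos
  have h7 : ((2 * p ^ 2 : ℕ) : ℚ) ≠ 0 := by positivity
  exact h7 h5

end PSQ
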