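import Pool.Agent.PSQ.St
import Pool.Agent.Helper84.AutC

set_option autoImplicit false

/-!
# PSQ: the eigenvalues are conjugate over the centre
-/

namespace PSQ

open Matrix Module

/-- two homomorphisms of a finite dimensional domain over the rational numbers are conjugate -/
theorem trn_aut {A : Type} [CommRing A] [IsDomain A] [alg : Algebra ℚ A] [FiniteDimensional ℚ A]
    (φ φ' : A →+* ℂ) : ∃ τ : ℂ ≃+* ℂ, ∀ a, τ (φ a) = φ' a := by
  let _ : Field A := fieldOfFiniteDimensional ℚ A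
  have hc : CharZero A := charZero_of_injective_algebraMap (algebraMap ℚ A).injective
  have h1 : alg = DivisionRing.toRatAlgebra := Subsingleton.elim _ _
  have h2 : @Algebra.IsAlgebraic ℚ A _ _ DivisionRing.toRatAlgebra := by
    rw [← h1]
    exact Algebra.IsAlgebraic.of_finite ℚ A
  obtain ⟨τ, hτ⟩ := Pool.Agent.Helper84.exists_aut φ φ'
  exact ⟨τ, fun a => congrFun (congrArg DFunLike.coe hτ) a⟩

section

variable {ι : Type} [Fintype ι] [DecidableEq ι]

theorem trn_phi (L : Subalgebra ℚ (Matrix ι ι ℚ)) (v : ι → ℂ) (hv : v ≠ 0)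
    (h : ∀ a ∈ L, ∃ c : ℂ, cc a *ᵥ v = c • v) :
    ∃ φ : L →+* ℂ, ∀ a : L, cc a.1 *ᵥ v = φ a • v := by
  choose φ hφ using fun a : L => h a.1 a.2
  have huniq : ∀ c c' : ℂ, c • v = c' • v → c = c' := fun c c' h => smul_left_injective ℂ hv h
  refine ⟨{ toFun := φ, map_one' := ?_, map_mul' := ?_, map_zero' := ?_, map_add' := ?_ },
    hφ⟩
  · apply huniq
    rw [← hφ, one_smul]
    show cc (1 : Matrix ι ι ℚ) *ᵥ v = v
    rw [map_one, one_mulVec]
  · intro a b
    apply huniq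
    rw [← hφ]
    show cc (a.1 * b.1) *ᵥ v = _
    rw [map_mul, ← mulVec_mulVec, hφ b, mulVec_smul, hφ a, smul_smul, mul_comm]
  · apply huniq
    rw [← hφ, zero_smul]
    show cc (0 : Matrix ι ι ℚ) *ᵥ v = 0
    rw [map_zero, zero_mulVec]
  · intro a b
    apply huniq
    rw [← hφ]
    show cc (a.1 + b.1) *ᵥ v = _
    rw [map_add, add_mulVec, hφ a, hφ b, add_smul]

end

theorem thm_Trn (hTrc : St_Trc) : St_Trn := by
  intro ι _ _ ψ 𝓓 J d p z Z S F hD _ hZ hS x hx y hy
  have hdiv := (hTrc ι ψ 𝓓 J d p hD).1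
  have hZJ : Z * J = J * Z := hZ J hD.JD
  obtain ⟨L, hL⟩ : ∃ L, L = Algebra.adjoin ℚ ({Z, J} : Set (Matrix ι ι ℚ)) := ⟨_, rfl⟩
  have hZL : Z ∈ L := by rw [hL]; exact Algebra.subset_adjoin (Or.inl rfl)
  have hJL : J ∈ L := by rw [hL]; exact Algebra.subset_adjoin (Or.inr rfl)
  have hLD : ∀ h ∈ L, ∀ f ∈ 𝓓, h * f = f * h := by
    intro h hh f hf
    have h1 : L ≤ Subalgebra.centralizer ℚ {f} := by
      rw [hL]
      apply Algebra.adjoin_le
      rintro g (rfl | rfl)
      · rw [SetLike.mem_coe, Subalgebra.mem_centralizer_iff]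
        intro a ha
        rw [Set.mem_singleton_iff] at ha
        rw [ha, hZ f hf]
      · rw [SetLike.mem_coe, Subalgebra.mem_centralizer_iff]
        intro a ha
        rw [Set.mem_singleton_iff] at ha
        rw [ha, hD.Jc f hf]
    exact ((Subalgebra.mem_centralizer_iff ℚ).mp (h1 hh) f rfl).symm
  have hcen : ∀ W : Matrix ι ι ℚ, W * Z = Z * W → W * J = J * W → ∀ h ∈ L, W * h = h * W := by
    intro W hW1 hW2 h hh
    have h1 : L ≤ Subalgebra.centralizer ℚ {W} := by
      rw [hL]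
      apply Algebra.adjoin_le
      rintro g (rfl | rfl)
      · rw [SetLike.mem_coe, Subalgebra.mem_centralizer_iff]
        intro a ha
        rw [Set.mem_singleton_iff] at ha
        rw [ha, hW1]
      · rw [SetLike.mem_coe, Subalgebra.mem_centralizer_iff]
        intro a ha
        rw [Set.mem_singleton_iff] at ha
        rw [ha, hW2]
    exact (Subalgebra.mem_centralizer_iff ℚ).mp (h1 hh) W rfl
  have hLc : ∀ a ∈ L, ∀ b ∈ L, a * b = b * a := fun a ha b hb =>
    hcen a (hcen Z rfl hZJ a ha).symm (hcen J hZJ.symm rfl a ha).symm b hb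
  have hne : Nonempty ι := by
    rw [← Fintype.card_pos_iff, hD.card]
    have := hD.prime.pos
    positivity
  let _ : CommRing L := { (inferInstance : Ring L) with
    mul_comm := fun a b => Subtype.ext (hLc a.1 a.2 b.1 b.2) }
  have hdom : IsDomain L := by
    have h1 : NoZeroDivisors L := ⟨fun {a b} hab => by
      by_contra hc
      push Not at hc
      have h2 : a.1 ≠ 0 := fun h => hc.1 (Subtype.ext h)
      have h3 : b.1 ≠ 0 := fun h => hc.2 (Subtype.ext h)
      have h4 : a.1 * b.1 = 0 := congrArg Subtype.val hab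
      have h5 := congrArg Matrix.det h4
      rw [det_mul, det_zero] at h5
      exact mul_ne_zero (hdiv _ (hLD _ a.2) h2) (hdiv _ (hLD _ b.2) h3) h5⟩
    have h2 : Nontrivial L := ⟨⟨0, 1, fun h => by
      have h3 : (0 : Matrix ι ι ℚ) = 1 := congrArg Subtype.val h
      exact zero_ne_one h3⟩⟩
    exact NoZeroDivisors.to_isDomain L
  -- eigenvectors
  have heig : ∀ t ∈ S, ∃ φ : L →+* ℂ, φ ⟨Z, hZL⟩ = t ∧ φ ⟨J, hJL⟩ = z := by
    intro t ht
    have h1 := hS.ne t ht
    obtain ⟨i, j, hij⟩ : ∃ i j, F t i j ≠ 0 := by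
      by_contra hc
      push Not at hc
      exact h1 (by ext i j; exact hc i j)
    obtain ⟨v, hv⟩ : ∃ v, v = F t *ᵥ Pi.single j 1 := ⟨_, rfl⟩
    have hv0 : v ≠ 0 := by
      intro h
      have h2 := congrFun h i
      rw [hv, mulVec_single_one] at h2
      exact hij h2
    have hZv : cc Z *ᵥ v = t • v := by
      rw [hv, mulVec_mulVec, hS.ZF t ht, smul_mulVec]
    have hJv : cc J *ᵥ v = z • v := by
      rw [hv, mulVec_mulVec, hS.JF t ht, smul_mulVec]
    have hall : ∀ a ∈ L, ∃ c : ℂ, cc a *ᵥ v = c • v := by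
      intro a ha
      rw [hL] at ha
      induction ha using Algebra.adjoin_induction with
      | mem a ha =>
        rcases ha with rfl | rfl
        · exact ⟨t, hZv⟩
        · exact ⟨z, hJv⟩
      | algebraMap r =>
        refine ⟨r, ?_⟩
        have h2 : cc (algebraMap ℚ (Matrix ι ι ℚ) r) = algebraMap ℂ (Matrix ι ι ℂ) (r : ℂ) := by
          have h0 : (algebraMap ℂ (Matrix ι ι ℂ)).comp (algebraMap ℚ ℂ) =
            (cc : Matrix ι ι ℚ →+* Matrix ι ι ℂ).comp (algebraMap ℚ (Matrix ι ι ℚ)) :=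
            Subsingleton.elim _ _
          exact (congrFun (congrArg DFunLike.coe h0) r).symm
        rw [h2, Algebra.algebraMap_eq_smul_one, smul_mulVec, one_mulVec]
      | add a b _ _ ha hb =>
        obtain ⟨c, hc⟩ := ha
        obtain ⟨c', hc'⟩ := hb
        exact ⟨c + c', by rw [map_add, add_mulVec, hc, hc', add_smul]⟩
      | mul a b _ _ ha hb =>
        obtain ⟨c, hc⟩ := ha
        obtain ⟨c', hc'⟩ := hb
        exact ⟨c * c', by rw [map_mul, ← mulVec_mulVec, hc', mulVec_smul, hc, smul_smul, mul_comm]⟩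
    obtain ⟨φ, hφ⟩ := trn_phi L v hv0 hall
    refine ⟨φ, ?_, ?_⟩
    · have h2 := hφ ⟨Z, hZL⟩
      exact smul_left_injective ℂ hv0 (h2.symm.trans hZv)
    · have h2 := hφ ⟨J, hJL⟩
      exact smul_left_injective ℂ hv0 (h2.symm.trans hJv)
  obtain ⟨φ, hφ1, hφ2⟩ := heig x hx
  obtain ⟨φ', hφ1', hφ2'⟩ := heig y hy
  obtain ⟨τ, hτ⟩ := trn_aut φ φ'
  refine ⟨τ, ?_, ?_⟩
  · rw [← hφ2, hτ, hφ2', hφ2]
  · rw [← hφ1, hτ, hφ1']

end PSQ
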