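import Pool.Agent.PSQ.St

/-!
# PSQ, M15: the off-diagonal part
-/

set_option autoImplicit false

namespace PSQ

open Matrix Module Pool.Agent.Helper7

section

variable {ι : Type} [Fintype ι] [DecidableEq ι] {ψ : Matrix ι ι ℚ}
  {𝓓 : Set (Matrix ι ι ℚ)} {J : Matrix ι ι ℚ} {d : ℚ} {p : ℕ} [Fact p.Prime]
  {𝔤 : Submodule ℂ (Matrix ι ι ℂ × ℂ)} {z : ℂ} {σ : ℂ ≃+* ℂ} {x : ZMod p → ℂ}
  {E : Bool → ZMod p → Matrix ι ι ℂ}

theorem off_mul {A B : Matrix ι ι ℂ} (hA : IsC 𝓓 A) (hB : IsC 𝓓 B) : IsC 𝓓 (A * B) := by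
  intro f hf
  rw [mul_assoc, hB f hf, ← mul_assoc, hA f hf, mul_assoc]

theorem off_z (hD : DA ψ 𝓓 J d p) (hS : Spl ψ 𝓓 J d p 𝔤 z σ x E) : z ≠ 0 := by
  rintro rfl
  have h := hS.z2
  have h1 := hD.dpos
  rw [zero_pow two_ne_zero, eq_comm, neg_eq_zero, Rat.cast_eq_zero] at h
  exact h1.ne' h

theorem off_ccinj : Function.Injective (cc : Matrix ι ι ℚ →+* Matrix ι ι ℂ) := by
  intro A B h
  ext i j
  have h1 := congrFun (congrFun h i) j
  simp only [cc, RingHom.mapMatrix_apply, Matrix.map_apply] at h1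
  exact (algebraMap ℚ ℂ).injective h1

theorem off_tf (hD : DA ψ 𝓓 J d p) (hS : Spl ψ 𝓓 J d p 𝔤 z σ x E) {X : Matrix ι ι ℂ}
    (hX : IsC 𝓓 X) (i j : ZMod p) : E true i * X * E false j = 0 ∧
    E false i * X * E true j = 0 := by
  have hz := off_z hD hS
  have h2 : (2 * z) ≠ 0 := mul_ne_zero two_ne_zero hz
  have e1 := hS.com true i J hD.JD
  have e2 := hS.com false i J hD.JD
  have e3 := hX J hD.JD
  constructor
  · have h3 : z • (E true i * X * E false j) = (-z) • (E true i * X * E false j) := by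
      calc z • (E true i * X * E false j) = (z • E true i) * X * E false j := by
            rw [smul_mul_assoc, smul_mul_assoc]
        _ = E true i * (X * cc J) * E false j := by
            rw [← hS.Jt i, ← e1, e3, ← mul_assoc]
        _ = E true i * X * (cc J * E false j) := by simp only [mul_assoc]
        _ = (-z) • (E true i * X * E false j) := by rw [hS.Jf j, mul_smul_comm]
    have h4 : (2 * z) • (E true i * X * E false j) = 0 := by
      have h5 : (2 * z) • (E true i * X * E false j) =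
          z • (E true i * X * E false j) - (-z) • (E true i * X * E false j) := by
        rw [← sub_smul]
        congr 1
        ring
      rw [h5, h3, sub_self]
    exact (smul_eq_zero.mp h4).resolve_left h2
  · have h3 : (-z) • (E false i * X * E true j) = z • (E false i * X * E true j) := by
      calc (-z) • (E false i * X * E true j) = ((-z) • E false i) * X * E true j := by
            rw [smul_mul_assoc, smul_mul_assoc]
        _ = E false i * (X * cc J) * E true j := by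
            rw [← hS.Jf i, ← e2, e3, ← mul_assoc]
        _ = E false i * X * (cc J * E true j) := by simp only [mul_assoc]
        _ = z • (E false i * X * E true j) := by rw [hS.Jt j, mul_smul_comm]
    have h4 : (2 * z) • (E false i * X * E true j) = 0 := by
      have h5 : (2 * z) • (E false i * X * E true j) =
          z • (E false i * X * E true j) - (-z) • (E false i * X * E true j) := by
        rw [← sub_smul]
        congr 1
        ring
      rw [h5, h3, sub_self]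
    exact (smul_eq_zero.mp h4).resolve_left h2

theorem off_ne (hS : Spl ψ 𝓓 J d p 𝔤 z σ x E) (s : Bool) (i : ZMod p) : E s i ≠ 0 := by
  intro h
  have h1 := hS.tr s i
  rw [h, Matrix.trace_zero] at h1
  have h2 : (p : ℂ) ≠ 0 := Nat.cast_ne_zero.mpr (Fact.out : p.Prime).ne_zero
  exact h2 h1.symm

/-- the left component -/
theorem off_left (hD : DA ψ 𝓓 J d p) (hS : Spl ψ 𝓓 J d p 𝔤 z σ x E) {X : Matrix ι ι ℂ}
    (hX : IsC 𝓓 X) (j : ZMod p) : X * E true j = ∑ i, E true i * X * E true j := by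
  have h1 : X * E true j = (∑ s, ∑ i, E s i) * X * E true j := by rw [hS.sum, one_mul]
  refine h1.trans ?_
  rw [Fintype.sum_bool, add_mul, add_mul, Finset.sum_mul, Finset.sum_mul, Finset.sum_mul,
    Finset.sum_mul]
  have h2 : ∑ i, E false i * X * E true j = 0 :=
    Finset.sum_eq_zero fun i _ => (off_tf hD hS hX i j).2
  rw [h2, add_zero]

theorem off_right (hD : DA ψ 𝓓 J d p) (hS : Spl ψ 𝓓 J d p 𝔤 z σ x E) {X : Matrix ι ι ℂ}
    (hX : IsC 𝓓 X) (j : ZMod p) : E true j * X = ∑ i, E true j * X * E true i := by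
  have h1 : E true j * X = E true j * X * (∑ s, ∑ i, E s i) := by rw [hS.sum, mul_one]
  refine h1.trans ?_
  rw [Fintype.sum_bool, mul_add, Finset.mul_sum, Finset.mul_sum]
  have h2 : ∑ i, E true j * X * E false i = 0 :=
    Finset.sum_eq_zero fun i _ => (off_tf hD hS hX j i).1
  rw [h2, add_zero]

/-- if all off-diagonal components vanish, `X` commutes with the projectors -/
theorem off_diag (hD : DA ψ 𝓓 J d p) (hG : GA0 ψ 𝓓 𝔤) (hS : Spl ψ 𝓓 J d p 𝔤 z σ x E)
    {X : Matrix ι ι ℂ × ℂ} (hX : X ∈ 𝔤) (h : ∀ i j, i ≠ j → E true i * X.1 * E true j = 0)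
    (s : Bool) (j : ZMod p) : X.1 * E s j = E s j * X.1 := by
  have ht : X.1 * E true j = E true j * X.1 := by
    rw [off_left hD hS (hG.comm X hX) j, off_right hD hS (hG.comm X hX) j,
      Finset.sum_eq_single j, Finset.sum_eq_single j]
    · intro b _ hb
      exact h j b (Ne.symm hb)
    · intro hj
      exact absurd (Finset.mem_univ j) hj
    · intro b _ hb
      exact h b j hb
    · intro hj
      exact absurd (Finset.mem_univ j) hj
  cases s with
  | true => exact ht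
  | false =>
    have h1 : (E true j)ᵀ * X.1ᵀ = X.1ᵀ * (E true j)ᵀ := by
      rw [← Matrix.transpose_mul, ← Matrix.transpose_mul, ht]
    have h2 : X.1ᵀ * cc ψ = X.2 • cc ψ - cc ψ * X.1 := by
      rw [← hG.pol X hX, add_sub_cancel_right]
    have h3 : cc ψ * (E false j * X.1) = cc ψ * (X.1 * E false j) := by
      have h4 : (E true j)ᵀ * X.1ᵀ * cc ψ = X.1ᵀ * (E true j)ᵀ * cc ψ := by rw [h1]
      rw [mul_assoc, h2, mul_assoc, hS.dual j, ← mul_assoc X.1ᵀ, h2, mul_sub, sub_mul,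
        Matrix.mul_smul, hS.dual j, ← mul_assoc, hS.dual j, Matrix.smul_mul] at h4
      have h5 := sub_right_injective h4
      rw [← mul_assoc, h5, mul_assoc]
    have h6 : IsUnit (cc ψ).det := by
      have h7 : (cc ψ).det = ((ψ.det : ℚ) : ℂ) := by
        have := RingHom.map_det (algebraMap ℚ ℂ) ψ
        simpa [cc] using this.symm
      rw [h7]
      exact isUnit_iff_ne_zero.mpr (Rat.cast_ne_zero.mpr hG.nd)
    have h8 := congrArg (fun M => (cc ψ)⁻¹ * M) h3
    simp only [← mul_assoc, Matrix.nonsing_inv_mul _ h6, one_mul] at h8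
    exact h8.symm

theorem off_ccsmul (a : ℚ) (M : Matrix ι ι ℚ) : cc (a • M) = (a : ℂ) • cc M := by
  ext i j
  simp [cc]

theorem off_ccmap (σ : ℂ ≃+* ℂ) (A : Matrix ι ι ℚ) : (cc A).map σ = cc A := by
  ext i j
  simp [cc]

theorem off_shift (hG : GA0 ψ 𝓓 𝔤) (hS : Spl ψ 𝓓 J d p 𝔤 z σ x E) (i j : ZMod p)
    (h : ∃ X ∈ 𝔤, E true i * X.1 * E true j ≠ 0) :
    ∃ X ∈ 𝔤, E true (i + 1) * X.1 * E true (j + 1) ≠ 0 := by
  obtain ⟨X, hX, hne⟩ := h
  by_contra hcon
  push Not at hcon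
  refine hne ?_
  have h1 : ∀ Z ∈ {Z | Z ∈ 𝔤 ∧ ∃ (A : Matrix ι ι ℚ) (μ : ℚ), Z = (cc A, (μ : ℂ))},
      E true i * Z.1 * E true j = 0 := by
    rintro Z ⟨hZ, A, μ, rfl⟩
    have h2 := hcon _ hZ
    rw [← hS.sE, ← hS.sE] at h2
    have h3 : (E true i * cc A * E true j).map σ = 0 := by
      rw [← h2]
      show (E true i * cc A * E true j).map σ = (E true i).map σ * cc A * (E true j).map σ
      rw [Matrix.map_mul, Matrix.map_mul, off_ccmap]
    ext a b
    have h4 := congrFun (congrFun h3 a) b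
    rw [Matrix.map_apply] at h4
    exact (map_eq_zero_iff σ σ.injective).mp h4
  have h2 := hG.rat X hX
  clear hX hne
  induction h2 using Submodule.span_induction with
  | mem Z hZ => exact h1 Z hZ
  | zero => simp
  | add Z Z' _ _ h3 h4 =>
    rw [Prod.fst_add, mul_add, add_mul, h3, h4, add_zero]
  | smul c Z _ h3 =>
    rw [Prod.smul_fst, mul_smul_comm, smul_mul_assoc, h3, smul_zero]

theorem off_iter (hG : GA0 ψ 𝓓 𝔤) (hS : Spl ψ 𝓓 J d p 𝔤 z σ x E) (i j : ZMod p)
    (h : ∃ X ∈ 𝔤, E true i * X.1 * E true j ≠ 0) (m : ℕ) :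
    ∃ X ∈ 𝔤, E true (i + m) * X.1 * E true (j + m) ≠ 0 := by
  induction m with
  | zero => simpa using h
  | succ m ih =>
    have h1 := off_shift hG hS _ _ ih
    rw [Nat.cast_succ, ← add_assoc, ← add_assoc]
    exact h1

/-- some off-diagonal component does not vanish -/
theorem off_exists (hD : DA ψ 𝓓 J d p) (hG : GA0 ψ 𝓓 𝔤) (hS : Spl ψ 𝓓 J d p 𝔤 z σ x E) :
    ∃ i j, i ≠ j ∧ ∃ X ∈ 𝔤, E true i * X.1 * E true j ≠ 0 := by
  by_contra hcon
  push Not at hcon
  obtain ⟨Y, hY⟩ := hS.Yr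
  have hYD : Y ∈ 𝓓 := by
    apply hG.com2
    intro A μ hA
    apply off_ccinj
    rw [map_mul, map_mul, hY]
    have h1 : ∀ s i, cc A * E s i = E s i * cc A :=
      fun s i => off_diag hD hG hS hA (fun i j hij => hcon i j hij _ hA) s i
    rw [Finset.mul_sum, Finset.sum_mul]
    refine Finset.sum_congr rfl fun i _ => ?_
    rw [mul_smul_comm, smul_mul_assoc, mul_sub, sub_mul, h1, h1]
  obtain ⟨a, b, hab⟩ := hD.cen Y hYD (fun g hg => by
    apply off_ccinj
    rw [map_mul, map_mul, hY, Finset.sum_mul, Finset.mul_sum]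
    refine Finset.sum_congr rfl fun i _ => ?_
    rw [smul_mul_assoc, mul_smul_comm, sub_mul, mul_sub, hS.com true i g hg,
      hS.com false i g hg])
  have h2 : ∀ i, x i = a + b * z := by
    intro i
    have h3 : cc Y * E true i = x i • E true i := by
      rw [hY, Finset.sum_mul, Finset.sum_eq_single i]
      · rw [smul_mul_assoc, sub_mul, hS.orth, hS.orth]
        simp
      · intro k _ hk
        rw [smul_mul_assoc, sub_mul, hS.orth, hS.orth]
        simp [hk]
      · intro h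
        exact absurd (Finset.mem_univ i) h
    have h4 : cc Y * E true i = ((a : ℂ) + b * z) • E true i := by
      rw [hab, map_add, add_mul, off_ccsmul, off_ccsmul, map_one, smul_mul_assoc, one_mul,
        smul_mul_assoc, hS.Jt, smul_smul, ← add_smul]
    have h5 : (x i - (a + b * z)) • E true i = 0 := by
      rw [sub_smul, ← h3, h4, sub_self]
    exact sub_eq_zero.mp ((smul_eq_zero.mp h5).resolve_right (off_ne hS true i))
  have h7 := hS.inj ((h2 0).trans (h2 1).symm)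
  exact zero_ne_one h7

/-- one step -/
theorem off_one (hDia : St_Dia) (hD : DA ψ 𝓓 J d p) (hG : GA ψ 𝓓 𝔤)
    (hS : Spl ψ 𝓓 J d p 𝔤 z σ x E) (i k : ZMod p) (hik : i ≠ k)
    (hrel : ∃ X ∈ 𝔤, E true i * X.1 * E true k ≠ 0) :
    ∃ T ∈ 𝔤, T.2 = 0 ∧ ∃ b : Matrix ι ι ℂ, IsC 𝓓 b ∧ b ≠ 0 ∧ E true i * b = b ∧
      b * E true k = b ∧ ∀ l, T.1 * E true l = if l = k then b else 0 := by
  obtain ⟨X, hX, hne⟩ := hrel
  refine ⟨_, hDia ι ψ 𝓓 J d p 𝔤 z σ x E hD hG hS X hX i k hik, rfl,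
    E true i * X.1 * E true k, ?_, hne, ?_, ?_, ?_⟩
  · exact off_mul (off_mul (hS.com _ _) (hG.comm X hX)) (hS.com _ _)
  · rw [← mul_assoc, ← mul_assoc, hS.orth, if_pos ⟨rfl, rfl⟩]
  · rw [mul_assoc, hS.orth, if_pos ⟨rfl, rfl⟩]
  · intro l
    show (E true i * X.1 * E true k + E false k * X.1 * E false i) * E true l = _
    rw [add_mul, mul_assoc _ _ (E true l), mul_assoc _ _ (E true l), hS.orth, hS.orth]
    rcases eq_or_ne l k with h | h
    · subst h
      simp
    · simp [h, h.symm]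

theorem off_main (hDia : St_Dia) (hHom : St_Hom) (hD : DA ψ 𝓓 J d p) (hG : GA ψ 𝓓 𝔤)
    (hS : Spl ψ 𝓓 J d p 𝔤 z σ x E) (δ : ZMod p) (hδ : δ ≠ 0)
    (hrel : ∀ k, ∃ X ∈ 𝔤, E true (k + δ) * X.1 * E true k ≠ 0) (m : ℕ) (hm : 1 ≤ m)
    (k : ZMod p) : m < p →
    ∃ T ∈ 𝔤, T.2 = 0 ∧ ∃ b : Matrix ι ι ℂ, IsC 𝓓 b ∧ b ≠ 0 ∧ E true (k + m * δ) * b = b ∧
      b * E true k = b ∧ ∀ l, T.1 * E true l = if l = k then b else 0 := by
  induction m, hm using Nat.le_induction with
  | base =>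
    intro _
    have h1 := off_one hDia hD hG hS (k + δ) k (by simpa using hδ) (hrel k)
    simpa using h1
  | succ m hm ih =>
    intro hmp
    obtain ⟨T, hT, hT0, b, hb, hb0, hb1, hb2, hb3⟩ := ih (by omega)
    obtain ⟨T', hT', hT'0, a, ha, ha0, ha1, ha2, ha3⟩ :=
      off_one hDia hD hG hS (k + m * δ + δ) (k + m * δ) (by simpa using hδ) (hrel _)
    obtain ⟨⟨b', hb', c1, c2, c3, c4⟩, -⟩ :=
      hHom ι ψ 𝓓 J d p 𝔤 z σ x E hD hS _ _ b hb hb0 hb1 hb2
    have hne : k + m * δ + δ ≠ k := by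
      intro h
      have h1 : (((m + 1 : ℕ) : ZMod p)) * δ = 0 := by
        push_cast
        linear_combination h
      rcases mul_eq_zero.mp h1 with h2 | h2
      · rw [ZMod.natCast_eq_zero_iff] at h2
        exact absurd (Nat.le_of_dvd (Nat.succ_pos m) h2) (by omega)
      · exact hδ h2
    refine ⟨_, hG.br T' hT' T hT, rfl, a * b, off_mul ha hb, ?_, ?_, ?_, ?_⟩
    · intro h
      apply ha0
      rw [← ha2, ← c3, ← mul_assoc, h, zero_mul]
    · have h1 : k + ((m + 1 : ℕ) : ZMod p) * δ = k + m * δ + δ := by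
        push_cast
        ring
      rw [h1, ← mul_assoc, ha1]
    · rw [mul_assoc, hb2]
    · intro l
      show (T'.1 * T.1 - T.1 * T'.1) * E true l = _
      have e1 : T'.1 * b = a * b := by
        rw [← hb1, ← mul_assoc, ha3, if_pos rfl, hb1]
      have e2 : T.1 * a = 0 := by
        rw [← ha1, ← mul_assoc, hb3, if_neg hne, zero_mul]
      rw [sub_mul, mul_assoc, hb3, mul_assoc, ha3]
      rcases eq_or_ne l k with h | h
      · rw [if_pos h, if_pos h, e1]
        split_ifs with h'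
        · rw [e2, sub_zero]
        · rw [mul_zero, sub_zero]
      · rw [if_neg h, if_neg h, mul_zero, zero_sub, neg_eq_zero]
        split_ifs with h'
        · exact e2
        · rw [mul_zero]

end

theorem thm_Off (hDia : St_Dia) (hHom : St_Hom) : St_Off := by
  intro ι _ _ ψ 𝓓 J d p _ 𝔤 z σ x E hD hG hS
  obtain ⟨i0, j0, hij0, hrel0⟩ := off_exists hD hG.toGA0 hS
  have hδ : i0 - j0 ≠ 0 := sub_ne_zero.mpr hij0
  have hrel : ∀ k, ∃ X ∈ 𝔤, E true (k + (i0 - j0)) * X.1 * E true k ≠ 0 := by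
    intro k
    have h1 := off_iter hG.toGA0 hS i0 j0 hrel0 (k - j0).val
    rw [ZMod.natCast_val, ZMod.cast_id] at h1
    have e1 : i0 + (k - j0) = k + (i0 - j0) := by ring
    have e2 : j0 + (k - j0) = k := by ring
    rwa [e1, e2] at h1
  have key : ∀ i j : ZMod p, i ≠ j → ∃ T ∈ 𝔤, T.2 = 0 ∧ ∃ b : Matrix ι ι ℂ, IsC 𝓓 b ∧ b ≠ 0 ∧
      E true i * b = b ∧ b * E true j = b ∧ ∀ l, T.1 * E true l = if l = j then b else 0 := by
    intro i j hij
    have h2 : (i - j) * (i0 - j0)⁻¹ ≠ 0 := mul_ne_zero (sub_ne_zero.mpr hij) (inv_ne_zero hδ)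
    have h1 := off_main hDia hHom hD hG hS (i0 - j0) hδ hrel ((i - j) * (i0 - j0)⁻¹).val
      (Nat.one_le_iff_ne_zero.mpr (by
        intro h
        exact h2 ((ZMod.val_eq_zero _).mp h))) j (ZMod.val_lt _)
    rw [ZMod.natCast_val, ZMod.cast_id, inv_mul_cancel_right₀ hδ, add_sub_cancel] at h1
    exact h1
  refine ⟨fun i j => ?_, fun i j a hij ha ha1 ha2 => ?_⟩
  · rcases eq_or_ne i j with h | h
    · subst h
      exact ⟨E true i, hS.com _ _, off_ne hS _ _, by rw [hS.orth, if_pos ⟨rfl, rfl⟩],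
        by rw [hS.orth, if_pos ⟨rfl, rfl⟩]⟩
    · obtain ⟨T, -, -, b, hb, hb0, hb1, hb2, -⟩ := key i j h
      exact ⟨b, hb, hb0, hb1, hb2⟩
  · obtain ⟨T, hT, hT0, b, hb, hb0, hb1, hb2, hb3⟩ := key i j hij
    obtain ⟨c, hc⟩ := (hHom ι ψ 𝓓 J d p 𝔤 z σ x E hD hS i j b hb hb0 hb1 hb2).2 a ha ha1 ha2
    refine ⟨c • T, 𝔤.smul_mem c hT, ?_, fun k => ?_⟩
    · rw [Prod.smul_snd, hT0, smul_zero]
    · rw [Prod.smul_fst, smul_mul_assoc, hb3, hc]
      split_ifs
      · rfl
      · rw [smul_zero]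

end PSQ
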